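import Pool.Agent.Lib.MP_e9c0f3_ag.LF.Tail

/-! Chern characters of vector bundles on the torsor have rational degrees. -/

open MvPolynomial Sum Matrix

namespace Pool.Agent.Lib.MP_e9c0f3_ag.LF

open DR

variable {N : ℕ} {F : Pol N ℂ} {d : ℕ} {κ : Type} [Fintype κ] [DecidableEq κ]

theorem frame_one : Frame F (fun _ : κ => 0) (1 : Matrix κ κ (TT F)) 1 := by
  refine ⟨fun a i => ?_, fun a i => ?_, Matrix.mul_one _, ?_⟩
  · rw [Matrix.one_apply]
    split_ifs
    · exact wt_one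
    · exact wt_zero _
  · rw [Matrix.one_apply]
    split_ifs
    · exact wt_one
    · exact wt_zero _
  · rw [Matrix.map_one _ (map_zero _) (map_one _), Matrix.one_mul]
    ext i j : 1
    rw [Matrix.map_apply, Matrix.one_apply, Matrix.diagonal_apply]
    split_ifs
    · rw [(ST F).d_one, zero_smul]
    · exact map_zero _

theorem cc_one (k : ℕ) (e : Matrix κ κ (Jou F)) :
    phiB F (chw k e) = cc F k (1 : Matrix κ κ (TT F)) (e.map (inc F)) 1 :=
  phiB_cc (by rw [Matrix.one_mul, Matrix.mul_one]) k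

omit [Fintype κ] [DecidableEq κ] in
theorem typ_inc (e : Matrix κ κ (Jou F)) (c : ℤ) :
    Typ F (fun _ => c) (fun _ => c) (e.map (inc F)) := fun i j => by
  rw [sub_self]
  exact wt_inc _

theorem lift_mat (e : Matrix κ κ (Jou F)) : ∃ (a : ℕ) (r z : Matrix κ κ (RR N ℂ)),
    WHom (bw N) (fun _ => 0) (fun _ => (0, (a : ℤ))) r ∧
    WHom (bw N) (fun _ => 0) (fun _ => (0, (a : ℤ))) z ∧
    (r.map (q0 N)).map (tau F) = e.map (inc F) ∧ z.map (q0 N) = 1 - r.map (q0 N) := by
  choose a ha using fun ij : κ × κ => exists_bihom (e ij.1 ij.2)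
  choose r h1 h2 using fun i j => ha (i, j) _ (Finset.le_sup (f := a) (Finset.mem_univ _))
  have hf : q0 N (ff N ℂ) = 1 := Ideal.Quotient.eq.2 (Ideal.mem_span_singleton_self _)
  refine ⟨Finset.univ.sup a, Matrix.of r,
    Matrix.of fun i j => (if i = j then ff N ℂ ^ Finset.univ.sup a else 0) - r i j,
    fun i j => by simpa using h1 i j, fun i j => ?_, Matrix.ext fun i j => (h2 i j).symm, ?_⟩
  · rw [sub_zero, of_apply]
    refine IsWeightedHomogeneous.sub ?_ (h1 i j)
    split_ifs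
    · exact bw_ff_pow _
    · exact isWeightedHomogeneous_zero _ _ _
  · ext i j : 1
    rw [Matrix.map_apply, of_apply, map_sub, Matrix.sub_apply, Matrix.one_apply]
    split_ifs
    · rw [map_pow, hf, one_pow]
      rfl
    · rw [map_zero]
      rfl

/-- On projective space every Chern character is an integral multiple of a power of the hyperplane
class. -/
theorem rat_zero (hN : 0 < N) {e : Matrix κ κ (Jou (0 : Pol N ℂ))} (he : e * e = e) (k : ℕ) :
    ∃ n : ℤ, ExB (0 : Pol N ℂ) (phiB 0 (chw k e) - (n : ℂ) • hh 0 ^ k) := by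
  obtain ⟨a, r, z, -, h2, h3, h4⟩ := lift_mat e
  have h5 : (z.map (q0 N)).map (tau 0) = 1 - e.map (inc 0) := by
    rw [h4, Matrix.map_sub _ (map_sub _), h3, Matrix.map_one _ (map_zero _) (map_one _)]
  obtain ⟨γ, n, h6, h7⟩ := res_ker hN (isHomogeneous_zero _ _ 0) k h2
    (LinearMap.ker (1 - e.map (inc 0)).mulVecLin) fun v => by
      rw [LinearMap.mem_ker, mulVecLin_apply, ← h5]
      constructor
      · intro hv
        choose w hw using fun j => tau_surj (v j)
        obtain rfl : tau 0 ∘ w = v := funext hw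
        refine ⟨w, funext fun i => ?_, rfl⟩
        have h8 := (tau_ker _).1 ((RingHom.map_mulVec _ _ _ i).trans (congrFun hv i))
        rwa [map_zero, map_zero, zero_dvd_iff] at h8
      · rintro ⟨w, hw, rfl⟩
        funext i
        rw [← RingHom.map_mulVec, hw]
        exact map_zero _
  refine ⟨n, ?_⟩
  rw [cc_one, ← h7]
  refine idem_ch frame_one (by rw [← Matrix.map_mul, he]) (typ_inc e 0) (fun v => ?_) h6
  rw [LinearMap.mem_ker, mulVecLin_apply, sub_mulVec, one_mulVec, sub_eq_zero, eq_comm]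

theorem deg_alg {R T : Type} [CommRing R] [CommRing T] (τ : R →+* T) (hτ : Function.Surjective τ)
    {φ : R} (hφ : φ ∈ nonZeroDivisors R) (hker : ∀ r, τ r = 0 ↔ φ ∣ r) {e u : Matrix κ κ R}
    (h : (1 - e) * e = φ • u) : u * e = e * u ∧ ∀ v : κ ⊕ κ → T,
      fromBlocks (e.map τ) 0 (-(e.map τ * u.map τ)) (1 - e.map τ) *ᵥ v = v ↔
        ∃ w, fromCols (1 - e) (scalar κ φ) *ᵥ w = 0 ∧ τ ∘ w = v := by
  have hc : ∀ x : κ → R, φ • x = 0 → x = 0 := fun x hx =>
    funext fun i => (mem_nonZeroDivisors_iff_left.1 hφ) _ (congrFun hx i)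
  have h0 : τ φ = 0 := (hker φ).2 dvd_rfl
  have hm : ∀ (M : Matrix κ κ R) (x : κ → R), τ ∘ (M *ᵥ x) = M.map τ *ᵥ (τ ∘ x) := fun M x =>
    funext fun i => RingHom.map_mulVec τ M x i
  have hs : ∀ x : κ → R, τ ∘ (φ • x) = 0 := fun x => funext fun i => by simp [h0]
  have hadd : ∀ x y : κ → R, τ ∘ (x + y) = τ ∘ x + τ ∘ y := fun x y => funext fun i => by simp
  have hdiv : ∀ x : κ → R, τ ∘ x = 0 → ∃ y, x = φ • y := fun x hx => by
    choose y hy using fun i => (hker _).1 (congrFun hx i)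
    exact ⟨y, funext hy⟩
  have h1 : u * e = e * u := by
    have h2 : φ • (u * e - e * u) = 0 := by
      rw [smul_sub, ← Matrix.smul_mul, ← Matrix.mul_smul, ← h]
      noncomm_ring
    refine sub_eq_zero.1 (Matrix.ext fun i j => (mem_nonZeroDivisors_iff_left.1 hφ) _ ?_)
    exact congrFun (congrFun h2 i) j
  have h1' : e * (1 - e) = φ • u := by
    rw [← h]
    noncomm_ring
  have m1 : (1 - e).map τ = 1 - e.map τ := by
    rw [Matrix.map_sub _ (map_sub _), Matrix.map_one _ (map_zero _) (map_one _)]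
  have hE : e.map τ * e.map τ = e.map τ := by
    have h2 : (e * (1 - e)).map τ = 0 := by
      rw [h1']
      ext i j
      simp [h0]
    rw [Matrix.map_mul, m1, mul_sub, mul_one, sub_eq_zero] at h2
    exact h2.symm
  have hz : ∀ w : κ ⊕ κ → R, fromCols (1 - e) (scalar κ φ) *ᵥ w =
      (1 - e) *ᵥ (w ∘ inl) + φ • (w ∘ inr) := fun w => by
    rw [fromCols_mulVec]
    congr 1
    funext i
    simp [scalar_apply, mulVec_diagonal]
  have hQ : ∀ v : κ ⊕ κ → T,
      fromBlocks (e.map τ) 0 (-(e.map τ * u.map τ)) (1 - e.map τ) *ᵥ v = v ↔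
        (1 - e.map τ) *ᵥ (v ∘ inl) = 0 ∧ e.map τ *ᵥ (u.map τ *ᵥ (v ∘ inl) + v ∘ inr) = 0 := by
    intro v
    rw [fromBlocks_mulVec, zero_mulVec, add_zero, sub_mulVec, sub_mulVec, one_mulVec, one_mulVec,
      neg_mulVec, mulVec_add, mulVec_mulVec, sub_eq_zero]
    constructor
    · intro h2
      have h3 : _ = v ∘ inl := congrArg (· ∘ inl) h2
      have h4 : _ = v ∘ inr := congrArg (· ∘ inr) h2
      rw [Sum.elim_comp_inl] at h3
      rw [Sum.elim_comp_inr] at h4
      exact ⟨h3.symm, by linear_combination (exp := 1) -h4⟩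
    · rintro ⟨h3, h4⟩
      rw [← h3, show -((e.map τ * u.map τ) *ᵥ v ∘ inl) + (v ∘ inr - e.map τ *ᵥ v ∘ inr) = v ∘ inr by
        linear_combination (exp := 1) -h4, Sum.elim_comp_inl_inr]
  refine ⟨h1, fun v => (hQ v).trans ⟨fun ⟨h2, h3⟩ => ?_, ?_⟩⟩
  · choose w hw using fun j => hτ (v j)
    obtain rfl : τ ∘ w = v := funext hw
    obtain ⟨c, hc1⟩ := hdiv ((1 - e) *ᵥ (w ∘ inl)) (by rw [hm, m1]; exact h2)
    have h4 : e *ᵥ c = u *ᵥ (w ∘ inl) := by
      refine sub_eq_zero.1 (hc _ ?_)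
      rw [smul_sub, ← mulVec_smul, ← hc1, mulVec_mulVec, h1', smul_mulVec, sub_self]
    obtain ⟨c', hc2⟩ := hdiv (e *ᵥ (c + w ∘ inr)) (by
      rw [← h3, hm, hadd, mulVec_add, mulVec_add, ← hE, ← mulVec_mulVec, ← hm e c, h4, hm, hE]
      rfl)
    refine ⟨Sum.elim (w ∘ inl - φ • (c + w ∘ inr)) (w ∘ inr - φ • c'), ?_, ?_⟩
    · rw [hz, Sum.elim_comp_inl, Sum.elim_comp_inr, mulVec_sub, hc1, mulVec_smul, ← hc2,
        sub_mulVec, one_mulVec]
      module
    · funext i
      rcases i with i | i <;> simp [h0]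
  · rintro ⟨w, hw, rfl⟩
    rw [hz] at hw
    have h2 : u *ᵥ (w ∘ inl) + e *ᵥ (w ∘ inr) = 0 := by
      refine hc _ ?_
      rw [smul_add, ← smul_mulVec, ← h1', ← mulVec_smul, ← mulVec_mulVec, ← mulVec_add, hw,
        mulVec_zero]
    have h3 := congrArg (fun x => τ ∘ x) hw
    have h4 := congrArg (fun x => τ ∘ (e *ᵥ x)) h2
    simp only [hadd, hm, hs, add_zero, m1] at h3 h4
    refine ⟨h3.trans (funext fun _ => map_zero τ), ?_⟩
    rw [mulVec_add, mulVec_mulVec _ (e.map τ) (e.map τ), hE, ← mulVec_add] at h4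
    refine h4.trans ?_
    rw [show τ ∘ (0 : κ → R) = 0 from funext fun _ => map_zero τ, mulVec_zero]

theorem relJ_zero : relJ (0 : Pol N ℂ) = Ideal.span {ff N ℂ - 1} := by
  rw [relJ, map_zero, Ideal.span_insert_zero]
  rfl

theorem typ_blocks {α β α' β' : Type} {a : α → ℤ} {b : β → ℤ} {a' : α' → ℤ} {b' : β' → ℤ}
    {m₁ : Matrix α α' (TT F)} {m₂ : Matrix α β' (TT F)} {m₃ : Matrix β α' (TT F)}
    {m₄ : Matrix β β' (TT F)} (h₁ : Typ F a a' m₁) (h₂ : Typ F a b' m₂) (h₃ : Typ F b a' m₃)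
    (h₄ : Typ F b b' m₄) : Typ F (Sum.elim a b) (Sum.elim a' b') (fromBlocks m₁ m₂ m₃ m₄) := by
  rintro (i | i) (j | j)
  exacts [h₁ i j, h₂ i j, h₃ i j, h₄ i j]

theorem typ_zero {α β : Type} (a : α → ℤ) (b : β → ℤ) : Typ F a b 0 := fun _ _ => wt_zero _

theorem wt_neg {n : ℤ} {t : TT F} (h : Wt F n t) : Wt F n (-t) := by
  obtain ⟨r, hr, rfl⟩ := h
  exact ⟨-r, hr.neg, (map_neg _ _).symm⟩

/-- The degree of the Chern character of a vector bundle on a hypersurface is rational. -/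
theorem rat_hyp (hN : 0 < N) (hF0 : F ≠ 0) (hF : F.IsHomogeneous d) (hd : 1 ≤ d)
    {e : Matrix κ κ (Jou F)} (he : e * e = e) (i : ℕ) :
    ∃ r : ℚ, ExB F (hh F * phiB F (chw i e) - (r : ℂ) • hh F ^ (i + 1)) := by
  obtain ⟨a, r, z, h1, h2, h3, h4⟩ := lift_mat e
  have hE : e.map (inc F) * e.map (inc F) = e.map (inc F) := by rw [← Matrix.map_mul, he]
  obtain ⟨u, hu1, hu2⟩ : ∃ u : Matrix κ κ (RR N ℂ),
      (∀ i j, IsWeightedHomogeneous (vw N) (u i j) (-d)) ∧
      (1 - r.map (q0 N)) * r.map (q0 N) = q0 N (rename inl F) • u.map (q0 N) := by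
    have h5 : ∀ i j, ∃ u, IsWeightedHomogeneous (vw N) u (-d) ∧
        q0 N ((z * r) i j) = q0 N (rename inl F) * q0 N u := fun i j => by
      have h6 : ((z * r).map (q0 N)).map (tau F) = 0 := by
        rw [Matrix.map_mul, Matrix.map_mul, h4, Matrix.map_sub _ (map_sub _), h3,
          Matrix.map_one _ (map_zero _) (map_one _), sub_mul, one_mul, hE, sub_self]
      obtain ⟨u, hu⟩ := (tau_ker (F := F) (q0 N ((z * r) i j))).1 (congrFun (congrFun h6 i) j)
      obtain ⟨u, rfl⟩ := Ideal.Quotient.mk_surjective u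
      have h7 : IsWeightedHomogeneous (vw N) ((z * r) i j) 0 :=
        IsWeightedHomogeneous.sum _ _ _ fun l _ => by
          simpa using (bw_fst (h2 i l)).mul (bw_fst (h1 l j))
      have h8 : (z * r) i j - u * rename inl F ∈ relJ (0 : Pol N ℂ) := by
        rw [relJ_zero, ← Ideal.Quotient.eq, map_mul, mul_comm]
        exact hu
      have h9 := inj_stable (isHomogeneous_zero _ _ 0) h8 0
      rw [map_sub, h7.weightedHomogeneousComponent_same, inj_comp_mul (inj_rename hF), zero_sub,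
        relJ_zero, ← Ideal.Quotient.eq, map_mul, mul_comm] at h9
      exact ⟨_, weightedHomogeneousComponent_isWeightedHomogeneous _ _, h9⟩
    choose u hu1 hu2 using h5
    refine ⟨Matrix.of u, hu1, ?_⟩
    rw [← h4, ← Matrix.map_mul]
    exact Matrix.ext hu2
  obtain ⟨c1, c2⟩ := deg_alg (tau F) tau_surj (tau_reg hN hF0) tau_ker hu2
  have c3 := congrArg (fun m => m.map (tau F)) c1
  simp only [Matrix.map_mul, h3] at c2 c3
  have tu : Typ F (fun _ => 0 + (d : ℤ)) (fun _ => 0) ((u.map (q0 N)).map (tau F)) := fun i j =>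
    ⟨u i j, by simpa using hu1 i j, rfl⟩
  have tE := typ_inc e
  have hX := fun k => cc_one k e
  generalize (u.map (q0 N)).map (tau F) = w at c2 c3 tu
  generalize e.map (inc F) = E at hE c2 c3 tE hX
  have t1 : ∀ c, Typ F (fun _ => c) (fun _ => c) (1 - E) := fun c i j => by
    rw [Matrix.sub_apply, sub_eq_add_neg _ (E i j)]
    refine Wt.add ?_ (wt_neg (tE c i j))
    rw [sub_self]
    exact frame_one.wU i j
  have hz : WHom (bw N) (fun _ => 0) (Sum.elim (fun _ => (0, (a : ℤ))) fun _ => ((d : ℤ), 0))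
      (fromCols z (scalar κ (rename inl F))) := by
    rintro i (j | j)
    · exact h2 i j
    · rw [fromCols_apply_inr, scalar_apply, diagonal_apply]
      split_ifs
      · simpa using bw_rename hF
      · exact isWeightedHomogeneous_zero _ _ _
  have hz' : (fromCols z (scalar κ (rename inl F))).map (q0 N) =
      fromCols (1 - r.map (q0 N)) (scalar κ (q0 N (rename inl F))) := by
    rw [fromCols_map, h4, scalar_apply, scalar_apply, diagonal_map (map_zero _)]
  have hν : (fun j => (Sum.elim (fun _ : κ => ((0 : ℤ), (a : ℤ))) (fun _ : κ => ((d : ℤ), 0)) j).1) =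
      Sum.elim (fun _ => 0) fun _ => 0 + (d : ℤ) := by
    funext j
    rcases j with j | j <;> simp
  obtain ⟨κ₁, _, _, U₁, V₁, hf₁⟩ := exists_frame F fun _ : κ => 0 + (d : ℤ)
  obtain ⟨κ₂, _, _, U, V, hf⟩ :=
    exists_frame F (Sum.elim (fun _ : κ => 0) fun _ : κ => 0 + (d : ℤ))
  have a1 : E * (1 - E) = 0 := by rw [mul_sub, mul_one, hE, sub_self]
  have a2 : (1 - E) * E = 0 := by rw [sub_mul, one_mul, hE, sub_self]
  have a3 : (1 - E) * (1 - E) = 1 - E := by rw [sub_mul, one_mul, a1, sub_zero]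
  have a4 : E * w * E = E * w := by rw [mul_assoc, c3, ← mul_assoc, hE]
  have a5 : (1 - E) * (E * w) = 0 := by rw [← mul_assoc, a2, zero_mul]
  have tQ := typ_blocks (tE 0) (typ_zero _ _)
    (show Typ F (fun _ => 0 + (d : ℤ)) (fun _ => 0) (-(E * w)) from fun i j =>
      wt_neg (((tE _).mul tu) i j)) (t1 (0 + d))
  have tA := typ_blocks (tE 0) (typ_zero _ fun _ : κ => 0 + (d : ℤ))
    (typ_zero (fun _ : κ => 0 + (d : ℤ)) _) (typ_zero _ _)
  have tB := typ_blocks (typ_zero (fun _ : κ => 0) fun _ : κ => 0) (typ_zero _ _) (typ_zero _ _)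
    (t1 (0 + d))
  have tQ0 := typ_blocks (tE 0) (typ_zero _ _) (typ_zero _ _) (t1 (0 + d))
  have b1 : fromBlocks E 0 (-(E * w)) (1 - E) * fromBlocks E 0 0 (1 - E) =
      fromBlocks E 0 (-(E * w)) (1 - E) := by
    rw [fromBlocks_multiply]
    simp [hE, a3, a4]
  have b2 : fromBlocks E 0 0 (1 - E) * fromBlocks E 0 (-(E * w)) (1 - E) =
      fromBlocks E 0 0 (1 - E) := by
    rw [fromBlocks_multiply]
    simp [hE, a3, a5]
  have b3 : fromBlocks E 0 (-(E * w)) (1 - E) * fromBlocks E 0 (-(E * w)) (1 - E) =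
      fromBlocks E 0 (-(E * w)) (1 - E) := by
    rw [fromBlocks_multiply]
    simp [hE, a3, a4, a5]
  have b4 : fromBlocks E 0 0 (1 - E) * fromBlocks E 0 0 (1 - E) = fromBlocks E 0 0 (1 - E) := by
    rw [fromBlocks_multiply]
    simp [hE, a3]
  simp only [hX]
  refine rat_rec (X := fun k => cc F k (1 : Matrix κ κ (TT F)) E 1) (c := d) (by omega) (fun m => ?_) i
  obtain ⟨γ, n, h6, h7⟩ := res_ker hN hF m hz
    (LinearMap.ker (1 - fromBlocks E 0 (-(E * w)) (1 - E)).mulVecLin) fun v => by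
      rw [hz', ← c2, LinearMap.mem_ker, mulVecLin_apply, sub_mulVec, one_mulVec, sub_eq_zero,
        eq_comm]
  rw [hν] at h6
  have s1 := idem_ch hf b3 tQ (fun v => by
    rw [LinearMap.mem_ker, mulVecLin_apply, sub_mulVec, one_mulVec, sub_eq_zero, eq_comm]) h6
  have s2 := hf.uv hf tQ tQ0 (by rw [b1, b3]) (by rw [b2, b4]) m
  have s3 := hf.add tA tB (by rw [fromBlocks_multiply]; simp [hE])
    (by rw [fromBlocks_multiply]; simp [a3]) (by rw [fromBlocks_multiply]; simp)
    (by rw [fromBlocks_multiply]; simp) m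
  have s4 := hf.uv frame_one (a := fromRows E 0) (b := fromCols E 0)
    (by rintro (i | i) j; exacts [tE 0 i j, wt_zero _])
    (by rintro i (j | j); exacts [tE 0 i j, wt_zero _])
    (by rw [fromRows_mul_fromCols, fromBlocks_multiply]; simp [hE])
    (by rw [fromCols_mul_fromRows]; simp [hE]) m
  have s5 := hf.uv hf₁ (a := fromRows 0 (1 - E)) (b := fromCols 0 (1 - E))
    (by rintro (i | i) j; exacts [wt_zero _, t1 _ i j])
    (by rintro i (j | j); exacts [wt_zero _, t1 _ i j])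
    (by rw [fromRows_mul_fromCols, fromBlocks_multiply]; simp [a3])
    (by rw [fromCols_mul_fromRows]; simp [a3]) m
  have s6 := hf₁.add (tE _) (t1 _) hE a3 a1 a2 m
  have s7 := hf₁.diag (fun _ => True) m
  rw [h7] at s1
  rw [b1, b2] at s2
  rw [fromBlocks_add] at s3
  rw [fromRows_mul_fromCols, fromCols_mul_fromRows] at s4 s5
  simp only [if_true, diagonal_one] at s7
  simp only [add_zero, zero_add, Matrix.mul_zero, Matrix.zero_mul, hE, a3] at s3 s4 s5
  rw [add_sub_cancel, s7, frame_one.shift hf₁ hE] at s6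
  refine ⟨n - ∑ _i : κ, (0 + (d : ℤ)) ^ m, ?_⟩
  convert ((((s1.sub s2).sub s3).sub s4).sub s5).add s6 using 1
  rw [Int.cast_sub, sub_smul]
  abel

end Pool.Agent.Lib.MP_e9c0f3_ag.LF
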