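import Pool.Agent.Lib.MP_e9c0f3_ag.LF.Syz
import Pool.Agent.Lib.MP_e9c0f3_ag.DR.ShB2

/-! Bihomogeneous matrices and exactness on the locus `∑ x y = 1`. -/

open MvPolynomial Sum Matrix

namespace Pool.Agent.Lib.MP_e9c0f3_ag.LF

open DR

variable {N : ℕ}

/-- The weight and the degree in `y`. -/
def bw (N : ℕ) : Fin N ⊕ Fin N → ℤ × ℤ := Sum.elim (fun _ => (1, 0)) fun _ => (-1, 1)

/-- The degree in `y`. -/
def yw (N : ℕ) : Fin N ⊕ Fin N → ℤ := Sum.elim (fun _ => 0) fun _ => 1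

theorem bw_weight (m : Fin N ⊕ Fin N →₀ ℕ) :
    Finsupp.weight (bw N) m = (Finsupp.weight (vw N) m, Finsupp.weight (yw N) m) := by
  induction m using Finsupp.induction_linear with
  | zero => rw [map_zero, map_zero, map_zero]; rfl
  | add m m' h h' => rw [map_add, map_add, map_add, h, h', Prod.mk_add_mk]
  | single s n => rcases s with s | s <;> simp [Finsupp.weight_single, bw, vw, yw]

theorem bw_pos (m : Fin N ⊕ Fin N →₀ ℕ) (h : Finsupp.weight (bw N) m = 0) : m = 0 := by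
  rw [bw_weight, Prod.mk_eq_zero, Finsupp.weight_apply, Finsupp.weight_apply,
    Finsupp.sum_fintype _ _ (by simp), Finsupp.sum_fintype _ _ (by simp), Fintype.sum_sum_type,
    Fintype.sum_sum_type] at h
  simp only [vw, yw, Sum.elim_inl, Sum.elim_inr, smul_zero, Finset.sum_const_zero, zero_add,
    nsmul_eq_mul, mul_one, mul_neg, Finset.sum_neg_distrib] at h
  obtain ⟨h1, h2⟩ := h
  rw [h2, neg_zero, add_zero] at h1
  rw [Finset.sum_eq_zero_iff_of_nonneg fun _ _ => Int.natCast_nonneg _] at h1 h2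
  ext s
  rcases s with s | s
  · exact_mod_cast h1 s (Finset.mem_univ _)
  · exact_mod_cast h2 s (Finset.mem_univ _)

theorem bw_fst {r : RR N ℂ} {g : ℤ × ℤ} (h : IsWeightedHomogeneous (bw N) r g) :
    IsWeightedHomogeneous (vw N) r g.1 := fun m hm => by
  rw [← h hm, bw_weight]

theorem bw_snd {r : RR N ℂ} {g : ℤ × ℤ} (h : IsWeightedHomogeneous (bw N) r g) :
    IsWeightedHomogeneous (yw N) r g.2 := fun m hm => by
  rw [← h hm, bw_weight]

theorem bw_ff : IsWeightedHomogeneous (bw N) (ff N ℂ) (0, 1) := by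
  refine IsWeightedHomogeneous.sum _ _ _ fun i _ => ?_
  have h := (isWeightedHomogeneous_X ℂ (bw N) (inl i)).mul (isWeightedHomogeneous_X ℂ (bw N) (inr i))
  simpa [bw] using h

theorem bw_ff_pow (n : ℕ) : IsWeightedHomogeneous (bw N) (ff N ℂ ^ n) (0, (n : ℤ)) := by
  simpa using (bw_ff (N := N)).pow n

theorem bw_rename {P : Pol N ℂ} {d : ℕ} (h : P.IsHomogeneous d) :
    IsWeightedHomogeneous (bw N) (rename inl P : RR N ℂ) ((d : ℤ), 0) := by
  rw [← P.support_sum_monomial_coeff, map_sum]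
  refine IsWeightedHomogeneous.sum _ _ _ fun m hm => ?_
  rw [rename_monomial]
  refine isWeightedHomogeneous_monomial _ _ _ ?_
  have h1 : m.degree = d := by
    rw [Finsupp.degree_eq_weight_one]
    exact h (mem_support_iff.1 hm)
  rw [← h1]
  clear h1 hm
  induction m using Finsupp.induction_linear with
  | zero => rw [Finsupp.mapDomain_zero, map_zero, map_zero]; rfl
  | add m m' h h' => rw [Finsupp.mapDomain_add, map_add, map_add, h, h', Prod.mk_add_mk]; simp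
  | single s n => simp [Finsupp.weight_single, bw]

/-- Functions on the torsor have bihomogeneous representatives. -/
theorem exists_bihom {F : Pol N ℂ} (b : Jou F) : ∃ a₀ : ℕ, ∀ a, a₀ ≤ a → ∃ r : RR N ℂ,
    IsWeightedHomogeneous (bw N) r (0, (a : ℤ)) ∧ inc F b = Ideal.Quotient.mk _ r := by
  have hf : Ideal.Quotient.mk (relJ F) (ff N ℂ) = 1 :=
    (Ideal.Quotient.mk_eq_one_iff_sub_mem _).2 (Ideal.subset_span (Or.inr rfl))
  obtain ⟨b, hb⟩ := b
  change ∃ a₀ : ℕ, ∀ a, a₀ ≤ a → ∃ r : RR N ℂ,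
    IsWeightedHomogeneous (bw N) r (0, (a : ℤ)) ∧ b = Ideal.Quotient.mk _ r
  induction hb using Algebra.adjoin_induction with
  | mem x hx =>
    obtain ⟨ij, rfl⟩ := hx
    refine ⟨1, fun a ha => ⟨X (inl ij.1) * X (inr ij.2) * ff N ℂ ^ (a - 1), ?_, ?_⟩⟩
    · have h := ((isWeightedHomogeneous_X ℂ (bw N) (inl ij.1)).mul
        (isWeightedHomogeneous_X ℂ (bw N) (inr ij.2))).mul (bw_ff_pow (a - 1))
      have e : bw N (inl ij.1) + bw N (inr ij.2) + (0, ((a - 1 : ℕ) : ℤ)) = (0, (a : ℤ)) := by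
        simp only [bw, Sum.elim_inl, Sum.elim_inr, Prod.mk_add_mk, Prod.mk.injEq]
        omega
      rwa [e] at h
    · rw [map_mul _ _ (ff N ℂ ^ (a - 1)), map_pow, hf, one_pow, mul_one]
      rfl
  | algebraMap c =>
    refine ⟨0, fun a _ => ⟨C c * ff N ℂ ^ a, ?_, ?_⟩⟩
    · simpa using (isWeightedHomogeneous_C (bw N) c).mul (bw_ff_pow a)
    · rw [map_mul, map_pow, hf, one_pow, mul_one]
      rfl
  | add x y _ _ hx hy =>
    obtain ⟨a, ha⟩ := hx
    obtain ⟨b, hb⟩ := hy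
    refine ⟨max a b, fun c hc => ?_⟩
    obtain ⟨r, h1, rfl⟩ := ha c (le_of_max_le_left hc)
    obtain ⟨s, h2, rfl⟩ := hb c (le_of_max_le_right hc)
    exact ⟨r + s, h1.add h2, (map_add _ _ _).symm⟩
  | mul x y _ _ hx hy =>
    obtain ⟨a, ha⟩ := hx
    obtain ⟨b, hb⟩ := hy
    refine ⟨a + b, fun c hc => ?_⟩
    obtain ⟨r, h1, rfl⟩ := ha a le_rfl
    obtain ⟨s, h2, rfl⟩ := hb (c - a) (by omega)
    refine ⟨r * s, ?_, (map_mul _ _ _).symm⟩
    convert h1.mul h2 using 1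
    simp only [Prod.mk_add_mk, Prod.mk.injEq]
    omega

/-- Representatives for which homogeneous relations modulo `∑ x y - 1` hold exactly. -/
theorem deh_key (hN : 0 < N) {β : Type} [Fintype β] (b : β → ℤ) (v : β → RR N ℂ) :
    ∃ v' : β → RR N ℂ, (∀ i, v i - v' i ∈ Ideal.span {ff N ℂ - 1}) ∧
      ∀ (c : β → RR N ℂ) (n : ℤ), (∀ j, IsWeightedHomogeneous (yw N) (c j) (b j - n)) →
        ∑ j, c j * v j ∈ Ideal.span {ff N ℂ - 1} → ∑ j, c j * v' j = 0 := by
  let S := Localization.Away (ff N ℂ)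
  let a := algebraMap (RR N ℂ) S
  let t : S := IsLocalization.Away.invSelf (ff N ℂ)
  have ht : a (ff N ℂ) * t = 1 := IsLocalization.Away.mul_invSelf _
  let u : Sˣ := ⟨t, a (ff N ℂ), (mul_comm _ _).trans ht, ht⟩
  let ψ : RR N ℂ →+* S :=
    eval₂Hom (a.comp C) (Sum.elim (fun i => a (X (inl i))) fun i => a (X (inr i)) * t)
  have hf : Ideal.Quotient.mk (Ideal.span {ff N ℂ - 1}) (ff N ℂ) = 1 :=
    Ideal.Quotient.eq.2 (Ideal.mem_span_singleton_self _)
  let χ : S →+* RR N ℂ ⧸ Ideal.span {ff N ℂ - 1} :=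
    IsLocalization.Away.lift (ff N ℂ) (g := Ideal.Quotient.mk _) (hf ▸ isUnit_one)
  have h1 : ∀ r, χ (a r) = Ideal.Quotient.mk _ r := fun r => IsLocalization.Away.lift_eq _ _ _
  have h2 : χ t = 1 := by
    have h := congrArg χ ht
    rwa [map_mul, h1, hf, one_mul, map_one] at h
  have h2' : ∀ n : ℤ, χ (u ^ n : Sˣ) = 1 := fun n => by
    have h : Units.map χ.toMonoidHom u = 1 := Units.ext h2
    have h' := congrArg Units.val (map_zpow (Units.map χ.toMonoidHom) u n)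
    rwa [h, _root_.one_zpow] at h'
  have hC : ∀ c, ψ (C c) = a (C c) := fun c => eval₂Hom_C _ _ _
  have hl : ∀ i, ψ (X (inl i)) = a (X (inl i)) := fun i => eval₂Hom_X' _ _ _
  have hr : ∀ i, ψ (X (inr i)) = a (X (inr i)) * t := fun i => eval₂Hom_X' _ _ _
  have h3 : ∀ r, χ (ψ r) = Ideal.Quotient.mk _ r := fun r => by
    induction r using MvPolynomial.induction_on with
    | C c => rw [hC, h1]
    | add p q hp hq => rw [map_add, map_add, hp, hq, map_add]
    | mul_X p i hp =>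
      rw [map_mul, map_mul, hp, map_mul]
      rcases i with i | i
      · rw [hl, h1]
      · rw [hr, map_mul, h1, h2, mul_one]
  have h4' : ∀ m : Fin N ⊕ Fin N →₀ ℕ, ψ (monomial m 1) =
      a (monomial m 1) * (u ^ Finsupp.weight (yw N) m : Sˣ) := fun m => by
    induction m using Finsupp.induction_linear with
    | zero => simp
    | add m m' h h' =>
      rw [← one_mul (1 : ℂ), ← monomial_mul, map_mul, map_mul, h, h', map_add, _root_.zpow_add,
        Units.val_mul]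
      ring
    | single s n =>
      rw [← X_pow_eq_monomial, map_pow, map_pow, Finsupp.weight_single]
      rcases s with s | s
      · simp [hl, yw]
      · simp [hr, yw, mul_pow, u]
  have h4 : ∀ (p : RR N ℂ) (n : ℤ), IsWeightedHomogeneous (yw N) p n →
      ψ p = a p * (u ^ n : Sˣ) := fun p n hp => by
    rw [p.as_sum, map_sum, map_sum, Finset.sum_mul]
    refine Finset.sum_congr rfl fun m hm => ?_
    rw [← mul_one (coeff m p), ← C_mul_monomial, map_mul, map_mul, hC, h4',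
      hp (mem_support_iff.1 hm), mul_assoc]
  have h5 : ψ (ff N ℂ - 1) = 0 := by
    rw [map_sub, map_one, h4 _ _ (bw_snd bw_ff), zpow_one, sub_eq_zero]
    exact ht
  obtain ⟨⟨_, n, rfl⟩, hb⟩ := IsLocalization.exist_integer_multiples_of_finite
    (Submonoid.powers (ff N ℂ)) fun i => (u ^ b i : Sˣ) * ψ (v i)
  choose v' hv' using hb
  have h6 : ∀ i, a (v' i) = a (ff N ℂ ^ n) * ((u ^ b i : Sˣ) * ψ (v i)) := fun i =>
    (hv' i).trans (Algebra.smul_def _ _)
  refine ⟨v', fun i => Ideal.Quotient.eq.1 ?_, fun c m hm hc => ?_⟩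
  · rw [← h1 (v' i), h6, map_mul, map_mul, h1, h3, h2', map_pow, hf, one_pow, one_mul, one_mul]
  · obtain ⟨s, hs⟩ := Ideal.mem_span_singleton'.1 hc
    have h7 := congrArg ψ hs
    rw [map_mul, h5, mul_zero, map_sum] at h7
    refine IsLocalization.injective S (M := Submonoid.powers (ff N ℂ))
      (Submonoid.powers_le.2 (ff_reg hN)) ?_
    change a _ = a 0
    rw [map_zero, map_sum, ← mul_zero (a (ff N ℂ ^ n) * (u ^ m : Sˣ)), h7, Finset.mul_sum]
    refine Finset.sum_congr rfl fun j _ => ?_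
    have h8 : ((u ^ b j : Sˣ) : S) = (u ^ m : Sˣ) * (u ^ (b j - m) : Sˣ) := by
      rw [← Units.val_mul, ← _root_.zpow_add, add_sub_cancel]
    rw [map_mul, map_mul ψ, h4 _ _ (hm j), h6, h8]
    ring

/-- The ring of the locus `∑ x y = 1`. -/
abbrev R0 (N : ℕ) : Type := RR N ℂ ⧸ Ideal.span {ff N ℂ - 1}

/-- The quotient map. -/
noncomputable abbrev q0 (N : ℕ) : RR N ℂ →+* R0 N := Ideal.Quotient.mk _

theorem deh_exact (hN : 0 < N) {α β ι : Type} [Fintype β] [Fintype ι] {a : α → ℤ × ℤ}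
    {b : β → ℤ × ℤ} {g : ι → ℤ × ℤ} {z : Matrix α β (RR N ℂ)} {y : Matrix β ι (RR N ℂ)}
    {L : Matrix ι ι (RR N ℂ)} (hz : WHom (bw N) a b z) (hy : WHom (bw N) b g y)
    (hL : WHom (bw N) g g L)
    (h : ∀ v u, z *ᵥ v = 0 → y *ᵥ u = 0 → L *ᵥ u = 0 → ∃ t, y *ᵥ t = v ∧ L *ᵥ t = u)
    (v : β → R0 N) (u : ι → R0 N) (h1 : z.map (q0 N) *ᵥ v = 0) (h2 : y.map (q0 N) *ᵥ u = 0)
    (h3 : L.map (q0 N) *ᵥ u = 0) : ∃ t, y.map (q0 N) *ᵥ t = v ∧ L.map (q0 N) *ᵥ t = u := by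
  have key : ∀ {γ : Type} [Fintype γ] (c : γ → ℤ × ℤ) (w : γ → R0 N), ∃ w' : γ → RR N ℂ,
      q0 N ∘ w' = w ∧ ∀ {γ' : Type} (c' : γ' → ℤ × ℤ) (M : Matrix γ' γ (RR N ℂ)),
        WHom (bw N) c' c M → M.map (q0 N) *ᵥ w = 0 → M *ᵥ w' = 0 := by
    intro γ _ c w
    choose w₀ hw₀ using fun j => Ideal.Quotient.mk_surjective (w j)
    obtain ⟨w', e1, e2⟩ := deh_key hN (fun j => (c j).2) w₀
    refine ⟨w', funext fun j => (Ideal.Quotient.eq.2 (e1 j)).symm.trans (hw₀ j),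
      fun c' M hM h0 => funext fun i => e2 (M i) (c' i).2 (fun j => bw_snd (hM i j)) ?_⟩
    rw [← Ideal.Quotient.eq_zero_iff_mem, map_sum]
    refine Eq.trans (Finset.sum_congr rfl fun j _ => ?_) (congrFun h0 i)
    rw [map_mul, hw₀]
    rfl
  obtain ⟨v', rfl, e1⟩ := key b v
  obtain ⟨u', rfl, e2⟩ := key g u
  obtain ⟨t, rfl, rfl⟩ := h v' u' (e1 a z hz h1) (e2 b y hy h2) (e2 g L hL h3)
  exact ⟨q0 N ∘ t, funext fun i => (RingHom.map_mulVec _ _ _ i).symm,
    funext fun i => (RingHom.map_mulVec _ _ _ i).symm⟩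

/-- Exactness modulo a regular element. -/
theorem mod_exact {R T α β ι : Type} [CommRing R] [CommRing T] [Fintype β] [Fintype ι]
    (τ : R →+* T) (hτ : Function.Surjective τ) {φ : R} (hφ : φ = 0 ∨ φ ∈ nonZeroDivisors R)
    (hker : ∀ r, τ r = 0 ↔ φ ∣ r) {z : Matrix α β R} {y : Matrix β ι R} {L : Matrix ι ι R}
    (zy : z * y = 0) (yL : y * L = 0) (LL : L * L = 0)
    (h : ∀ v u, z *ᵥ v = 0 → y *ᵥ u = 0 → L *ᵥ u = 0 → ∃ t, y *ᵥ t = v ∧ L *ᵥ t = u)
    (u : ι → T) (h2 : y.map τ *ᵥ u = 0) (h3 : L.map τ *ᵥ u = 0) : ∃ t, L.map τ *ᵥ t = u := by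
  choose w hw using fun j => hτ (u j)
  obtain rfl : τ ∘ w = u := funext hw
  have e2 : ∀ i, φ ∣ (y *ᵥ w) i := fun i =>
    (hker _).1 ((RingHom.map_mulVec τ y w i).trans (congrFun h2 i))
  have e3 : ∀ i, φ ∣ (L *ᵥ w) i := fun i =>
    (hker _).1 ((RingHom.map_mulVec τ L w i).trans (congrFun h3 i))
  choose a ha using e2
  choose b hb using e3
  have ha' : y *ᵥ w = φ • a := funext ha
  have hb' : L *ᵥ w = φ • b := funext hb
  obtain ⟨s, hs1, hs2⟩ : ∃ s, y *ᵥ (w - φ • s) = 0 ∧ L *ᵥ (w - φ • s) = 0 := by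
    rcases hφ with rfl | hφ
    · exact ⟨0, by simpa using ha', by simpa using hb'⟩
    · have hc : ∀ {γ : Type} (x : γ → R), φ • x = 0 → x = 0 := fun x hx =>
        funext fun i => (mem_nonZeroDivisors_iff_left.1 hφ) _ (congrFun hx i)
      obtain ⟨s, rfl, rfl⟩ := h a b
        (hc _ (by rw [← mulVec_smul, ← ha', mulVec_mulVec, zy, zero_mulVec]))
        (hc _ (by rw [← mulVec_smul, ← hb', mulVec_mulVec, yL, zero_mulVec]))
        (hc _ (by rw [← mulVec_smul, ← hb', mulVec_mulVec, LL, zero_mulVec]))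
      exact ⟨s, by rw [mulVec_sub, mulVec_smul, ha', sub_self],
        by rw [mulVec_sub, mulVec_smul, hb', sub_self]⟩
  obtain ⟨t, -, ht⟩ := h 0 _ (mulVec_zero _) hs1 hs2
  refine ⟨τ ∘ t, funext fun i => (RingHom.map_mulVec τ L t i).symm.trans ?_⟩
  rw [ht, Pi.sub_apply, map_sub, Pi.smul_apply, smul_eq_mul, map_mul, (hker φ).2 dvd_rfl, zero_mul,
    sub_zero]
  rfl

end Pool.Agent.Lib.MP_e9c0f3_ag.LF
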