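import Pool.Agent.Lib.MP_e9c0f3_ag.DR.Top
import Pool.Agent.Lib.MP_e9c0f3_ag.DR.QQ
import Pool.Agent.Lib.MP_e9c0f3_ag.H48.Defs

/-! The Koszul matrix factorisation of `∑ fᵢ gᵢ` and its Chern form. -/

open MvPolynomial Matrix

namespace Pool.Agent.Lib.MP_e9c0f3_ag.LF

open DR

section
variable {E : Type} [Ring E]

theorem kos_pow {A B : E} (h : A * B = B * A) (h3 : B * B * B = 0) (k : ℕ) :
    (A + B) ^ (k + 2) = A ^ (k + 2) + (k + 2) • (A ^ (k + 1) * B) +
      (k + 2).choose 2 • (A ^ k * (B * B)) := by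
  induction k with
  | zero =>
    simp only [zero_add, pow_two, pow_one, pow_zero, one_mul, Nat.choose_self, one_smul, two_smul,
      add_mul, mul_add, h]
    abel
  | succ k ih =>
    have e1 : A ^ (k + 1) * B * A = A ^ (k + 2) * B := by
      rw [mul_assoc, ← h, ← mul_assoc, ← pow_succ]
    have e2 : A ^ k * (B * B) * A = A ^ (k + 1) * (B * B) := by
      rw [mul_assoc, mul_assoc B, ← h, ← mul_assoc B, ← h, pow_succ]
      simp only [mul_assoc]
    have e3 : A ^ k * (B * B) * B = 0 := by rw [mul_assoc, h3, mul_zero]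
    have e4 : (k + 1 + 2).choose 2 = (k + 2).choose 2 + (k + 2) := by
      rw [show k + 1 + 2 = (k + 2) + 1 by omega, Nat.choose_succ_succ' (k + 2) 1,
        Nat.choose_one_right, add_comm]
    have e5 : A ^ (k + 1 + 2) = A ^ (k + 2) * A := pow_succ A (k + 2)
    have e6 : (A + B) ^ (k + 1 + 2) = (A + B) ^ (k + 2) * (A + B) := pow_succ _ (k + 2)
    have e7 : A ^ (k + 1 + 1) = A ^ (k + 2) := rfl
    rw [e4, e5, e6, e7, ih]
    simp only [add_mul, mul_add, smul_mul_assoc, e1, e2, e3, smul_zero, mul_assoc _ B B]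
    module

theorem kos_step {ι : Type} [Fintype ι] [DecidableEq ι] (par : ι → ℕ) (M : Matrix ι ι E) {a b : E}
    (ha : ∀ i j, a * M i j = -(M i j * a)) (hb : ∀ i j, b * M i j = -(M i j * b))
    (hab : b * a = -(a * b)) (haa : a * a = 0) (hbb : b * b = 0) {k : ℕ} (hk : Even k) :
    ∑ i, (-1) ^ Sum.elim par (fun i => par i + 1) i *
        (fromBlocks M (scalar ι a) (scalar ι b) (-M) ^ (k + 2)) i i =
      (2 * (k + 2).choose 2) • ((∑ i, (-1) ^ par i * (M ^ k) i i) * (a * b)) := by
  have h0 : fromBlocks M (scalar ι a) (scalar ι b) (-M) =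
      fromBlocks M 0 0 (-M) + fromBlocks 0 (scalar ι a) (scalar ι b) 0 := by
    rw [fromBlocks_add]
    simp
  have h1 : ∀ {c : E}, (∀ i j, c * M i j = -(M i j * c)) →
      scalar ι c * M = -(M * scalar ι c) := fun hc => by
    ext i j
    rw [scalar_apply, diagonal_mul, Matrix.neg_apply, mul_diagonal, hc]
  have h2 : fromBlocks (0 : Matrix ι ι E) (scalar ι a) (scalar ι b) 0 *
      fromBlocks 0 (scalar ι a) (scalar ι b) 0 =
      fromBlocks (scalar ι (a * b)) 0 0 (scalar ι (b * a)) := by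
    rw [fromBlocks_multiply]
    simp only [Matrix.zero_mul, Matrix.mul_zero, add_zero, zero_add, map_mul]
  have hc : fromBlocks M 0 0 (-M) * fromBlocks 0 (scalar ι a) (scalar ι b) 0 =
      fromBlocks 0 (scalar ι a) (scalar ι b) 0 * fromBlocks M 0 0 (-M) := by
    rw [fromBlocks_multiply, fromBlocks_multiply]
    simp only [Matrix.zero_mul, Matrix.mul_zero, add_zero, zero_add, Matrix.mul_neg,
      Matrix.neg_mul, h1 ha, h1 hb, neg_neg, neg_zero]
  have h3 : fromBlocks (0 : Matrix ι ι E) (scalar ι a) (scalar ι b) 0 *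
      fromBlocks 0 (scalar ι a) (scalar ι b) 0 * fromBlocks 0 (scalar ι a) (scalar ι b) 0 = 0 := by
    have e1 : a * b * a = 0 := by rw [mul_assoc, hab, mul_neg, ← mul_assoc, haa, zero_mul, neg_zero]
    have e2 : b * a * b = 0 := by rw [hab, neg_mul, mul_assoc, hbb, mul_zero, neg_zero]
    rw [h2, fromBlocks_multiply]
    simp only [Matrix.zero_mul, Matrix.mul_zero, add_zero, ← map_mul, e1, e2, map_zero,
      fromBlocks_zero]
  rw [h0, kos_pow hc h3, h2, fromBlocks_diagonal_pow, fromBlocks_diagonal_pow,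
    fromBlocks_diagonal_pow, fromBlocks_multiply, fromBlocks_multiply, hk.neg_pow,
    (hk.add even_two).neg_pow, Fintype.sum_sum_type, ← Finset.sum_add_distrib, Finset.sum_mul,
    Finset.smul_sum]
  refine Finset.sum_congr rfl fun i _ => ?_
  simp only [Matrix.zero_mul, Matrix.mul_zero, add_zero, zero_add, Matrix.add_apply,
    Matrix.smul_apply, fromBlocks_apply₁₁, fromBlocks_apply₂₂, Matrix.zero_apply, smul_zero,
    Sum.elim_inl, Sum.elim_inr, scalar_apply, mul_diagonal, hab, pow_succ (-1 : E), mul_add,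
    mul_smul_comm, mul_neg, neg_mul, mul_one, neg_neg, mul_assoc, two_mul, add_smul]
  abel

theorem kos_drop {x : E} {m : ℕ} (T T' : Fin m → E) (h1 : ∀ i, x * T i = x * T' i)
    (h2 : ∀ i, x * T' i = -(T' i * x)) : x * (List.ofFn T).prod = x * (List.ofFn T').prod := by
  induction m with
  | zero => simp
  | succ m ih =>
    rw [List.ofFn_succ, List.ofFn_succ, List.prod_cons, List.prod_cons, ← mul_assoc, ← mul_assoc,
      h1, h2, neg_mul, neg_mul, mul_assoc, mul_assoc,
      ih (fun i => T i.succ) (fun i => T' i.succ) (fun i => h1 _) fun i => h2 _]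

theorem kos_move {x : E} {m : ℕ} (T : Fin m → E) (h : ∀ i, T i * x = -(x * T i)) :
    (List.ofFn T).prod * x = (-1) ^ m * (x * (List.ofFn T).prod) := by
  induction m with
  | zero => simp
  | succ m ih =>
    rw [List.ofFn_succ, List.prod_cons, mul_assoc, ih (fun i => T i.succ) fun i => h _]
    rcases neg_one_pow_eq_or E m with h1 | h1 <;>
      simp [pow_succ, h1, ← mul_assoc, h]

theorem kos_pairs {m : ℕ} (a b : Fin m → E) (h : ∀ i j, b i * a j = -(a j * b i)) :
    ∃ k : ℕ, (List.ofFn fun i => a i * b i).prod =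
      (-1) ^ k * ((List.ofFn a).prod * (List.ofFn b).prod) := by
  induction m with
  | zero => exact ⟨0, by simp⟩
  | succ m ih =>
    obtain ⟨k, hk⟩ := ih (fun i => a i.castSucc) (fun i => b i.castSucc) fun i j => h _ _
    refine ⟨k + m, ?_⟩
    rw [List.ofFn_succ', List.ofFn_succ' a, List.ofFn_succ' b, List.prod_concat, List.prod_concat,
      List.prod_concat, hk, pow_add, mul_assoc, mul_assoc, ← mul_assoc _ (a _),
      kos_move (x := a (Fin.last m)) (fun i => b i.castSucc) fun i => h _ _]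
    rcases neg_one_pow_eq_or E m with h1 | h1 <;> simp [h1, mul_assoc]

theorem kos_det {R : Type} [CommRing R] (φ : R →+* E) (hφ : ∀ r x, φ r * x = x * φ r) {m : ℕ}
    (ε : Fin m → E) (h : ∀ a b, ε a * ε b = -(ε b * ε a)) (h0 : ∀ a, ε a * ε a = 0)
    (x : Matrix (Fin m) (Fin m) R) :
    (List.ofFn fun i => ∑ j, φ (x i j) * ε j).prod = φ x.det * (List.ofFn ε).prod := by
  induction m with
  | zero => simp
  | succ m ih =>
    rw [List.ofFn_succ, List.prod_cons, det_succ_row_zero, map_sum, Finset.sum_mul, Finset.sum_mul]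
    refine Finset.sum_congr rfl fun a _ => ?_
    have h1 := kos_drop (x := ε a) (fun i : Fin m => ∑ j, φ (x i.succ j) * ε j)
      (fun i => ∑ j : Fin m, φ (x i.succ (a.succAbove j)) * ε (a.succAbove j))
      (fun i => by
        rw [Fin.sum_univ_succAbove _ a, mul_add, ← mul_assoc, ← hφ, mul_assoc, h0, mul_zero,
          zero_add])
      fun i => by
        rw [Finset.mul_sum, Finset.sum_mul, ← Finset.sum_neg_distrib]
        exact Finset.sum_congr rfl fun j _ => by
          rw [← mul_assoc, ← hφ, mul_assoc, h, mul_neg, mul_assoc]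
    have h2 := ih (fun j => ε (a.succAbove j)) (fun _ _ => h _ _) (fun _ => h0 _)
      (x.submatrix Fin.succ a.succAbove)
    simp only [submatrix_apply] at h2
    rw [mul_assoc, h1, h2, ← mul_assoc (ε a), ← hφ, mul_assoc, top_sign ε h, map_mul, map_mul,
      map_pow, map_neg, map_one, std_sign_comm, std_sign_comm, mul_assoc, mul_assoc]

end

variable {N : ℕ}

theorem kos_anti (a b : Pol N ℂ) : dx (xo a) * dx (xo b) = -(dx (xo b) * dx (xo a)) := by
  have h : ∀ c : Pol N ℂ, Om.sg (dx (xo c)) = -dx (xo c) := fun c => by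
    rw [dx, Om.sg_dO, xo, Om.sg_of]
  rw [Om.comm_odd _ _ (h a), h, neg_mul]

theorem kos_sq (a : Pol N ℂ) : dx (xo a) * dx (xo a) = 0 := by
  have h : (2 : ℂ) • (dx (xo a) * dx (xo a)) = 0 := by
    rw [two_smul, add_eq_zero_iff_eq_neg]
    exact kos_anti a a
  exact (smul_eq_zero.1 h).resolve_left two_ne_zero

theorem kos_jd (u : Fin N → Pol N ℂ) :
    (List.ofFn fun i => dx (xo (u i))).prod = xo (H48.jd u) * vol N ℂ := by
  let φ : Pol N ℂ →+* OO N ℂ := (Om.of : RR N ℂ →ₐ[ℂ] OO N ℂ).toRingHom.comp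
    (rename (R := ℂ) (Sum.inl : Fin N → _)).toRingHom
  have h := kos_det φ (fun r x => Om.of_comm _ x) (fun i : Fin N => Om.e (Sum.inl i))
    (fun a b => by rw [Om.e_mul, Om.sg_e, neg_mul]) (fun a => Om.e_mul_e _)
    (Matrix.of fun i j => pderiv j (u i))
  simp only [dx_xo]
  exact h

theorem kos_diff {ι : Type} [Fintype ι] (par : ι → ℕ) (w : ι → ℤ) {m : ℕ} {K : ℤ} (b : ℤ)
    (h : ∀ (c : ℤ) (k : ℕ), k ≤ m → ∑ i, (-1) ^ par i * (c + w i) ^ k = if k = m then K else 0)
    (c : ℤ) (k : ℕ) (hk : k ≤ m + 1) :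
    ∑ i, (-1) ^ Sum.elim par (fun i => par i + 1) i * (c + Sum.elim w (fun i => w i + b) i) ^ k =
      if k = m + 1 then -(K * (b * (m + 1))) else 0 := by
  have e : ∀ i, (-1) ^ par i * (c + w i) ^ k + (-1) ^ (par i + 1) * (c + (w i + b)) ^ k =
      -∑ j ∈ Finset.range k, (-1) ^ par i * (c + w i) ^ j * (b ^ (k - j) * (k.choose j : ℤ)) := by
    intro i
    rw [← add_assoc, add_pow (c + w i) b, Finset.sum_range_succ, Nat.sub_self, Nat.choose_self]
    simp only [mul_assoc]
    rw [← Finset.mul_sum]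
    push_cast
    ring
  rw [Fintype.sum_sum_type, ← Finset.sum_add_distrib]
  simp only [Sum.elim_inl, Sum.elim_inr, e]
  rw [Finset.sum_neg_distrib, Finset.sum_comm]
  simp only [← Finset.sum_mul]
  rw [Finset.sum_congr rfl fun j hj => by rw [h c j (by have := Finset.mem_range.1 hj; omega)]]
  simp only [ite_mul, zero_mul, Finset.sum_ite_eq', Finset.mem_range]
  split_ifs with h1 h2 h2
  · subst h2
    simp
  · omega
  · omega
  · simp

theorem kos_ind {d : ℕ} (m : ℕ) (a : Fin m → ℕ) (ha : ∀ i, a i < d) (f g : Fin m → Pol N ℂ)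
    (hf : ∀ i, (f i).IsHomogeneous (a i)) (hg : ∀ i, (g i).IsHomogeneous (d - a i)) :
    ∃ (ι : Type) (_ : Fintype ι) (_ : DecidableEq ι) (par : ι → ℕ) (w : ι → ℤ)
      (δ : Matrix ι ι (Pol N ℂ)) (c : ℕ),
      (∀ i j μ, coeff μ (δ i j) ≠ 0 →
        2 * (μ.degree : ℤ) + (2 * w i + (par i : ℤ) * d) = d + (2 * w j + (par j : ℤ) * d)) ∧
      δ * δ = scalar ι (∑ i, f i * g i) ∧
      (∀ i j, δ i j ≠ 0 → par i + 1 = par j ∨ par j + 1 = par i) ∧
      (∀ i j, par i + 1 = par j → δ i j ∈ Ideal.span (Set.range f)) ∧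
      (∃ K : ℤ, K ≠ 0 ∧ ∀ (c : ℤ) (k : ℕ), k ≤ m →
        ∑ i, (-1) ^ par i * (c + w i) ^ k = if k = m then K else 0) ∧
      c ≠ 0 ∧ ∑ i, (-1) ^ par i * ((δ.map fun P => dx (xo P)) ^ (m + m)) i i =
        c • (List.ofFn fun i => dx (xo (f i)) * dx (xo (g i))).prod := by
  induction m with
  | zero =>
    refine ⟨Unit, inferInstance, inferInstance, fun _ => 0, 0, 0, 1, ?_, ?_, ?_, ?_,
      ⟨1, one_ne_zero, ?_⟩, one_ne_zero, ?_⟩ <;> simp
  | succ m ih =>
    obtain ⟨ι, _, _, par, w, δ, c, h1, h2, h3, h4, ⟨K, hK, h5⟩, h6, h7⟩ :=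
      ih (fun i => a i.castSucc) (fun i => ha _) (fun i => f i.castSucc) (fun i => g i.castSucc)
        (fun i => hf _) fun i => hg _
    have hs : ∀ (P : Pol N ℂ) (i j : ι), scalar ι P i j ≠ 0 → i = j ∧ scalar ι P i j = P := by
      intro P i j hij
      rw [scalar_apply, diagonal_apply] at hij ⊢
      split_ifs at hij ⊢ with h
      · exact ⟨h, rfl⟩
      · exact absurd rfl hij
    have hdeg : ∀ {P : Pol N ℂ} {k : ℕ}, P.IsHomogeneous k → ∀ μ, coeff μ P ≠ 0 → μ.degree = k :=
      fun hP μ hμ => by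
        have := hP hμ
        rwa [Finsupp.degree_eq_weight_one]
    have hmono : Ideal.span (Set.range fun i : Fin m => f i.castSucc) ≤ Ideal.span (Set.range f) :=
      Ideal.span_mono (by rintro _ ⟨i, rfl⟩; exact ⟨_, rfl⟩)
    refine ⟨ι ⊕ ι, inferInstance, inferInstance, Sum.elim par fun i => par i + 1,
      Sum.elim w fun i => w i + ((a (Fin.last m) : ℤ) - d),
      fromBlocks δ (scalar ι (f (Fin.last m))) (scalar ι (g (Fin.last m))) (-δ),
      2 * (m + m + 2).choose 2 * c, ?_, ?_, ?_, ?_, ?_, ?_, ?_⟩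
    · rintro (i | i) (j | j) μ hμ
      · exact h1 i j μ hμ
      · rw [fromBlocks_apply₁₂] at hμ
        obtain ⟨rfl, e⟩ := hs _ i j fun h0 => hμ (by rw [h0, coeff_zero])
        rw [e] at hμ
        rw [hdeg (hf _) μ hμ]
        simp only [Sum.elim_inl, Sum.elim_inr]
        push_cast
        ring
      · rw [fromBlocks_apply₂₁] at hμ
        obtain ⟨rfl, e⟩ := hs _ i j fun h0 => hμ (by rw [h0, coeff_zero])
        rw [e] at hμ
        rw [hdeg (hg _) μ hμ, Nat.cast_sub (ha _).le]
        simp only [Sum.elim_inl, Sum.elim_inr]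
        push_cast
        ring
      · rw [fromBlocks_apply₂₂, Matrix.neg_apply, coeff_neg, neg_ne_zero] at hμ
        have := h1 i j μ hμ
        simp only [Sum.elim_inr]
        push_cast
        linear_combination this
    · rw [fromBlocks_multiply, Matrix.neg_mul, Matrix.mul_neg, Matrix.neg_mul, Matrix.mul_neg,
        neg_neg, h2, ← map_mul, ← map_mul, ← map_add, ← map_add,
        (scalar_commute _ (Commute.all _) δ).eq, (scalar_commute _ (Commute.all _) δ).eq,
        add_neg_cancel, add_neg_cancel, Fin.sum_univ_castSucc, mul_comm (g _), add_comm (f _ * _),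
        scalar_apply, scalar_apply, fromBlocks_diagonal]
      congr 1
      funext i
      cases i <;> rfl
    · rintro (i | i) (j | j) hij
      · exact h3 i j hij
      · obtain ⟨rfl, -⟩ := hs _ i j hij
        exact Or.inl rfl
      · obtain ⟨rfl, -⟩ := hs _ i j hij
        exact Or.inr rfl
      · rw [fromBlocks_apply₂₂, Matrix.neg_apply, neg_ne_zero] at hij
        have := h3 i j hij
        simp only [Sum.elim_inr]
        omega
    · rintro (i | i) (j | j) hij
      · exact hmono (h4 i j hij)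
      · rw [fromBlocks_apply₁₂]
        by_cases h0 : scalar ι (f (Fin.last m)) i j = 0
        · rw [h0]
          exact zero_mem _
        · rw [(hs _ i j h0).2]
          exact Ideal.subset_span ⟨_, rfl⟩
      · rw [fromBlocks_apply₂₁]
        by_cases h0 : scalar ι (g (Fin.last m)) i j = 0
        · rw [h0]
          exact zero_mem _
        · obtain ⟨rfl, -⟩ := hs _ i j h0
          simp only [Sum.elim_inl, Sum.elim_inr] at hij
          omega
      · rw [fromBlocks_apply₂₂, Matrix.neg_apply]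
        simp only [Sum.elim_inr] at hij
        exact neg_mem (hmono (h4 i j (by omega)))
    · refine ⟨_, neg_ne_zero.2 (mul_ne_zero hK (mul_ne_zero ?_ (by positivity))),
        kos_diff par w _ h5⟩
      have := ha (Fin.last m)
      omega
    · exact mul_ne_zero (mul_ne_zero two_ne_zero (Nat.choose_pos (by omega)).ne') h6
    · have z : dx (xo (0 : Pol N ℂ)) = 0 := by simp [xo]
      have e : (fromBlocks δ (scalar ι (f (Fin.last m))) (scalar ι (g (Fin.last m))) (-δ)).map
          (fun P => dx (xo P)) = fromBlocks (δ.map fun P => dx (xo P))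
            (scalar ι (dx (xo (f (Fin.last m))))) (scalar ι (dx (xo (g (Fin.last m)))))
            (-δ.map fun P => dx (xo P)) := by
        rw [fromBlocks_map, scalar_apply, scalar_apply, diagonal_map z, diagonal_map z,
          Matrix.map_neg _ fun P => by simp [xo]]
        rfl
      rw [e, show m + 1 + (m + 1) = m + m + 2 by omega,
        kos_step par (δ.map fun P => dx (xo P)) (fun i j => kos_anti _ (δ i j))
          (fun i j => kos_anti _ (δ i j)) (kos_anti _ _) (kos_sq _) (kos_sq _) ⟨m, rfl⟩,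
        h7, List.ofFn_succ', List.prod_concat, smul_mul_assoc,
        smul_smul]

theorem exists_koszul {n d : ℕ} (a : Fin n → ℕ) (ha : ∀ i, a i < d) (f g : Fin n → Pol (n + n) ℂ)
    (hf : ∀ i, (f i).IsHomogeneous (a i)) (hg : ∀ i, (g i).IsHomogeneous (d - a i)) :
    ∃ (ι : Type) (_ : Fintype ι) (_ : DecidableEq ι) (par : ι → ℕ) (μ : ι → ℤ)
      (δ : Matrix ι ι (Pol (n + n) ℂ)) (t : ℂ),
      IsMF d (∑ i, f i * g i) par (fun i => 2 * μ i + (par i : ℤ) * d) δ ∧
      (∀ i j, δ i j ≠ 0 → par i + 1 = par j ∨ par j + 1 = par i) ∧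
      (∀ i j, par i + 1 = par j → δ i j ∈ Ideal.span (Set.range f)) ∧
      (∀ (c : ℤ) (m : ℕ), m < n → ∑ i, (-1) ^ par i * (c + μ i) ^ m = 0) ∧
      (∀ c : ℤ, ∑ i, (-1) ^ par i * (c + μ i) ^ n ≠ 0) ∧
      IsQ t ∧ ch par δ = t • H48.jd (Fin.append f g) := by
  obtain ⟨ι, _, _, par, w, δ, c, h1, h2, h3, h4, ⟨K, hK, h5⟩, h6, h7⟩ := kos_ind n a ha f g hf hg
  obtain ⟨k, hk⟩ := kos_pairs (fun i => dx (xo (f i))) (fun i => dx (xo (g i)))
    fun i j => kos_anti _ _
  refine ⟨ι, inferInstance, inferInstance, par, w, δ, c * (-1) ^ k, ⟨fun i j hij => ?_, h1, h2⟩,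
    h3, h4, fun e m hm => by rw [h5 e m hm.le, if_neg hm.ne],
    fun e => by rwa [h5 e n le_rfl, if_pos rfl], (isQ_nat h6).mul (isQ_one.neg.pow k), ?_⟩
  · rcases h3 i j hij with h | h
    · exact ⟨par i, by omega⟩
    · exact ⟨par j, by omega⟩
  · have h8 := kos_jd (Fin.append f g)
    have h9 : (List.ofFn fun i => dx (xo (Fin.append f g i))) =
        (List.ofFn fun i => dx (xo (f i))) ++ List.ofFn fun i => dx (xo (g i)) := by
      rw [← List.ofFn_fin_append]
      congr 1
      funext i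
      refine Fin.addCases (fun i => ?_) (fun i => ?_) i
      · rw [Fin.append_left, Fin.append_left]
      · rw [Fin.append_right, Fin.append_right]
    rw [h9, List.prod_append] at h8
    rw [trace_pow_eq_ch, hk, h8] at h7
    refine sub_eq_zero.1 (xo_vol_inj ?_)
    rw [xo, map_sub, map_sub, map_smul, map_smul, sub_mul, ← xo, ← xo, h7, smul_mul_assoc,
      Algebra.smul_def, Algebra.smul_def, map_mul, map_pow, map_neg, map_one, map_natCast,
      mul_assoc, sub_eq_zero]
    rfl

end Pool.Agent.Lib.MP_e9c0f3_ag.LF
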