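import Pool.Agent.Lib.MP_e9c0f3_ag.LF.Quad

/-! Linear spaces and quadrics of dimension `k` are test cycles. -/

open MvPolynomial Sum Matrix

namespace Pool.Agent.Lib.MP_e9c0f3_ag.LF

open DR Om

theorem lin_one {N : ℕ} {f : Pol N ℂ} (hf : f.IsHomogeneous 1) :
    ∃ c : Fin N → ℂ, f = ∑ a, c a • X a := by
  have h : f ∈ homogeneousSubmodule (Fin N) ℂ 1 := hf
  rw [homogeneousSubmodule_one_eq_span_X] at h
  obtain ⟨c, hc⟩ := (Submodule.mem_span_range_iff_exists_fun ℂ).1 h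
  exact ⟨c, hc.symm⟩

theorem lin_two {N : ℕ} {q : Pol N ℂ} (hq : q.IsHomogeneous 2) :
    ∃ B : Fin N → Fin N → ℂ, q = ∑ a, ∑ b, B a b • (X a * X b) := by
  choose c hc using fun a => lin_one (hq.pderiv (i := a))
  refine ⟨fun a b => 2⁻¹ * c a b, ?_⟩
  have h := hq.sum_X_mul_pderiv
  have h2 : q = (2⁻¹ : ℂ) • (2 • q) := by module
  rw [h2, ← h, Finset.smul_sum]
  refine Finset.sum_congr rfl fun a _ => ?_
  rw [hc a, Finset.mul_sum, Finset.smul_sum]
  refine Finset.sum_congr rfl fun b _ => ?_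
  rw [mul_smul_comm, smul_smul]

theorem lin_ker {N k : ℕ} (hN : k + k ≤ N) (M : Matrix (Fin k) (Fin N) ℂ) :
    ∃ (L : Matrix (Fin N) (Fin k) ℂ) (L' : Matrix (Fin k) (Fin N) ℂ), L' * L = 1 ∧
      ∀ j b, ∑ a, M j a * L a b = 0 := by
  have h1 : k ≤ Module.finrank ℂ (LinearMap.ker M.mulVecLin) := by
    have h2 := M.mulVecLin.finrank_range_add_finrank_ker
    have h3 := (LinearMap.range M.mulVecLin).finrank_le
    simp only [Module.finrank_fin_fun] at h2 h3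
    omega
  obtain ⟨v, hv⟩ := exists_linearIndependent_of_le_finrank h1
  have hv' : LinearIndependent ℂ fun b => (v b : Fin N → ℂ) :=
    hv.map' (Submodule.subtype _) (Submodule.ker_subtype _)
  let L : Matrix (Fin N) (Fin k) ℂ := Matrix.of fun i b => (v b : Fin N → ℂ) i
  have h4 : LinearMap.ker (Matrix.toLin' L) = ⊥ := by
    rw [LinearMap.ker_eq_bot']
    intro y hy
    funext b
    refine Fintype.linearIndependent_iff.1 hv' y ?_ b
    funext i
    simpa [L, Matrix.mulVec, dotProduct, mul_comm] using congrFun hy i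
  obtain ⟨g, hg⟩ := LinearMap.exists_leftInverse_of_injective _ h4
  refine ⟨L, LinearMap.toMatrix' g, ?_, fun j b => congrFun (v b).2 j⟩
  rw [← LinearMap.toMatrix'_toLin' L, ← LinearMap.toMatrix'_comp, hg, LinearMap.toMatrix'_id]

theorem lin_sum {N k : ℕ} {A : Type} [CommRing A] [Algebra ℂ A] {L : Matrix (Fin N) (Fin k) ℂ}
    {r : Fin N → ℂ} (h : ∀ b, ∑ a, r a * L a b = 0) (y : Fin k → A) :
    ∑ a, r a • ∑ b, L a b • y b = 0 := by
  simp only [Finset.smul_sum, smul_smul]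
  rw [Finset.sum_comm]
  refine Finset.sum_eq_zero fun b _ => ?_
  rw [← Finset.sum_smul, h, zero_smul]

theorem lin_span {N k : ℕ} {A : Type} [CommRing A] [Algebra ℂ A] {q : Pol N ℂ}
    {x : Fin k → Pol N ℂ} (φ : Pol N ℂ →ₐ[ℂ] A) (J : Ideal A) (hq : φ q ∈ J) (hx : ∀ i, φ (x i) = 0) :
    ∀ P ∈ Ideal.span (Set.range (Fin.cons q x : Fin (k + 1) → Pol N ℂ)), φ P ∈ J := by
  intro P hP
  refine (show _ ≤ J.comap φ from Ideal.span_le.2 ?_) hP
  rintro _ ⟨i, rfl⟩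
  refine Fin.cases hq (fun i => ?_) i
  change φ (x i) ∈ J
  rw [hx]
  exact J.zero_mem

theorem lin_dich {N k n : ℕ} (hN : k + 1 + (k + 1) ≤ N) {q : Pol N ℂ} {x : Fin k → Pol N ℂ}
    (hn : n = 1 ∨ n = 2) (hq : q.IsHomogeneous n) (hx : ∀ i, (x i).IsHomogeneous 1) :
    (∃ (L : Matrix (Fin N) (Fin (k + 1)) ℂ) (L' : Matrix (Fin (k + 1)) (Fin N) ℂ), L' * L = 1 ∧
      ∀ P ∈ Ideal.span (Set.range (Fin.cons q x : Fin (k + 1) → Pol N ℂ)),
        aeval (fun i => ∑ b, L i b • (X b : Pol (k + 1) ℂ)) P = 0) ∨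
    ∃ (w : Fin N → ℂ) (L : Matrix (Fin N) (Fin (k + 1)) ℂ) (L' : Matrix (Fin (k + 1)) (Fin N) ℂ)
      (p : Pol (k + 1) ℂ), L' * L = 1 ∧ L' *ᵥ w = 0 ∧ p.IsHomogeneous 2 ∧
      ∀ P ∈ Ideal.span (Set.range (Fin.cons q x : Fin (k + 1) → Pol N ℂ)),
        aeval (fun i => w i • (X 0 : Pol (k + 2) ℂ) + ∑ b, L i b • X b.succ) P ∈
          Ideal.span {(X 0 : Pol (k + 2) ℂ) ^ 2 - rename Fin.succ p} := by
  choose c hc using fun i => lin_one (hx i)
  rcases hn with rfl | rfl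
  · obtain ⟨d, hd⟩ := lin_one hq
    obtain ⟨L, L', h1, h2⟩ := lin_ker hN (Matrix.of (Fin.cons d c : Fin (k + 1) → Fin N → ℂ))
    refine Or.inl ⟨L, L', h1, lin_span _ ⊥ ?_ fun i => ?_⟩
    · rw [hd]
      simpa using lin_sum (h2 0) (fun b => (X b : Pol (k + 1) ℂ))
    · rw [hc]
      simpa using lin_sum (h2 i.succ) (fun b => (X b : Pol (k + 1) ℂ))
  obtain ⟨B, hB⟩ := lin_two hq
  by_cases h : ∀ z : Fin N → ℂ, (∀ i, ∑ a, c i a * z a = 0) → ∑ a, ∑ b, B a b * (z a * z b) = 0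
  · obtain ⟨L, L', h1, h2⟩ := lin_ker hN (Matrix.of (Fin.cons 0 c : Fin (k + 1) → Fin N → ℂ))
    refine Or.inl ⟨L, L', h1, lin_span _ ⊥ ?_ fun i => ?_⟩
    · rw [Ideal.mem_bot]
      refine MvPolynomial.funext fun y => ?_
      rw [hB]
      simpa using h (fun a => ∑ b, L a b * y b) fun i => by
        simpa using lin_sum (h2 i.succ) y
    · rw [hc]
      simpa using lin_sum (h2 i.succ) (fun b => (X b : Pol (k + 1) ℂ))
  push Not at h
  obtain ⟨z, hz, hz'⟩ := h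
  obtain ⟨s, hs⟩ := IsAlgClosed.exists_pow_nat_eq (∑ a, ∑ b, B a b * (z a * z b))⁻¹ two_pos
  obtain ⟨w, hw, hw'⟩ : ∃ w : Fin N → ℂ, (∀ i, ∑ a, c i a * w a = 0) ∧
      ∑ a, ∑ b, B a b * (w a * w b) = 1 := by
    refine ⟨fun a => s * z a, fun i => ?_, ?_⟩
    · simp only [mul_left_comm _ s]
      rw [← Finset.mul_sum, hz, mul_zero]
    · rw [← inv_mul_cancel₀ hz', ← hs, Finset.mul_sum]
      refine Finset.sum_congr rfl fun a _ => ?_
      rw [Finset.mul_sum]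
      exact Finset.sum_congr rfl fun b _ => by ring
  obtain ⟨l, hl⟩ : ∃ l : Fin N → ℂ, ∀ a, l a = ∑ b, B a b * w b + ∑ b, B b a * w b :=
    ⟨_, fun _ => rfl⟩
  have hlw : l ⬝ᵥ w = 2 := by
    simp only [dotProduct, hl, add_mul, Finset.sum_add_distrib, Finset.sum_mul]
    rw [Finset.sum_comm (f := fun a b => B b a * w b * w a), ← one_add_one_eq_two, ← hw']
    congr 1 <;> exact Finset.sum_congr rfl fun a _ => Finset.sum_congr rfl fun b _ => by ring
  obtain ⟨L, L', h1, h2⟩ := lin_ker hN (Matrix.of (Fin.cons l c : Fin (k + 1) → Fin N → ℂ))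
  have h3 : l ᵥ* L = 0 := funext fun b => h2 0 b
  refine Or.inr ⟨w, L, L' - (2⁻¹ : ℂ) • vecMulVec (L' *ᵥ w) l,
    -aeval (fun i => ∑ b, L i b • (X b : Pol (k + 1) ℂ)) q, ?_, ?_, ?_, lin_span _ _ ?_ fun i => ?_⟩
  · rw [Matrix.sub_mul, h1, Matrix.smul_mul, vecMulVec_mul, h3, vecMulVec_zero, smul_zero, sub_zero]
  · rw [sub_mulVec, smul_mulVec, vecMulVec_mulVec, hlw]
    funext j
    simp
    ring
  · have h4 := hq.aeval (fun i => ∑ b, L i b • (X b : Pol (k + 1) ℂ)) (n := 1) fun i =>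
      IsHomogeneous.sum _ _ _ fun b _ =>
        (homogeneousSubmodule _ ℂ 1).smul_mem _ (isHomogeneous_X ℂ b)
    exact h4.neg
  · rw [map_neg, sub_neg_eq_add]
    obtain ⟨u, hu⟩ : ∃ u : Fin N → Pol (k + 2) ℂ, ∀ i, u i = ∑ b, L i b • X b.succ :=
      ⟨_, fun _ => rfl⟩
    have h5 : ∑ a, l a • u a = 0 := by
      simp only [hu]
      exact lin_sum (h2 0) (fun b => (X b.succ : Pol (k + 2) ℂ))
    have h6 : rename Fin.succ (aeval (fun i => ∑ b, L i b • (X b : Pol (k + 1) ℂ)) q) =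
        ∑ a, ∑ b, B a b • (u a * u b) := by
      rw [hB]
      simp [hu]
    simp only [← hu]
    rw [h6]
    convert Ideal.mem_span_singleton_self _ using 1
    have h7 : ∀ a b, B a b • ((w a • (X 0 : Pol (k + 2) ℂ) + u a) * (w b • X 0 + u b)) =
        (B a b * (w a * w b)) • X 0 ^ 2 + (X 0 * ((B a b * w b) • u a) +
          X 0 * ((B a b * w a) • u b)) + B a b • (u a * u b) := fun a b => by
      simp only [Algebra.smul_def, map_mul]
      ring
    have h8 : ∑ a, ∑ b, (B a b * w b) • u a + ∑ a, ∑ b, (B a b * w a) • u b = 0 := by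
      rw [← h5, Finset.sum_comm (f := fun a b => (B a b * w a) • u b), ← Finset.sum_add_distrib]
      refine Finset.sum_congr rfl fun a _ => ?_
      rw [hl, add_smul, Finset.sum_smul, Finset.sum_smul]
    have h9 : ∑ a, ∑ b, (B a b * (w a * w b)) • (X 0 : Pol (k + 2) ℂ) ^ 2 = X 0 ^ 2 := by
      simp only [← Finset.sum_smul]
      rw [hw', one_smul]
    rw [hB]
    simp only [map_sum, map_smul, map_mul, aeval_X, h7, Finset.sum_add_distrib, ← Finset.mul_sum]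
    rw [h9, ← mul_add, h8, mul_zero, add_zero]
  · rw [hc]
    have h9 := lin_sum (h2 i.succ) (fun b => (X b.succ : Pol (k + 2) ℂ))
    simp only [map_sum, map_smul, aeval_X, smul_add, Finset.sum_add_distrib, smul_smul,
      ← Finset.sum_smul, hw, zero_smul, zero_add]
    exact h9

theorem exists_test {N k n : ℕ} (hN : k + 1 + (k + 1) ≤ N) {F q : Pol N ℂ} {x : Fin k → Pol N ℂ}
    (hn : n = 1 ∨ n = 2) (hq : q.IsHomogeneous n) (hx : ∀ i, (x i).IsHomogeneous 1)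
    (hF : F ∈ Ideal.span (Set.range (Fin.cons q x : Fin (k + 1) → Pol N ℂ))) :
    Test k F (Ideal.span (Set.range (Fin.cons q x : Fin (k + 1) → Pol N ℂ))) := by
  rcases lin_dich hN hn hq hx with ⟨L, L', h1, h2⟩ | ⟨w, L, L', p, h1, h2, h3, h4⟩
  · exact test_plane h1 hF h2
  · exact test_quad h1 h2 h3 hF h4

end Pool.Agent.Lib.MP_e9c0f3_ag.LF
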