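import Pool.Agent.Lib.MP_e9c0f3_ag.LF.Num2
import Pool.Agent.Lib.MP_e9c0f3_ag.LF.Lin
import Pool.Agent.Lib.MP_e9c0f3_ag.LF.Kos
import Pool.Agent.Lib.MP_e9c0f3_ag.MC.GapD
import Pool.Agent.Lib.MP_e9c0f3_ag.DR.Bridge

/-! Assembly. -/

open MvPolynomial Sum Module

namespace Pool.Agent.Lib.MP_e9c0f3_ag.LF

open DR Om

variable {N : ℕ}

/-- Rational combinations of Chern characters. -/
def Alg (k : ℕ) (F : Pol N ℂ) (ω : Form (Jou F)) : Prop :=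
  ∃ γ ∈ AddSubgroup.closure {γ : Form (Jou F) | ∃ (c : ℚ) (n : ℕ)
    (e : Matrix (Fin n) (Fin n) (Jou F)), e * e = e ∧ γ = (c : ℂ) • chw k e}, IsExact (ω - γ)

theorem alg_ind {k : ℕ} {F : Pol N ℂ} {N' : ℕ} {F' : Pol N' ℂ} (f : Form (Jou F) →+ OO N' ℂ ⧸ JJ F')
    (hf : ∀ (c : ℂ) ω, f (c • ω) = c • f ω) (hE : ∀ ω, IsExact ω → ExB F' (f ω))
    (z : OO N' ℂ ⧸ JJ F') (h : ∀ (n : ℕ) (e : Matrix (Fin n) (Fin n) (Jou F)), e * e = e →
      ∃ r : ℚ, ExB F' (f (chw k e) - (r : ℂ) • z)) {ω : Form (Jou F)} (hω : Alg k F ω) :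
    ∃ r : ℚ, ExB F' (f ω - (r : ℂ) • z) := by
  obtain ⟨γ, h1, h2⟩ := hω
  obtain ⟨r, hr⟩ : ∃ r : ℚ, ExB F' (f γ - (r : ℂ) • z) := by
    clear h2
    induction h1 using AddSubgroup.closure_induction with
    | mem x hx =>
      obtain ⟨c, n, e, he, rfl⟩ := hx
      obtain ⟨r, hr⟩ := h n e he
      refine ⟨c * r, ?_⟩
      convert hr.smul c using 1
      rw [hf, smul_sub, smul_smul, Rat.cast_mul]
    | zero => exact ⟨0, by simpa using exB_zero⟩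
    | add x y _ _ hx hy =>
      obtain ⟨r, hr⟩ := hx
      obtain ⟨r', hr'⟩ := hy
      refine ⟨r + r', ?_⟩
      convert hr.add hr' using 1
      rw [map_add, Rat.cast_add, add_smul]
      abel
    | neg x _ hx =>
      obtain ⟨r, hr⟩ := hx
      refine ⟨-r, ?_⟩
      convert hr.neg using 1
      rw [map_neg, Rat.cast_neg, neg_smul]
      abel
  refine ⟨r, ?_⟩
  convert (hE _ h2).add hr using 1
  rw [map_sub]
  abel

theorem alg_deg {k d : ℕ} {F : Pol N ℂ} (hN : 0 < N) (hF0 : F ≠ 0) (hF : F.IsHomogeneous d)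
    (hd : 1 ≤ d) {ω : Form (Jou F)} (hω : Alg k F ω) :
    ∃ r : ℚ, ExB F (hh F * phiB F ω - (r : ℂ) • hh F ^ (k + 1)) :=
  alg_ind ((AddMonoidHom.mulLeft (hh F)).comp (phiB F).toAddMonoidHom)
    (fun c ω => by
      change hh F * phiB F (c • ω) = c • (hh F * phiB F ω)
      rw [(isDG_B F).smul, mul_smul_comm])
    (fun ω h => by
      have h1 := h.exB.hh_mul 1
      rwa [pow_one] at h1)
    _ (fun n e he => rat_hyp hN hF0 hF hd he k) hω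

theorem alg_test {k : ℕ} {F : Pol N ℂ} {I : Ideal (Pol N ℂ)} (hT : Test k F I)
    {ω : Form (Jou F)} (hω : Alg k F ω) {κ : Type} [Fintype κ] [DecidableEq κ]
    {u : Matrix κ κ (Jou F)} {c a n : ℂ} (h0 : IsExact (ω - c • chw k u - a • chw k (prj F)))
    (hu : ∀ {N' : ℕ} {F' : Pol N' ℂ} {φ : DR.TT F →ₐ[ℂ] DR.TT F'} {ρ : Jou F →ₐ[ℂ] Jou F'},
      Sb F F' φ ρ → (∀ P ∈ I, φ (Ideal.Quotient.mk _ (rename inl P)) = 0) →
      ExB F' (phiB F' (chw k (u.map ρ)) - n • hh F' ^ k)) : ∃ m : ℚ, c * n + a = m := by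
  obtain ⟨N', F', φ, ρ, h1, h2, h3, h4⟩ := hT
  obtain ⟨m, hm⟩ := alg_ind (F' := F') (((phiB F').comp (pull (ρ 0))).toAddMonoidHom +
      ((phiB F').comp (pull (ρ 1))).toAddMonoidHom)
    (fun c ω => by
      change phiB F' (pull (ρ 0) (c • ω)) + phiB F' (pull (ρ 1) (c • ω)) =
        c • (phiB F' (pull (ρ 0) ω) + phiB F' (pull (ρ 1) ω))
      rw [pull_smul, pull_smul, (isDG_B F').smul, (isDG_B F').smul, smul_add])
    (fun ω h => (exact_pull (ρ 0) h).add (exact_pull (ρ 1) h)) (hh F' ^ k)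
    (fun n e he => by
      obtain ⟨r, hr⟩ := h4 n e he
      rw [← pull_chw, ← pull_chw] at hr
      exact ⟨r, hr⟩) hω
  have h5 : ∀ s, ExB F' (phiB F' (pull (ρ s) ω) - (c * n + a) • hh F' ^ k) := fun s => by
    have h6 := exact_pull (ρ s) h0
    rw [map_sub (pull (ρ s)), map_sub (pull (ρ s)), pull_smul, pull_smul, pull_chw, pull_chw,
      map_sub, map_sub, (isDG_B F').smul, (isDG_B F').smul] at h6
    convert (h6.add ((hu (h1 s) (h2 s)).smul c)).add (((h1 s).prj k).smul a) using 1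
    rw [smul_sub, smul_sub, smul_smul, add_smul]
    abel
  change ExB F' (phiB F' (pull (ρ 0) ω) + phiB F' (pull (ρ 1) ω) - _) at hm
  have h6 := h3 (2 * (c * n + a) - m) (by
    convert (hm.sub (h5 0)).sub (h5 1) using 1
    module)
  exact ⟨m / 2, by push_cast; linear_combination h6 / 2⟩

theorem fibre_mf {k d : ℕ} (hk : 1 ≤ k) (hN : N = 2 * (k + 1)) (hd : 2 ≤ d) {F P : Pol N ℂ}
    (hF : F.IsHomogeneous d) (hi : Isol F) {ι : Type} [Fintype ι] [DecidableEq ι] {par : ι → ℕ}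
    {wt : ι → ℤ} {δ : Matrix ι ι (Pol N ℂ)} (hδ : IsMF d F par wt δ) {r : ℂ}
    (he : Exact F (P - r • ch par δ)) {ω : Form (Jou F)}
    (hω : ω ∈ ⋀[Jou F]^(2 * k) Ω[Jou F⁄ℂ]) {x : OO N ℂ} (hx : Ideal.Quotient.mk _ x = phiB F ω)
    (hcl : dx x ∈ JJ F) (hP : Rp F x P) {g : Fin N → RR N ℂ}
    (hg : ∑ i, g i * rename inl (pderiv i F) - 1 ∈ Ideal.span {ff N ℂ - 1})
    {κ : Type} [Fintype κ] [DecidableEq κ] {U : Matrix κ ι (DR.TT F)} {V : Matrix ι κ (DR.TT F)}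
    (hf : Frame F (nu wt 0) U V) {u : Matrix κ κ (Jou F)}
    (eu : u.map (inc F) = U * (ezero par g δ).map (Ideal.Quotient.mk (relJ F)) * V) :
    ∃ t a : ℂ, IsQ t ∧ IsExact (ω - (r * t) • chw k u - a • chw k (prj F)) := by
  have hN0 : 0 < N := by omega
  have hF0 := ne_zero_of_isol hN0 hi
  obtain ⟨t, ht, h1⟩ := rep_ch hk hN hF hδ hg
  have hu := hf.idem (ezero_idem hδ hg) eu
  obtain ⟨v, h2⟩ : ∃ v, phiB F (chw k u) -
      Ideal.Quotient.mk _ ((SO N ℂ).ch k ((ezero par g δ).map of)) = (ST F).d v := by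
    obtain ⟨-, v, h2⟩ := desc_abs (ST F) (psiT F) (psiT_even F) hf.one (ezero_idem hδ hg) k
    refine ⟨v, ?_⟩
    rw [← h2, phiB_cc eu]
    exact congrArg₂ _ rfl ((hom_ST F).ch k _)
  obtain ⟨v, rfl⟩ := Ideal.Quotient.mk_surjective v
  have h3 := hP.sub (h1.smul (r * t⁻¹)).rp
  rw [smul_smul, mul_assoc, inv_mul_cancel₀ ht.1, mul_one] at h3
  have hl : ω - (r * t⁻¹) • chw k u ∈ ⋀[Jou F]^(2 * k) Ω[Jou F⁄ℂ] :=
    sub_mem hω (Submodule.smul_of_tower_mem _ _ (chw_deg k u))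
  obtain ⟨y, hy⟩ := Ideal.Quotient.mk_surjective (phiB F (ω - (r * t⁻¹) • chw k u))
  have h4 : Rp F y (P - r • ch par δ) := by
    refine h3.congr (η := (r * t⁻¹) • v) ?_
    rw [← Ideal.Quotient.eq_zero_iff_mem, map_smul, map_sub, map_sub, map_sub, hy, mk_smul',
      mk_smul', ← ST_d, ← h2, map_sub, (isDG_B F).smul, hx, smul_sub]
    abel
  obtain ⟨ξ, η, h5, h6⟩ := h4.psi_exact he
  have h7 : (ST F).d (phiB F (ω - (r * t⁻¹) • chw k u)) = 0 := by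
    rw [map_sub, (isDG_B F).smul, map_sub, map_smul, ← hx, ST_d,
      Ideal.Quotient.eq_zero_iff_mem.2 hcl, (isDG_B F).chw, SD.ch_closed, smul_zero, sub_zero]
    · exact fun i j => (isDG_B F).even _
    · exact (Matrix.map_mul (f := ((psiT F).comp (inc F)).toRingHom)).symm.trans (by rw [hu]; rfl)
  obtain ⟨a, h8⟩ := gysin_step hd hF0 hF hi (j := k) (by omega) hl h7 hy h5 h6
  exact ⟨t⁻¹, a, ht.inv, h8⟩

/-- The fibre contains a linear space or a quadric whose class is proportional to `P`. -/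
def KD (k d : ℕ) (F P : Pol N ℂ) (c : ℂ) : Prop :=
  ∃ (I : Ideal (Pol N ℂ)) (ι : Type) (_ : Fintype ι) (_ : DecidableEq ι) (par : ι → ℕ) (μ : ι → ℤ)
    (δ : Matrix ι ι (Pol N ℂ)) (t : ℂ), Test k F I ∧
    IsMF d F par (fun i => 2 * μ i + par i * d) δ ∧
    (∀ i j, δ i j ≠ 0 → par i + 1 = par j ∨ par j + 1 = par i) ∧
    (∀ i j, par i + 1 = par j → δ i j ∈ I) ∧
    (∀ (c : ℤ) (m : ℕ), m < k + 1 → ∑ i, (-1) ^ par i * (c + μ i) ^ m = 0) ∧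
    (∀ c : ℤ, ∑ i, (-1) ^ par i * (c + μ i) ^ (k + 1) ≠ 0) ∧
    IsQ t ∧ Exact F (P - (c * t) • ch par δ)

theorem fibre_kd {k d : ℕ} (hk : 1 ≤ k) (hN : N = 2 * (k + 1)) (hd : 2 ≤ d) {F P : Pol N ℂ}
    (hF : F.IsHomogeneous d) (hi : Isol F) {c : ℂ} (h : KD k d F P c) {ω : Form (Jou F)}
    (hω : ω ∈ ⋀[Jou F]^(2 * k) Ω[Jou F⁄ℂ]) {x : OO N ℂ} (hx : Ideal.Quotient.mk _ x = phiB F ω)
    (hcl : dx x ∈ JJ F) (hP : Rp F x P) :
    ∃ (t n r : ℚ) (a : ℂ) (l : ℕ) (e : Matrix (Fin l) (Fin l) (Jou F)), t ≠ 0 ∧ n ≠ r ∧ e * e = e ∧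
      IsExact (ω - (c * t) • chw k e - a • chw k (prj F)) ∧
      ExB F (hh F * phiB F ω - (c * t * r + a) • hh F ^ (k + 1)) ∧
      (Alg k F ω → ∃ m : ℚ, c * t * n + a = m) := by
  obtain ⟨I, ι, _, _, par, μ, δ, t, hT, hδ, h3, hI, h4, h5, ht, he⟩ := h
  obtain ⟨g, hg0, hg⟩ := exists_unit hF hi
  obtain ⟨n, r, hnr, h6, h7⟩ := kos_num (by omega) hδ h3 h4 h5 hg0 hg
  obtain ⟨κ, _, _, U, V, hf⟩ := exists_frame F (nu (fun i => 2 * μ i + par i * d) 0)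
  obtain ⟨u, eu⟩ := hf.desc hf (typ_ezero hδ hg0 0)
  have hu := hf.idem (ezero_idem hδ hg) eu
  obtain ⟨t', a, ht', h8⟩ := fibre_mf hk hN hd hF hi hδ he hω hx hcl hP hg hf eu
  obtain ⟨h0, q, hq⟩ := ht.mul ht'
  rw [mul_assoc, hq] at h8
  refine ⟨q, n, r, a, _, u.submatrix (Fintype.equivFin κ).symm (Fintype.equivFin κ).symm,
    fun h => h0 (by rw [hq, h, Rat.cast_zero]), hnr, by rw [Matrix.submatrix_mul_equiv, hu],
    by rwa [chw_submatrix], ?_, fun hA => alg_test hT hA h8 fun {N' F' φ ρ} hS hφ => ?_⟩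
  · have h9 := h8.exB.hh_mul 1
    have h10 := h6 hf
    rw [← phiB_cc eu] at h10
    rw [map_sub, map_sub, (isDG_B F).smul, (isDG_B F).smul, phiB_prj'] at h9
    convert h9.add (h10.smul (c * q)) using 1
    simp only [mul_sub, mul_smul_comm, smul_sub, smul_smul, pow_succ', add_smul,
      mul_assoc, pow_zero, mul_one]
    abel
  · obtain ⟨κ', _, _, U', V', hf'⟩ := exists_frame F' (nu (fun i => 2 * μ i + par i * d) 0)
    convert (hS.cc hf hf' (ezero_idem hδ hg) (typ_ezero hδ hg0 0) eu k).add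
      (h7 hS (fun i j hij => hφ _ (hI i j hij)) hf') using 1
    abel

variable {A : Type} [CommRing A] [IsDomain A] [Algebra ℂ A] [Algebra.Smooth ℂ A]

theorem exists_kd {k d : ℕ} (hk : 2 ≤ k) (hd : 3 ≤ d) (hkd : ¬ (k = 2 ∧ d = 3))
    (hN : N = k + 1 + (k + 1)) {F β : Pol N A} (hF : F.IsHomogeneous d)
    (hs : ∀ (s : A →ₐ[ℂ] ℂ) (z : Fin N → ℂ),
      (∀ i, eval z (pderiv i (map (s : A →+* ℂ) F)) = 0) → z = 0)
    (hβ : β.totalDegree ≤ (k + 1) * (d - 2))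
    (hflat : ∀ D : Derivation ℂ A A, Exact F (coeffMap D β + coeffMap D F * β))
    {s₁ : A →ₐ[ℂ] ℂ} (h0 : ¬ Exact (map (s₁ : A →+* ℂ) F) (map (s₁ : A →+* ℂ) β))
    (h1 : (d + (2 * k + 1)).choose d + (k + 1) ^ 2 ≤ finrank ℂ (MC.tang F s₁) + (d + k).choose k ∨
      (d + (2 * k + 1)).choose d + (k + 1) ^ 2 + k + (k + 2).choose 2 <
        finrank ℂ (MC.tang F s₁) + (d + k).choose k + (d - 1 + k).choose k ∨
      5 ≤ d ∧ finrank ℂ (MC.tang F s₁) + (d + k).choose k + (d - 1 + k).choose k =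
        (d + (2 * k + 1)).choose d + (k + 1) ^ 2 + k + (k + 2).choose 2) :
    ∃ c : ℂ, ∀ s : A →ₐ[ℂ] ℂ, KD k d (map (s : A →+* ℂ) F) (map (s : A →+* ℂ) β) c := by
  subst hN
  obtain ⟨g1, g2⟩ := MC.main2 k d hk hd hkd A F β hF hs hβ hflat s₁ h0
  obtain ⟨n, c, hn, h2⟩ := g2 (h1.imp_left (le_antisymm g1))
  have hn' : n = 1 ∨ n = 2 := hn.imp_right And.left
  refine ⟨c, fun s => ?_⟩
  obtain ⟨q, r, x, g, hq, hr, hx, hg, h3, h4⟩ := h2 s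
  have h5 : map (s : A →+* ℂ) F = ∑ i, (Fin.cons q x : Fin (k + 1) → _) i *
      (Fin.cons r g : Fin (k + 1) → _) i := by
    rw [h3, Fin.sum_univ_succ]
    rfl
  obtain ⟨ι, _, _, par, μ, δ, t, a1, a2, a3, a4, a5, a6, a7⟩ :=
    exists_koszul (d := d) (Fin.cons n fun _ => 1 : Fin (k + 1) → ℕ)
      (fun i => Fin.cases (show n < d by omega) (fun _ => show 1 < d by omega) i)
      (Fin.cons q x) (Fin.cons r g) (fun i => Fin.cases hq hx i) fun i => Fin.cases hr hg i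
  refine ⟨_, ι, inferInstance, inferInstance, par, μ, δ, t⁻¹, exists_test le_rfl hn' hq hx ?_,
    h5 ▸ a1, a2, a3, a4, a5, a6.inv, ?_⟩
  · rw [h5]
    exact Ideal.sum_mem _ fun i _ => Ideal.mul_mem_right _ _ (Ideal.subset_span ⟨i, rfl⟩)
  · rwa [a7, smul_smul, mul_assoc, inv_mul_cancel₀ a6.1, mul_one]

theorem chern_of_exact {k d : ℕ} (hd : 2 ≤ d) (hN : N = 2 * (k + 1)) {F β : Pol N A}
    (hF : F.IsHomogeneous d) (hs : ∀ (s : A →ₐ[ℂ] ℂ) (z : Fin N → ℂ),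
      (∀ i, eval z (pderiv i (map (s : A →+* ℂ) F)) = 0) → z = 0)
    (hβ : β.totalDegree ≤ (k + 1) * (d - 2))
    (hflat : ∀ D : Derivation ℂ A A, Exact F (coeffMap D β + coeffMap D F * β))
    {s₁ : A →ₐ[ℂ] ℂ} (h0 : Exact (map (s₁ : A →+* ℂ) F) (map (s₁ : A →+* ℂ) β))
    (s : A →ₐ[ℂ] ℂ) : IsChern d (map (s : A →+* ℂ) F) (map (s : A →+* ℂ) β) := by
  subst hN
  exact main k d hd A F β hF hs hβ hflat s₁ 0 (fun _ => 1) (fun a => a.elim0) (fun _ => ⊥)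
    (fun a => a.elim0) (fun _ => Unit) (fun _ _ => 0) (fun _ _ => 0) (fun _ => 0)
    (fun a => a.elim0) (fun a => a.elim0) (fun _ _ _ a => a.elim0) (by simpa using h0) s

theorem main_lf {k d : ℕ} (hk : 2 ≤ k) (hd : 3 ≤ d) (hkd : ¬ (k = 2 ∧ d = 3))
    (hN : N = 2 * (k + 1)) {F : Pol N A} (hF : F.IsHomogeneous d)
    (hs : ∀ (s : A →ₐ[ℂ] ℂ) (z : Fin N → ℂ),
      (∀ i, eval z (pderiv i (map (s : A →+* ℂ) F)) = 0) → z = 0)
    {ω : Form (Jou F)} (hω : ω ∈ ⋀[Jou F]^(2 * k) Ω[Jou F⁄ℂ])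
    (hflat : ∃ η ∈ base 2 F, IsD ω η)
    (hhodge : ∀ s : A →ₐ[ℂ] ℂ, ∃ μ ∈ hodge k (map (s : A →+* ℂ) F),
      IsExact (pull (fib F s) ω - μ)) {s₁ : A →ₐ[ℂ] ℂ}
    (h1 : (d + (2 * k + 1)).choose d + (k + 1) ^ 2 ≤ finrank ℂ (MC.tang F s₁) + (d + k).choose k ∨
      (d + (2 * k + 1)).choose d + (k + 1) ^ 2 + k + (k + 2).choose 2 <
        finrank ℂ (MC.tang F s₁) + (d + k).choose k + (d - 1 + k).choose k ∨
      5 ≤ d ∧ finrank ℂ (MC.tang F s₁) + (d + k).choose k + (d - 1 + k).choose k =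
        (d + (2 * k + 1)).choose d + (k + 1) ^ 2 + k + (k + 2).choose 2)
    {s₀ : A →ₐ[ℂ] ℂ} (h0 : Alg k _ (pull (fib F s₀) ω)) (s : A →ₐ[ℂ] ℂ) :
    Alg k _ (pull (fib F s) ω) := by
  have hN0 : 0 < N := by omega
  have hk1 : 1 ≤ k := by omega
  have hd2 : 2 ≤ d := by omega
  have hi := fun s => isol_of_smooth (hs s)
  have hz := fun s => ne_zero_of_isol hN0 (hi s)
  have hF0 : F ≠ 0 := fun h => hz s (by rw [h, map_zero])
  obtain ⟨η, hη, hD⟩ := hflat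
  obtain ⟨x, hx, ex⟩ := lift_deg hω
  have hcl : dx x ∈ JJ F := by
    rw [← Ideal.Quotient.eq_zero_iff_mem, ← ST_d, ex, ← (isDG_B F).isD hD]
    exact phiB_base (by omega) hη
  have hcl' : ∀ s : A →ₐ[ℂ] ℂ, dx (mapc (mapAlgHom s) x) ∈ JJ (map (s : A →+* ℂ) F) := fun s => by
    rw [← mapc_dx]
    exact mapc_JJ s hcl
  obtain ⟨Q, hQ⟩ := rp_exists (by omega) hF0 hF (by rw [hN]; push_cast; ring) hx hcl
  obtain ⟨P, hP, hQP⟩ := deg_reduce (P := Q) (e := (k + 1) * (d - 2)) hd2 hF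
    (by have : d - 2 ≤ (k + 1) * (d - 2) := Nat.le_mul_of_pos_left _ (by omega); omega)
    (fun s => (hi s).regAll hd2 (hF.map _)) fun s => by
      obtain ⟨μ, h1, h2⟩ := hhodge s
      exact hodge_fibre hk1 hN hd2 (hF.map _) (hz s) h1 h2
        (phiB_fib s ex) (mapc_mem s hx) (hcl' s) (hQ.map s)
  have hR := hQ.of_exact hQP
  have hfl := rp_flat hN0 hF0 hF hD hη ex hR
  obtain ⟨z, g, z1, z2, z3, z4⟩ := gy_const hN hF0 hF hω hD hη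
  have hdeg : ∀ (s : A →ₐ[ℂ] ℂ) (ρ : ℂ), ExB (map (s : A →+* ℂ) F)
      (hh _ * phiB _ (pull (fib F s) ω) - ρ • hh _ ^ (k + 1)) → s g = ρ * d := fun s ρ h => by
    rw [← phiB_fib s z1] at h
    exact gy_value hk1 hN (hz s) (hF.map _) (z2.map s) (z3.map s) h
  obtain ⟨ρ, hρ⟩ := alg_deg hN0 (hz s₀) (hF.map _) (by omega) h0
  have hdeg' : ∀ (s : A →ₐ[ℂ] ℂ) (ρ' : ℂ), ExB (map (s : A →+* ℂ) F)
      (hh _ * phiB _ (pull (fib F s) ω) - ρ' • hh _ ^ (k + 1)) → ρ' = ρ := fun s ρ' h =>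
    mul_right_cancel₀ (Nat.cast_ne_zero.2 (by omega : d ≠ 0))
      ((hdeg s ρ' h).symm.trans ((z4 s s₀).trans (hdeg s₀ ρ hρ)))
  suffices h : ∃ (t q : ℚ) (a : ℂ) (l : ℕ) (e : Matrix (Fin l) (Fin l) (Jou (map (s : A →+* ℂ) F))),
      e * e = e ∧ IsExact (pull (fib F s) ω - (t : ℂ) • chw k e - a • chw k (prj _)) ∧
      t * q + a = ρ by
    obtain ⟨t, q, a, l, e, h2, h3, h4⟩ := h
    refine ⟨_, add_mem (AddSubgroup.subset_closure ⟨t, l, e, h2, rfl⟩)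
      (AddSubgroup.subset_closure ⟨ρ - t * q, _, prj _, prj_idem _, rfl⟩), ?_⟩
    rwa [← sub_sub, show ((ρ - t * q : ℚ) : ℂ) = a by push_cast; linear_combination -h4]
  by_cases hE : Exact (map (s₁ : A →+* ℂ) F) (map (s₁ : A →+* ℂ) P)
  · obtain ⟨t, a, q, l, e, ⟨-, t, rfl⟩, h3, h4, h5⟩ := end_fibre2 hk1 hN hd2 (hF.map _) (hi s)
      (r := 1) (chern_of_exact hd2 hN hF hs hP hfl hE s) (pull_deg _ hω) (phiB_fib s ex) (hcl' s)
      (by rw [one_smul]; exact hR.map s)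
    rw [one_mul] at h4 h5
    exact ⟨t, q, a, l, e, h3, h4, hdeg' s _ h5⟩
  · obtain ⟨c, hc⟩ := exists_kd hk hd hkd (by omega) hF hs hP hfl hE h1
    have key := fun s => fibre_kd hk1 hN hd2 (hF.map _) (hi s) (hc s) (pull_deg _ hω)
      (phiB_fib s ex) (hcl' s) (hR.map s)
    obtain ⟨t₀, n₀, r₀, a₀, -, -, b1, b2, -, -, b3, b4⟩ := key s₀
    obtain ⟨m, hm⟩ := b4 h0
    have b5 := hdeg' s₀ _ b3
    obtain ⟨c', rfl⟩ : ∃ c' : ℚ, c = c' := by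
      have b6 : (t₀ : ℂ) ≠ 0 := Rat.cast_ne_zero.2 b1
      have b7 : (n₀ : ℂ) - r₀ ≠ 0 := sub_ne_zero.2 fun h => b2 (Rat.cast_injective h)
      refine ⟨(m - ρ) / (t₀ * (n₀ - r₀)), ?_⟩
      push_cast
      rw [eq_div_iff (mul_ne_zero b6 b7)]
      linear_combination hm - b5
    obtain ⟨t, n, r, a, l, e, -, -, h2, h3, h4, -⟩ := key s
    exact ⟨c' * t, r, a, l, e, h2, by rwa [Rat.cast_mul], by rw [Rat.cast_mul]; exact hdeg' s _ h4⟩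

theorem alg_iff {k : ℕ} {F : Pol N ℂ} (ω : DS.Form (DS.Jou F)) : DS.IsAlg k ω ↔ Alg k F ω := by
  have h : {γ : DS.Form (DS.Jou F) | ∃ (c : ℚ) (n : ℕ) (e : Matrix (Fin n) (Fin n) (DS.Jou F)),
      e * e = e ∧ γ = DS.fn (algebraMap ℂ _ c) * DS.chw k e} = {γ : Form (Jou F) | ∃ (c : ℚ) (n : ℕ)
        (e : Matrix (Fin n) (Fin n) (Jou F)), e * e = e ∧ γ = (c : ℂ) • chw k e} := by
    ext γ
    refine exists_congr fun c => exists_congr fun n => exists_congr fun e => ?_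
    rw [DS.sc_eq]
    exact Iff.rfl
  unfold DS.IsAlg
  rw [h]
  exact exists_congr fun γ => and_congr Iff.rfl (DS.isExact_iff _)

theorem main_ds {k d : ℕ} (hk : 2 ≤ k) (hd : 3 ≤ d) (hkd : ¬ (k = 2 ∧ d = 3))
    (hN : N = 2 * k + 2) {F : MvPolynomial (Fin N) A} (hF : F.IsHomogeneous d)
    (hs : ∀ (s : A →ₐ[ℂ] ℂ) (z : Fin N → ℂ), (∀ i, eval z (pderiv i (DS.fibre F s)) = 0) → z = 0)
    {ω : DS.Form (DS.Jou F)} (hω : DS.HasDeg (2 * k) ω) (hflat : DS.Flat (DS.base F) ω)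
    (hhodge : ∀ s : A →ₐ[ℂ] ℂ, DS.InFil (DS.hodge (DS.fibre F s)) k (DS.res F s ω))
    {s₁ : A →ₐ[ℂ] ℂ}
    (h1 : (d + (2 * k + 1)).choose d + (k + 1) ^ 2 ≤ finrank ℂ (MC.tang F s₁) + (d + k).choose k ∨
      (d + (2 * k + 1)).choose d + (k + 1) ^ 2 + k + (k + 2).choose 2 <
        finrank ℂ (MC.tang F s₁) + (d + k).choose k + (d - 1 + k).choose k ∨
      5 ≤ d ∧ (d + (2 * k + 1)).choose d + (k + 1) ^ 2 + k + (k + 2).choose 2 ≤
        finrank ℂ (MC.tang F s₁) + (d + k).choose k + (d - 1 + k).choose k)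
    {s₀ : A →ₐ[ℂ] ℂ} (h0 : DS.IsAlg k (DS.res F s₀ ω)) (s : A →ₐ[ℂ] ℂ) :
    DS.IsAlg k (DS.res F s ω) := by
  rw [alg_iff, DS.res_eq] at h0 ⊢
  exact main_lf hk hd hkd (by omega) hF hs hω
    (by
      obtain ⟨η, h1, h2⟩ := hflat
      exact ⟨η, DS.base_dr h1, (DS.isD_iff _ _).1 h2⟩)
    (fun t => by
      obtain ⟨μ, h1, h2⟩ := hhodge t
      rw [DS.res_eq] at h2
      exact ⟨μ, DS.hodge_dr h1, (DS.isExact_iff _).1 h2⟩)
    (s₁ := s₁) (by omega) h0 s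

end Pool.Agent.Lib.MP_e9c0f3_ag.LF
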