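import Pool.Agent.Lib.MP_e9c0f3_ag.LF.Sub

/-! The degree of a complete intersection differs from its self-intersection. -/

open MvPolynomial Sum Matrix

namespace Pool.Agent.Lib.MP_e9c0f3_ag.LF

open DR Om

variable {N : ℕ} {F : Pol N ℂ} {ι κ : Type} [Fintype ι] [DecidableEq ι] [Fintype κ] [DecidableEq κ]

theorem num_rec {X : ℕ → OO N ℂ ⧸ JJ F} {c : ℤ} (hc : c ≠ 0) {n : ℕ → ℤ}
    (h : ∀ m, ExB F (X m - ∑ l ∈ Finset.range (m + 1),
      ((m.choose l : ℂ) * (c : ℂ) ^ l) • (hh F ^ l * X (m - l)) - (n m : ℂ) • hh F ^ m))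
    {r : ℕ → ℚ} {M : ℕ} (hr : ∀ i ≤ M, ((i + 1) * c : ℚ) * r i + ∑ l ∈ Finset.range i,
      ((i + 1).choose (l + 1 + 1) : ℚ) * (c : ℚ) ^ (l + 1 + 1) * r (i - 1 - l) = -n (i + 1))
    (i : ℕ) (hi : i ≤ M) : ExB F (hh F * X i - (r i : ℂ) • hh F ^ (i + 1)) := by
  induction i using Nat.strong_induction_on with
  | _ i ih =>
  have hn := h (i + 1)
  rw [Finset.sum_range_succ', Finset.sum_range_succ'] at hn
  have hS := exB_sum (F := F) (Finset.range i) (z := fun l =>
    (((i + 1).choose (l + 1 + 1) : ℂ) * (c : ℂ) ^ (l + 1 + 1)) •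
      (hh F ^ (l + 1 + 1) * X (i + 1 - (l + 1 + 1)) - (r (i - 1 - l) : ℂ) • hh F ^ (i + 1)))
    fun l hl => by
      have hl' := Finset.mem_range.1 hl
      have h1 := (ih (i - 1 - l) (by omega) (by omega)).hh_mul (l + 1)
      rw [mul_sub, ← mul_assoc, ← pow_succ, mul_smul_comm, ← pow_add,
        show l + 1 + (i - 1 - l + 1) = i + 1 by omega,
        show i - 1 - l = i + 1 - (l + 1 + 1) by omega] at h1
      rw [show i - 1 - l = i + 1 - (l + 1 + 1) by omega]
      exact h1.smul _
  have hc' : (c : ℂ) ≠ 0 := by exact_mod_cast hc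
  have hi' : ((i : ℂ) + 1) ≠ 0 := by exact_mod_cast Nat.succ_ne_zero i
  have h3 := congrArg (fun q : ℚ => (q : ℂ)) (hr i hi)
  push_cast at h3
  have h2 := (hn.add hS).smul (-(((i : ℂ) + 1) * c)⁻¹)
  simp only [smul_sub, Finset.sum_sub_distrib, smul_smul, ← Finset.sum_smul] at h2
  convert h2 using 1
  simp only [zero_add, Nat.choose_one_right, pow_one, Nat.add_sub_cancel, Nat.choose_zero_right,
    pow_zero, one_mul, Nat.sub_zero, Nat.cast_one, one_smul]
  push_cast
  generalize ∑ l ∈ Finset.range i, (((i + 1).choose (l + 1 + 1) : ℂ) * (c : ℂ) ^ (l + 1 + 1)) •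
    (hh F ^ (l + 1 + 1) * X (i + 1 - (l + 1 + 1))) = Y
  generalize ∑ l ∈ Finset.range i, ((i + 1).choose (l + 1 + 1) : ℂ) * (c : ℂ) ^ (l + 1 + 1) *
    (r (i - 1 - l) : ℂ) = s at h3 ⊢
  obtain rfl : s = -(n (i + 1) : ℂ) - (i + 1) * c * r i := by linear_combination h3
  match_scalars <;> field_simp <;> ring

theorem num_aux {par : ι → ℕ} {δ η : Matrix ι ι (DR.TT F)} {ν₀ ν₁ : ι → ℤ} {d : ℤ}
    (oδ : ∀ i j, δ i j ≠ 0 → Odd (par i + par j)) (oη : ∀ i j, η i j ≠ 0 → Odd (par i + par j))
    (h0 : δ * δ = 0) (h1 : δ * η + η * δ = 1) (t1 : Typ F ν₁ ν₀ δ) (t2 : Typ F ν₀ ν₁ η)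
    (t3 : Typ F (fun i => ν₀ i + -d) ν₁ δ) (t4 : Typ F ν₁ (fun i => ν₀ i + -d) η)
    {U : Matrix κ ι (DR.TT F)} {V : Matrix ι κ (DR.TT F)} (hf : Frame F ν₀ U V) (m : ℕ) :
    ExB F (cc F m U (δ * η * diagonal fun i => if Even (par i) then 1 else 0) V -
      ∑ l ∈ Finset.range (m + 1), ((m.choose l : ℂ) * ((-d : ℤ) : ℂ) ^ l) • (hh F ^ l *
        cc F (m - l) U (δ * η * diagonal fun i => if Even (par i) then 1 else 0) V) -
      (((∑ i, if Even (par i) then ν₀ i ^ m else 0) -
        ∑ i, if ¬Even (par i) then ν₁ i ^ m else 0 : ℤ) : ℂ) • hh F ^ m) := by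
  obtain ⟨κ₁, _, _, U₁, V₁, hf₁⟩ := exists_frame F ν₁
  obtain ⟨κ₂, _, _, U₂, V₂, hf₂⟩ := exists_frame F fun i => ν₀ i + -d
  have xp := SD.cw_odd_mul par oδ
  have yp := SD.cw_odd_mul par oη
  have tp := fun ν : ι → ℤ => typ_diag (F := F) ν fun i => Even (par i)
  have tq := fun ν : ι → ℤ => typ_diag (F := F) ν fun i => ¬Even (par i)
  have dp := hf.diag fun i => Even (par i)
  have dq := hf₁.diag fun i => ¬Even (par i)
  have hq : (Matrix.diagonal fun i => if ¬Even (par i) then (1 : DR.TT F) else 0) =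
      1 - Matrix.diagonal fun i => if Even (par i) then (1 : DR.TT F) else 0 := by
    rw [← Matrix.diagonal_one, Matrix.diagonal_sub]
    congr 1
    funext i
    by_cases h : Even (par i) <;> simp [h]
  have hp : (Matrix.diagonal fun i => if Even (par i) then (1 : DR.TT F) else 0) *
      (Matrix.diagonal fun i => if Even (par i) then (1 : DR.TT F) else 0) =
        Matrix.diagonal fun i => if Even (par i) then (1 : DR.TT F) else 0 := by
    rw [Matrix.diagonal_mul_diagonal]
    congr 1
    funext i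
    split_ifs <;> simp
  rw [hq] at tq dq
  generalize (Matrix.diagonal fun i => if Even (par i) then (1 : DR.TT F) else 0) = p at *
  have hqq : (1 - p) * (1 - p) = 1 - p := by rw [sub_mul, one_mul, mul_sub, mul_one, hp]; simp
  have xq : δ * (1 - p) = p * δ := by rw [mul_sub, xp, sub_mul]; simp
  have yq : η * (1 - p) = p * η := by rw [mul_sub, yp, sub_mul]; simp
  obtain ⟨a1, a2, a3, a4, a5, a6, a7⟩ := rat_ring h0 h1 hp xp yp xq yq
  obtain ⟨b1, b2, b3, b4, b5, b6, b7⟩ := rat_ring h0 h1 hqq xq yq xp yp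
  generalize 1 - p = q at *
  have s1 := hf.add ((rat_typ_shift (t3.mul t4)).mul (tp _)) ((t2.mul t1).mul (tp _)) a1 a2 a3 a4 m
  have s2 := hf.uv hf₁ (t2.mul (tq _)) (t1.mul (tp _)) (by rw [a6, a2]) (by rw [b7, b1]) m
  have s3 := hf₁.add ((t1.mul t2).mul (tq _)) ((t4.mul t3).mul (tq _)) b1 b2 b3 b4 m
  have s4 := hf₁.uv hf₂ (t4.mul (tp _)) (t3.mul (tq _)) (by rw [b6, b2]) (by rw [a7, a1]) m
  rw [a5, dp] at s1
  rw [a6, b7] at s2
  rw [b5, dq] at s3
  rw [b6, a7, hf.shift hf₂ a1] at s4
  convert ((s3.sub s1).sub s2).add s4 using 1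
  rw [Int.cast_sub, sub_smul]
  abel

/-- The projector onto the basis vectors whose degree lies in `S`. -/
def dgp (R : Type) [CommRing R] (par : ι → ℕ) (S : ℕ → Prop) [DecidablePred S] : Matrix ι ι R :=
  diagonal fun i => if S (par i) then 1 else 0

section

variable {R : Type} [CommRing R] {par : ι → ℕ}

theorem dgp_comm {x : Matrix ι ι R} {S S' : ℕ → Prop} [DecidablePred S] [DecidablePred S']
    (h : ∀ i j, x i j ≠ 0 → (S (par j) ↔ S' (par i))) : x * dgp R par S = dgp R par S' * x := by
  ext i j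
  rw [dgp, dgp, mul_diagonal, diagonal_mul]
  by_cases h0 : x i j = 0
  · simp [h0]
  · simp [h i j h0]

theorem dgp_mul {S S' S'' : ℕ → Prop} [DecidablePred S] [DecidablePred S'] [DecidablePred S'']
    (h : ∀ n, S'' n ↔ S n ∧ S' n) : dgp R par S * dgp R par S' = dgp R par S'' := by
  rw [dgp, dgp, dgp, diagonal_mul_diagonal]
  congr 1
  funext i
  by_cases h1 : S (par i) <;> by_cases h2 : S' (par i) <;> simp [h, h1, h2]

omit [Fintype ι] in
theorem dgp_zero {S : ℕ → Prop} [DecidablePred S] (h : ∀ n, ¬S n) : dgp R par S = 0 := by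
  simp [dgp, h]

end

/-- The degree of the bundle of cycles of an exact complex. -/
def yy (par : ι → ℕ) (μ : ι → ℤ) (d : ℤ) (m j : ℕ) (c : ℤ) : ℤ :=
  ∑ i, if par i < j then (-1) ^ (j + 1 + par i) * (μ i + (c + j * d) / 2) ^ m else 0

theorem num_test {par : ι → ℕ} {μ : ι → ℤ} {d : ℤ} {x η : Matrix ι ι (DR.TT F)}
    (hx : ∀ i j, x i j ≠ 0 → par j + 1 = par i) (oη : ∀ i j, η i j ≠ 0 → Odd (par i + par j))
    (h0 : x * x = 0) (h1 : x * η + η * x = 1)
    (t1 : ∀ c, Typ F (nu (fun i => 2 * μ i + par i * d) (c - d))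
      (nu (fun i => 2 * μ i + par i * d) c) x)
    (t2 : ∀ c, Typ F (nu (fun i => 2 * μ i + par i * d) c)
      (nu (fun i => 2 * μ i + par i * d) (c - d)) η)
    {U₀ : Matrix κ ι (DR.TT F)} {V₀ : Matrix ι κ (DR.TT F)}
    (hf₀ : Frame F (nu (fun i => 2 * μ i + par i * d) 0) U₀ V₀) {L : ℕ} (hL : ∀ i, par i < 2 * L)
    (m : ℕ) : ExB F (cc F m U₀ (x * η * dgp _ par Even) V₀ -
      ((∑ l ∈ Finset.range L, yy par μ d m (2 * l) 0 : ℤ) : ℂ) • hh F ^ m) := by
  obtain ⟨ν, hν⟩ : ∃ ν, ν = nu fun i => 2 * μ i + par i * d := ⟨_, rfl⟩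
  rw [← hν] at t1 t2 hf₀
  choose κ' _ _ U V hf using fun c => exists_frame F (ν c)
  let y : Matrix ι ι (DR.TT F) := Matrix.of fun i j => if par i + 1 = par j then η i j else 0
  have hy : ∀ i j, y i j ≠ 0 → par i + 1 = par j := fun i j h => by_contra fun h' => h (if_neg h')
  have ty : ∀ c, Typ F (ν c) (ν (c - d)) y := fun c i j => by
    by_cases h : par i + 1 = par j
    · rw [show y i j = η i j from if_pos h]
      exact t2 c i j
    · rw [show y i j = 0 from if_neg h]
      exact wt_zero _
  have h2 : x * y + y * x = 1 := by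
    ext i l : 1
    by_cases h : par i = par l
    · rw [← h1, Matrix.add_apply, Matrix.add_apply, mul_apply, mul_apply, mul_apply, mul_apply]
      congr 1
      · refine Finset.sum_congr rfl fun j _ => ?_
        by_cases h3 : x i j = 0
        · rw [h3, zero_mul, zero_mul]
        · rw [show y j l = η j l from if_pos ((hx i j h3).trans h)]
      · refine Finset.sum_congr rfl fun j _ => ?_
        by_cases h3 : x j l = 0
        · rw [h3, mul_zero, mul_zero]
        · rw [show y i j = η i j from if_pos (h ▸ hx j l h3)]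
    · rw [Matrix.add_apply, mul_apply, mul_apply, one_apply_ne fun e => h (by rw [e]),
        Finset.sum_eq_zero, Finset.sum_eq_zero, add_zero]
      · intro j _
        by_contra h3
        have := hy i j (left_ne_zero_of_mul h3)
        have := hx j l (right_ne_zero_of_mul h3)
        omega
      · intro j _
        by_contra h3
        have := hx i j (left_ne_zero_of_mul h3)
        have := hy j l (right_ne_zero_of_mul h3)
        omega
  clear_value y
  have txy : ∀ c, Typ F (ν c) (ν c) (x * y) := fun c => by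
    simpa using (t1 (c + d)).mul (ty (c + d))
  have txη : Typ F (ν 0) (ν 0) (x * η) := by simpa using (t1 (0 + d)).mul (t2 (0 + d))
  have td : ∀ c (S : ℕ → Prop) [DecidablePred S], Typ F (ν c) (ν c) (dgp _ par S) :=
    fun c S _ => typ_diag _ fun i => S (par i)
  have e1 : x * y * x = x := by
    rw [mul_assoc, eq_sub_of_add_eq' h2, mul_sub, mul_one, ← mul_assoc, h0, zero_mul, sub_zero]
  have e2 : x * η * x = x := by
    rw [mul_assoc, eq_sub_of_add_eq' h1, mul_sub, mul_one, ← mul_assoc, h0, zero_mul, sub_zero]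
  have c1 : ∀ (S : ℕ → Prop) [DecidablePred S], y * x * dgp _ par S = dgp _ par S * (y * x) :=
    fun S _ => by
      rw [mul_assoc, dgp_comm (S' := fun n => S (n - 1)) fun i j h => by simp [← hx i j h],
        ← mul_assoc, dgp_comm (S' := S) fun i j h => by simp [← hy i j h], mul_assoc]
  have c2 : ∀ (S : ℕ → Prop) [DecidablePred S], dgp _ par S * (x * y) = x * y * dgp _ par S :=
    fun S _ => by rw [eq_sub_of_add_eq h2, mul_sub, sub_mul, c1, mul_one, one_mul]
  have m1 : ∀ (S S' : ℕ → Prop) [DecidablePred S] [DecidablePred S'],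
      x * y * dgp _ par S * (x * y * dgp _ par S') = x * y * (dgp _ par S * dgp _ par S') :=
    fun S S' _ _ => by
      rw [mul_assoc (x * y), ← mul_assoc (dgp _ par S), c2, mul_assoc (x * y) (dgp _ par S),
        ← mul_assoc, ← mul_assoc (x * y) x, e1]
  have pp : ∀ (S : ℕ → Prop) [DecidablePred S], dgp (DR.TT F) par S * dgp _ par S = dgp _ par S :=
    fun S _ => dgp_mul fun n => by simp
  have step : ∀ (j : ℕ) c, ExB F (cc F m (U c) (x * y * dgp _ par (· = j)) (V c) -
      (yy par μ d m j c : ℂ) • hh F ^ m) := by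
    intro j
    induction j with
    | zero =>
      intro c
      have e3 : y * dgp _ par (· = 0) = 0 := by
        rw [dgp_comm (S' := fun _ => False) fun i j h => by simp [← hy i j h],
          dgp_zero fun _ h => h, zero_mul]
      have e4 := (hf c).add (typ_zero _ _) (typ_zero _ _) (mul_zero 0) (mul_zero 0) (mul_zero 0)
        (mul_zero 0) m
      rw [add_zero, sub_self, zero_sub] at e4
      rw [mul_assoc, e3, mul_zero, yy]
      simpa using e4.neg
    | succ j ih =>
      intro c
      have x1 : x * dgp _ par (· = j) = dgp _ par (· = j + 1) * x :=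
        dgp_comm fun i l h => by simp [← hx i l h]
      have y1 : y * dgp _ par (· = j + 1) = dgp _ par (· = j) * y :=
        dgp_comm fun i l h => by simp [← hy i l h]
      have a1 : y * dgp _ par (· = j + 1) * (x * dgp _ par (· = j)) = y * x * dgp _ par (· = j) := by
        rw [x1, mul_assoc, ← mul_assoc (dgp _ par _), pp, ← x1, mul_assoc]
      have a2 : x * dgp _ par (· = j) * (y * dgp _ par (· = j + 1)) =
          x * y * dgp _ par (· = j + 1) := by
        rw [y1, mul_assoc, ← mul_assoc (dgp _ par _), pp, ← y1, mul_assoc]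
      have a3 : y * x * dgp _ par (· = j) * (y * x * dgp _ par (· = j)) =
          y * x * dgp _ par (· = j) := by
        rw [mul_assoc (y * x), ← mul_assoc (dgp _ par _), ← c1, mul_assoc (y * x) (dgp _ par _), pp,
          ← mul_assoc, mul_assoc y, ← mul_assoc x, e1]
      have a4 : x * y * dgp _ par (· = j) + y * x * dgp _ par (· = j) = dgp _ par (· = j) := by
        rw [← add_mul, h2, one_mul]
      have a5 := m1 (· = j) (· = j)
      rw [pp] at a5
      have s1 := (hf (c + d)).add ((txy _).mul (td _ (· = j)))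
        (((ty _).mul (t1 _)).mul (td _ (· = j))) a5 a3
        (by rw [eq_sub_of_add_eq' a4, mul_sub, a5, mul_assoc (x * y), pp, sub_self])
        (by rw [eq_sub_of_add_eq' a4, sub_mul, a5, ← mul_assoc, c2, mul_assoc (x * y), pp,
          sub_self]) m
      have s2 := (hf (c + d)).uv (hf (c + d - d)) ((ty _).mul (td _ (· = j + 1)))
        ((t1 _).mul (td _ (· = j))) (by rw [a1, a3]) (by rw [a2, m1, pp]) m
      have s3 : cc F m (U (c + d)) (dgp _ par (· = j)) (V (c + d)) = _ :=
        (hf (c + d)).diag (fun i => par i = j) m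
      rw [a1, a2, add_sub_cancel_right] at s2
      rw [a4] at s1
      have e3 : yy par μ d m (j + 1) c =
          (∑ i, if par i = j then ν (c + d) i ^ m else 0) - yy par μ d m j (c + d) := by
        rw [yy, yy, ← Finset.sum_sub_distrib]
        refine Finset.sum_congr rfl fun i _ => ?_
        rw [show c + ((j + 1 : ℕ) : ℤ) * d = c + d + j * d by push_cast; ring]
        rcases lt_trichotomy (par i) j with h | h | h
        · rw [if_pos (by omega), if_neg (by omega), if_pos h,
            show j + 1 + 1 + par i = j + 1 + par i + 1 by ring, pow_succ]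
          ring
        · rw [if_pos (by omega), if_pos h, if_neg (by omega), hν, nu, h,
            Even.neg_one_pow ⟨j + 1, by ring⟩, one_mul, sub_zero]
          congr 1
          omega
        · rw [if_neg (by omega), if_neg (by omega), if_neg (by omega), sub_zero]
      rw [e3]
      convert (s1.add s2).neg.sub (ih (c + d)) using 1
      rw [s3, Int.cast_sub, sub_smul]
      abel
  have sum : ∀ n : ℕ, ExB F (cc F m (U 0) (x * y * dgp _ par fun p => Even p ∧ p < 2 * n) (V 0) -
      ((∑ l ∈ Finset.range n, yy par μ d m (2 * l) 0 : ℤ) : ℂ) • hh F ^ m) := by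
    intro n
    induction n with
    | zero =>
      have e4 := (hf 0).add (typ_zero _ _) (typ_zero _ _) (mul_zero 0) (mul_zero 0) (mul_zero 0)
        (mul_zero 0) m
      rw [add_zero, sub_self, zero_sub] at e4
      rw [dgp_zero fun _ h => by omega, mul_zero]
      simpa using e4.neg
    | succ n ih =>
      have a1 : (dgp (DR.TT F) par fun p => Even p ∧ p < 2 * (n + 1)) =
          (dgp _ par fun p => Even p ∧ p < 2 * n) + dgp _ par (· = 2 * n) := by
        rw [dgp, dgp, dgp, diagonal_add]
        congr 1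
        funext i
        simp only [Nat.even_iff]
        split_ifs <;> first | omega | simp
      have s1 := (hf 0).add ((txy _).mul (td _ fun p => Even p ∧ p < 2 * n))
        ((txy _).mul (td _ (· = 2 * n))) (by rw [m1, pp]) (by rw [m1, pp])
        (by rw [m1, dgp_mul (S'' := fun _ => False) fun n => by simp; omega,
          dgp_zero fun _ h => h, mul_zero])
        (by rw [m1, dgp_mul (S'' := fun _ => False) fun n => by simp; omega,
          dgp_zero fun _ h => h, mul_zero]) m
      rw [a1, mul_add, Finset.sum_range_succ]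
      convert (s1.add ih).add (step (2 * n) 0) using 1
      rw [Int.cast_add, add_smul]
      abel
  have a1 : (dgp (DR.TT F) par fun p => Even p ∧ p < 2 * L) = dgp _ par Even := by
    simp [dgp, hL]
  have c3 : dgp _ par Even * (x * η) = x * η * dgp _ par Even := by
    rw [mul_assoc, dgp_comm (x := η) (S' := Odd) fun i j h => by
        have := oη i j h
        simp only [Nat.even_iff, Nat.odd_iff] at this ⊢
        omega, ← mul_assoc x, dgp_comm (x := x) (S' := Even) fun i j h => by
        have := hx i j h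
        simp only [Nat.even_iff, Nat.odd_iff]
        omega, mul_assoc]
  have b1 : x * η * dgp _ par Even * (x * y * dgp _ par Even) = x * y * dgp _ par Even := by
    rw [mul_assoc (x * η), ← mul_assoc (dgp _ par _), c2, mul_assoc (x * y), pp, ← mul_assoc,
      ← mul_assoc, e2]
  have b2 : x * y * dgp _ par Even * (x * η * dgp _ par Even) = x * η * dgp _ par Even := by
    rw [mul_assoc (x * y), ← mul_assoc (dgp _ par _), c3, mul_assoc (x * η), pp, ← mul_assoc,
      ← mul_assoc, e1]
  have b3 : x * η * dgp _ par Even * (x * η * dgp _ par Even) = x * η * dgp _ par Even := by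
    rw [mul_assoc (x * η), ← mul_assoc (dgp _ par _), c3, mul_assoc (x * η), pp, ← mul_assoc,
      ← mul_assoc, e2]
  have s1 := (hf 0).uv hf₀ (txη.mul (td _ Even)) ((txy 0).mul (td _ Even)) (by rw [b1, m1, pp])
    (by rw [b2, b3]) m
  have s2 := sum L
  rw [b1, b2] at s1
  rw [a1] at s2
  convert s2.sub s1 using 1
  abel

end Pool.Agent.Lib.MP_e9c0f3_ag.LF
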