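import Pool.Agent.Lib.MP_e9c0f3_ag.LF.Num

/-! The two numbers attached to a Koszul factorisation are different. -/

open MvPolynomial Sum Matrix

namespace Pool.Agent.Lib.MP_e9c0f3_ag.LF

open DR Om

variable {N : ℕ} {F : Pol N ℂ} {ι : Type} [Fintype ι] [DecidableEq ι]

theorem num_tel (f : ℤ → ℤ) (p L : ℕ) (h : p < 2 * L) :
    ∑ l ∈ Finset.range L, (if p < 2 * l then f l - f (l - 1) else 0) =
      f (L - 1) - f (p / 2 : ℕ) := by
  induction L with
  | zero => omega
  | succ L ih =>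
    rw [Finset.sum_range_succ]
    by_cases h1 : p < 2 * L
    · rw [ih h1, if_pos h1]
      push_cast
      ring_nf
    · rw [if_neg h1, Finset.sum_eq_zero fun l hl => if_neg (by
        have := Finset.mem_range.1 hl
        omega), show p / 2 = L by omega]
      simp

omit [DecidableEq ι] in
theorem num_shift (par : ι → ℕ) (μ : ι → ℤ) (d : ℤ) {L : ℕ} (hL : ∀ i, par i < 2 * L) (m : ℕ) :
    ∑ l ∈ Finset.range L, yy par μ d m (2 * l) 0 - ∑ j ∈ Finset.range (m + 1),
      m.choose j * (-d) ^ j * ∑ l ∈ Finset.range L, yy par μ d (m - j) (2 * l) 0 =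
    ∑ i, (-1) ^ par i * (μ i + (par i / 2 : ℕ) * d) ^ m -
      ∑ i, (-1) ^ par i * ((L - 1) * d + μ i) ^ m := by
  have e : ∀ m l, yy par μ d m (2 * l) 0 =
      ∑ i, if par i < 2 * l then -((-1) ^ par i * (μ i + l * d) ^ m) else 0 := fun m l => by
    refine Finset.sum_congr rfl fun i _ => ?_
    rw [show (0 + ((2 * l : ℕ) : ℤ) * d) / 2 = l * d by push_cast; rw [mul_assoc]; omega,
      pow_add, pow_succ, pow_mul]
    simp
  simp only [e, Finset.mul_sum]
  rw [Finset.sum_comm (s := Finset.range (m + 1)), ← Finset.sum_sub_distrib,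
    ← Finset.sum_sub_distrib]
  simp only [Finset.sum_comm (s := Finset.range (m + 1)), ← Finset.sum_sub_distrib]
  rw [Finset.sum_comm]
  refine Finset.sum_congr rfl fun i _ => ?_
  have h1 := num_tel (fun l => -((-1) ^ par i * (μ i + l * d) ^ m)) (par i) L (hL i)
  rw [add_comm ((L - 1 : ℤ) * d), ← neg_sub_neg, ← h1]
  refine Finset.sum_congr rfl fun l _ => ?_
  split_ifs
  · congr 1
    rw [show μ i + (l - 1) * d = -d + (μ i + l * d) by ring, add_pow, Finset.mul_sum,
      ← Finset.sum_neg_distrib]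
    exact Finset.sum_congr rfl fun j _ => by ring
  · simp

theorem kos_num {k d : ℕ} (hd : 1 ≤ d) {par : ι → ℕ} {μ : ι → ℤ} {δ : Matrix ι ι (Pol N ℂ)}
    (hδ : IsMF d F par (fun i => 2 * μ i + par i * d) δ)
    (h3 : ∀ i j, δ i j ≠ 0 → par i + 1 = par j ∨ par j + 1 = par i)
    (h4 : ∀ (c : ℤ) (m : ℕ), m < k + 1 → ∑ i, (-1) ^ par i * (c + μ i) ^ m = 0)
    (h5 : ∀ c : ℤ, ∑ i, (-1) ^ par i * (c + μ i) ^ (k + 1) ≠ 0) {g : Fin N → RR N ℂ}
    (hg0 : ∀ i, IsWeightedHomogeneous (vw N) (g i) (1 - d))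
    (hg : ∑ i, g i * rename inl (pderiv i F) - 1 ∈ Ideal.span {ff N ℂ - 1}) :
    ∃ n r : ℚ, n ≠ r ∧
      (∀ {κ : Type} [Fintype κ] [DecidableEq κ] {U : Matrix κ ι (DR.TT F)} {V : Matrix ι κ (DR.TT F)},
        Frame F (nu (fun i => 2 * μ i + par i * d) 0) U V →
        ExB F (hh F * cc F k U ((ezero par g δ).map (Ideal.Quotient.mk (relJ F))) V -
          (r : ℂ) • hh F ^ (k + 1))) ∧
      ∀ {N' : ℕ} {F' : Pol N' ℂ} {φ : DR.TT F →ₐ[ℂ] DR.TT F'} {ρ : Jou F →ₐ[ℂ] Jou F'},
        Sb F F' φ ρ → (∀ i j, par i + 1 = par j →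
          φ (Ideal.Quotient.mk _ (rename inl (δ i j))) = 0) →
        ∀ {κ : Type} [Fintype κ] [DecidableEq κ] {U : Matrix κ ι (DR.TT F')}
          {V : Matrix ι κ (DR.TT F')}, Frame F' (nu (fun i => 2 * μ i + par i * d) 0) U V →
          ExB F' (cc F' k U (((ezero par g δ).map (Ideal.Quotient.mk (relJ F))).map φ) V -
            (n : ℂ) • hh F' ^ k) := by
  obtain ⟨L, hL⟩ : ∃ L : ℕ, ∀ i, par i < 2 * L :=
    ⟨Finset.univ.sup par + 1, fun i => by
      have := Finset.le_sup (f := par) (Finset.mem_univ i)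
      omega⟩
  obtain ⟨nn, hn⟩ : ∃ nn : ℕ → ℤ, ∀ m, nn m = ∑ l ∈ Finset.range L, yy par μ d m (2 * l) 0 :=
    ⟨_, fun _ => rfl⟩
  have t1 := typ_delta hδ
  have t2 := typ_kap hδ hg0
  have o1 : ∀ i j, (δ.map (rename inl)).map (Ideal.Quotient.mk (relJ F)) i j ≠ 0 → δ i j ≠ 0 :=
    fun i j hij e => hij (by simp [e])
  have o2 : ∀ i j, (kap g δ).map (Ideal.Quotient.mk (relJ F)) i j ≠ 0 → Odd (par i + par j) :=
    fun i j hij => kap_odd (g := g) hδ i j fun e => hij (by simp [e])
  have o3 : ∀ i j, (δ.map (rename inl)).map (Ideal.Quotient.mk (relJ F)) i j =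
      Ideal.Quotient.mk _ (rename inl (δ i j)) := fun _ _ => rfl
  have h0 : (δ.map (rename inl)).map (Ideal.Quotient.mk (relJ F)) *
      (δ.map (rename inl)).map (Ideal.Quotient.mk (relJ F)) = 0 := by
    rw [← Matrix.map_mul, ← Matrix.map_mul, hδ.sq]
    ext1 i j
    rw [Matrix.map_apply, Matrix.map_apply, Matrix.scalar_apply, Matrix.diagonal_apply]
    split_ifs
    · exact Ideal.Quotient.eq_zero_iff_mem.2 (Ideal.subset_span (Set.mem_insert _ _))
    · simp
  have h1 : (δ.map (rename inl)).map (Ideal.Quotient.mk (relJ F)) *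
      (kap g δ).map (Ideal.Quotient.mk (relJ F)) + (kap g δ).map (Ideal.Quotient.mk (relJ F)) *
        (δ.map (rename inl)).map (Ideal.Quotient.mk (relJ F)) = 1 := by
    rw [← Matrix.map_mul, ← Matrix.map_mul, ← Matrix.map_add _ (map_add _), kap_comm hδ]
    ext1 i j
    rw [Matrix.map_apply, Matrix.scalar_apply, Matrix.diagonal_apply, Matrix.one_apply]
    split_ifs
    · exact Ideal.Quotient.eq.2 (Ideal.span_mono (by simp [ff]) hg)
    · simp
  rw [rat_ezero_eq]
  generalize (δ.map (rename inl)).map (Ideal.Quotient.mk (relJ F)) = x at *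
  generalize (kap g δ).map (Ideal.Quotient.mk (relJ F)) = η at *
  have hd' : (d : ℚ) ≠ 0 := Nat.cast_ne_zero.2 (by omega)
  have hk' : (k : ℚ) + 1 ≠ 0 := by positivity
  obtain ⟨W, hW⟩ : ∃ W : ℕ → ℤ, ∀ m, W m = ∑ i, (-1) ^ par i * (((L : ℤ) - 1) * d + μ i) ^ m :=
    ⟨_, fun _ => rfl⟩
  refine ⟨nn k, nn k + W (k + 1) / ((k + 1) * d), ?_, fun {κ} _ _ {U V} hf => ?_,
    fun {N' F' φ ρ} hS hφ {κ} _ _ {U V} hf => ?_⟩
  · have : (W (k + 1) : ℚ) ≠ 0 := Int.cast_ne_zero.2 (hW _ ▸ h5 _)
    exact fun h => div_ne_zero this (mul_ne_zero hk' hd') (left_eq_add.1 h)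
  · have e : nu (fun i => 2 * μ i + par i * d) (0 - d - d) =
        fun i => nu (fun i => 2 * μ i + par i * d) 0 i + -(d : ℤ) := by
      funext i
      simp only [nu]
      omega
    have h6 := num_aux (fun i j hij => hδ.odd i j (o1 i j hij)) o2 h0 h1 (t1 0) (t2 0)
      (e ▸ t1 (0 - d)) (e ▸ t2 (0 - d)) hf
    have h7 := num_rec (c := -d) (by omega) h6
      (r := fun i => if i = k then nn k + W (k + 1) / ((k + 1) * d) else nn i) (M := k)
      (fun i hi => ?_) k le_rfl
    · rwa [if_pos rfl] at h7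
    have h8 := num_shift par μ d hL (i + 1)
    have h9 : ((∑ j, if Even (par j) then nu (fun i => 2 * μ i + par i * d) 0 j ^ (i + 1) else 0) -
        ∑ j, if ¬Even (par j) then nu (fun i => 2 * μ i + par i * d) (0 - d) j ^ (i + 1) else 0) =
        ∑ j, (-1) ^ par j * (μ j + (par j / 2 : ℕ) * d) ^ (i + 1) := by
      rw [← Finset.sum_sub_distrib]
      refine Finset.sum_congr rfl fun j _ => ?_
      obtain ⟨p, hp | hp⟩ := Nat.even_or_odd' (par j)
      · have h10 : Even (par j) := ⟨p, by omega⟩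
        rw [if_pos h10, if_neg (not_not.2 h10), h10.neg_one_pow, one_mul, sub_zero, nu,
          show par j / 2 = p by omega, hp]
        congr 1
        push_cast
        rw [mul_assoc]
        omega
      · have h10 : Odd (par j) := ⟨p, by omega⟩
        rw [if_neg (Nat.not_even_iff_odd.2 h10), if_pos (Nat.not_even_iff_odd.2 h10),
          h10.neg_one_pow, zero_sub, neg_one_mul, nu, show par j / 2 = p by omega, hp]
        congr 2
        push_cast
        rw [add_mul, mul_assoc]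
        omega
    rw [h9]
    simp only [← hn, ← hW] at h8
    rw [Finset.sum_range_succ', Finset.sum_range_succ'] at h8
    have h10 := congrArg (fun z : ℤ => (z : ℚ)) h8
    rw [Finset.sum_congr rfl fun l hl => by
      rw [if_neg (by have := Finset.mem_range.1 hl; omega),
        show i - 1 - l = i + 1 - (l + 1 + 1) by omega]]
    simp only [zero_add, Nat.choose_one_right, pow_one, Nat.add_sub_cancel, Nat.choose_zero_right,
      pow_zero, Nat.sub_zero] at h10
    push_cast at h10 ⊢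
    split_ifs with h
    · subst h
      have h11 : ((i : ℚ) + 1) * d * (W (i + 1) / ((i + 1) * d)) = W (i + 1) :=
        mul_div_cancel₀ _ (mul_ne_zero hk' hd')
      linear_combination (-1 : ℚ) * h10 - h11
    · rw [hW, h4 _ _ (by omega)] at h10
      push_cast at h10
      linear_combination (-1 : ℚ) * h10
  · have h6 := num_test (x := x.map φ) (η := η.map φ) (par := par) (μ := μ) (d := d)
      (fun i j hij => (h3 i j (o1 i j fun e => hij (by simp [e]))).resolve_left fun e =>
        hij (by rw [Matrix.map_apply, o3, hφ i j e]))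
      (fun i j hij => o2 i j fun e => hij (by simp [e]))
      (by rw [← Matrix.map_mul, h0, Matrix.map_zero _ (map_zero _)])
      (by rw [← Matrix.map_mul, ← Matrix.map_mul, ← Matrix.map_add _ (map_add _), h1,
        Matrix.map_one _ (map_zero _) (map_one _)])
      (fun c => hS.typ (t1 c)) (fun c => hS.typ (t2 c)) hf hL k
    rw [← hn] at h6
    have h7 : (diagonal fun i => if Even (par i) then (1 : DR.TT F) else 0).map φ =
        dgp _ par Even := by
      rw [diagonal_map (map_zero _), dgp]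
      congr 1
      funext i
      split_ifs <;> simp
    rw [Matrix.map_mul, Matrix.map_mul, h7, Rat.cast_intCast]
    exact h6

end Pool.Agent.Lib.MP_e9c0f3_ag.LF
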