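import Pool.Agent.Lib.MP_e9c0f3_ag.LF.Sub

/-! A quadric is a test cycle. -/

open MvPolynomial Sum Matrix

namespace Pool.Agent.Lib.MP_e9c0f3_ag.LF

open DR Om

section Aux

variable {N N' : ℕ} {F : Pol N ℂ} {F' : Pol N' ℂ}

theorem quad_aeval {Q : Type} [CommRing Q] [Algebra ℂ Q] (W : ℤ → Q → Prop) (h0 : ∀ n, W n 0)
    (h1 : W 0 1) (ha : ∀ n a b, W n a → W n b → W n (a + b))
    (hm : ∀ m n a b, W m a → W n b → W (m + n) (a * b))
    (hs : ∀ n (c : ℂ) a, W n a → W n (c • a)) {x : Fin N ⊕ Fin N → Q}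
    (hx : ∀ s, W (vw N s) (x s)) {r : RR N ℂ} {n : ℤ} (hr : IsWeightedHomogeneous (vw N) r n) :
    W n (aeval x r) := by
  have h2 : ∀ m : Fin N ⊕ Fin N →₀ ℕ,
      W (Finsupp.weight (vw N) m) (aeval x (monomial m (1 : ℂ))) := fun m => by
    induction m using Finsupp.induction_linear with
    | zero => simpa using h1
    | add m m' h h' =>
      rw [← one_mul (1 : ℂ), ← monomial_mul, map_mul, map_add]
      exact hm _ _ _ _ h h'
    | single s n =>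
      rw [← X_pow_eq_monomial, map_pow, aeval_X, Finsupp.weight_single, nsmul_eq_mul]
      induction n with
      | zero => simpa using h1
      | succ n ih =>
        have := hm _ _ _ _ ih (hx s)
        rwa [← pow_succ, show (n : ℤ) * vw N s + vw N s = (n + 1 : ℕ) * vw N s by
          push_cast; ring] at this
  rw [r.as_sum, map_sum]
  refine Finset.sum_induction _ (W n) (ha n) (h0 n) fun m hm => ?_
  rw [← mul_one (coeff m r), ← smul_eq_mul, ← smul_monomial, map_smul,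
    ← hr (mem_support_iff.1 hm)]
  exact hs _ _ _ (h2 m)

theorem quad_wt {u : Fin N → DR.TT F'} (hu : ∀ b, Wt F' 1 (u b)) {p : Pol N ℂ} {d : ℕ}
    (hp : p.IsHomogeneous d) : Wt F' d (aeval u p) := by
  have h := wt_aeval (x := Sum.elim u fun _ => 0) (by rintro (i | i); exacts [hu i, wt_zero _])
    (inj_rename hp)
  rwa [aeval_rename] at h

theorem quad_kill (F : Pol N ℂ) :
    aeval (fun i => (Ideal.Quotient.mk _ (X (inl i)) : DR.TT F)) F = 0 := by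
  have h : aeval (fun i => (Ideal.Quotient.mk _ (X (inl i)) : DR.TT F)) =
      (Ideal.Quotient.mkₐ ℂ (relJ F)).comp (rename inl) := algHom_ext fun i => by simp
  rw [h]
  exact Ideal.Quotient.eq_zero_iff_mem.2 (Ideal.subset_span (Or.inl rfl))

theorem quad_xy {M : ℕ} {Q : Type} [CommRing Q] [Algebra ℂ Q] {w : Fin N → ℂ}
    {L : Matrix (Fin N) (Fin M) ℂ} {L' : Matrix (Fin M) (Fin N) ℂ} (h : L' * L = 1)
    (hw : L' *ᵥ w = 0) (t : Q) {u y : Fin M → Q} (h1 : ∑ b, u b * y b = 1) :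
    ∑ i, (w i • t + ∑ b, L i b • u b) * ∑ b, L' b i • y b = 1 := by
  have key : ∀ c, ∑ i, L' c i • (w i • t + ∑ b, L i b • u b) = u c := fun c => by
    simp only [smul_add, Finset.sum_add_distrib, smul_smul, Finset.smul_sum]
    rw [← Finset.sum_smul, show ∑ i, L' c i * w i = 0 from congrFun hw c, zero_smul, zero_add,
      Finset.sum_comm]
    simp only [← Finset.sum_smul, ← Matrix.mul_apply, h, Matrix.one_apply]
    simp
  simp only [Finset.mul_sum]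
  rw [Finset.sum_comm, ← h1]
  refine Finset.sum_congr rfl fun c _ => ?_
  rw [← key c, Finset.sum_mul]
  exact Finset.sum_congr rfl fun i _ => by rw [mul_smul_comm, smul_mul_assoc]

variable {ι ι₁ ι₂ κ κ₁ κ₂ : Type} [Fintype ι] [DecidableEq ι] [Fintype ι₁] [DecidableEq ι₁]
  [Fintype ι₂] [DecidableEq ι₂] [Fintype κ] [DecidableEq κ] [Fintype κ₁] [DecidableEq κ₁]
  [Fintype κ₂] [DecidableEq κ₂]

theorem quad_pull (hN : 0 < N) {γ : DR.TT (0 : Pol N ℂ) →ₐ[ℂ] DR.TT F'}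
    {ρ : Jou (0 : Pol N ℂ) →ₐ[ℂ] Jou F'} (h : Sb 0 F' γ ρ) {ν : ι → ℤ}
    {U : Matrix κ ι (DR.TT F')} {V : Matrix ι κ (DR.TT F')} (hf : Frame F' ν U V)
    {P : Matrix ι ι (DR.TT (0 : Pol N ℂ))} (hP : P * P = P) (tP : Typ 0 ν ν P) (k : ℕ) :
    ∃ n : ℤ, ExB F' (cc F' k U (P.map γ) V - (n : ℂ) • hh F' ^ k) := by
  obtain ⟨κ₀, _, _, U₀, V₀, hf₀⟩ := exists_frame (0 : Pol N ℂ) ν
  obtain ⟨P', hP'⟩ := hf₀.desc hf₀ tP
  obtain ⟨n, hn⟩ := rat_zero hN (hf₀.idem hP hP') k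
  rw [Int.cast_smul_eq_zsmul, ← phiB_prj', ← map_zsmul, ← map_sub] at hn
  have h1 := exact_pull ρ (exB_exact (isHomogeneous_zero _ _ 0) hn)
  rw [map_sub, map_zsmul, pull_chw, pull_chw, map_sub, map_zsmul,
    ← Int.cast_smul_eq_zsmul ℂ] at h1
  refine ⟨n, ?_⟩
  convert (h1.sub (h.cc hf₀ hf hP tP hP' k)).add ((h.prj k).smul n) using 1
  module

theorem quad_split {ν : ι → ℤ} {ν₁ : ι₁ → ℤ} {ν₂ : ι₂ → ℤ} {U : Matrix κ ι (DR.TT F)}
    {V : Matrix ι κ (DR.TT F)} {U₁ : Matrix κ₁ ι₁ (DR.TT F)} {V₁ : Matrix ι₁ κ₁ (DR.TT F)}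
    {U₂ : Matrix κ₂ ι₂ (DR.TT F)} {V₂ : Matrix ι₂ κ₂ (DR.TT F)} (hf : Frame F ν U V)
    (h₁ : Frame F ν₁ U₁ V₁) (h₂ : Frame F ν₂ U₂ V₂) {a₁ : Matrix ι ι₁ (DR.TT F)}
    {b₁ : Matrix ι₁ ι (DR.TT F)} {a₂ : Matrix ι ι₂ (DR.TT F)} {b₂ : Matrix ι₂ ι (DR.TT F)}
    (ta₁ : Typ F ν ν₁ a₁) (tb₁ : Typ F ν₁ ν b₁) (ta₂ : Typ F ν ν₂ a₂) (tb₂ : Typ F ν₂ ν b₂)
    (e₁ : a₁ * (b₁ * a₁) = a₁) (e₂ : a₂ * (b₂ * a₂) = a₂) (z₁ : b₁ * a₂ = 0) (z₂ : b₂ * a₁ = 0)
    (k : ℕ) : ExB F (cc F k U (a₁ * b₁ + a₂ * b₂) V - cc F k U₁ (b₁ * a₁) V₁ -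
      cc F k U₂ (b₂ * a₂) V₂) := by
  have i₁ : a₁ * b₁ * (a₁ * b₁) = a₁ * b₁ := by
    rw [← Matrix.mul_assoc, Matrix.mul_assoc a₁, e₁]
  have i₂ : a₂ * b₂ * (a₂ * b₂) = a₂ * b₂ := by
    rw [← Matrix.mul_assoc, Matrix.mul_assoc a₂, e₂]
  have s1 := hf.add (ta₁.mul tb₁) (ta₂.mul tb₂) i₁ i₂
    (by rw [← Matrix.mul_assoc, Matrix.mul_assoc a₁, z₁, Matrix.mul_zero, Matrix.zero_mul])
    (by rw [← Matrix.mul_assoc, Matrix.mul_assoc a₂, z₂, Matrix.mul_zero, Matrix.zero_mul]) k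
  have s2 := hf.uv h₁ ta₁ tb₁ i₁ (by rw [Matrix.mul_assoc, e₁]) k
  have s3 := hf.uv h₂ ta₂ tb₂ i₂ (by rw [Matrix.mul_assoc, e₂]) k
  convert (s1.add s2).add s3 using 1
  abel

theorem quad_shift (hN : 0 < N) (hF0 : F ≠ 0) {d : ℕ} (hF : F.IsHomogeneous d) (hd : 1 ≤ d)
    {U : Matrix κ ι (DR.TT F)} {V : Matrix ι κ (DR.TT F)}
    (hf : Frame F (fun _ => (0 : ℤ) + 1) U V) {e : Matrix ι ι (Jou F)} (he : e * e = e) (k : ℕ) :
    ∃ r : ℚ, ExB F (cc F k U (e.map (inc F)) V - phiB F (chw k e) - (r : ℂ) • hh F ^ k) := by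
  choose r hr using rat_hyp hN hF0 hF hd he
  refine ⟨∑ i ∈ Finset.range k, k.choose (i + 1) * r (k - (i + 1)), ?_⟩
  rw [frame_one.shift hf (by rw [← Matrix.map_mul, he]), Finset.sum_range_succ']
  simp only [← cc_one]
  have h1 := exB_sum (Finset.range k) fun i _ =>
    ((hr (k - (i + 1))).hh_mul i).smul (k.choose (i + 1) : ℂ)
  convert h1 using 1
  rw [Nat.choose_zero_right, pow_zero, pow_zero, Nat.sub_zero, Nat.cast_one, one_mul, one_mul,
    one_smul, add_sub_cancel_right, Rat.cast_sum, Finset.sum_smul, ← Finset.sum_sub_distrib]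
  refine Finset.sum_congr rfl fun i hi => ?_
  have h2 : i + (k - (i + 1) + 1) = k := by
    have := Finset.mem_range.1 hi
    omega
  rw [mul_sub, mul_smul_comm, ← pow_add, h2, ← mul_assoc, ← pow_succ, smul_sub, smul_smul]
  simp

/-- Matrices all of whose entries have weight `n`. -/
def quad_W (F : Pol N ℂ) (n : ℤ) (m : Matrix ι ι (DR.TT F)) : Prop := ∀ i j, Wt F n (m i j)

omit [DecidableEq ι] in
theorem quad_W.mul {m n : ℤ} {a b : Matrix ι ι (DR.TT F)} (h : quad_W F m a) (h' : quad_W F n b) :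
    quad_W F (m + n) (a * b) := fun i j => by
  rw [Matrix.mul_apply]
  exact wt_sum _ fun l _ => (h i l).mul (h' l j)

omit [DecidableEq ι] in
theorem quad_alg₀ {R : Type} [CommRing R] {q : R} {E : Matrix ι ι (QuadraticAlgebra R q 0)}
    (hE : E * E = E) {E₀ E₁ : Matrix ι ι R} (h₀ : E₀ = E.map QuadraticAlgebra.re)
    (h₁ : E₁ = E.map QuadraticAlgebra.im) : E₀ * E₁ + E₁ * E₀ = E₁ ∧
      fromBlocks E₀ (q • E₁) E₁ E₀ * fromBlocks E₀ (q • E₁) E₁ E₀ =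
        fromBlocks E₀ (q • E₁) E₁ E₀ := by
  have r₀ : E₀ * E₀ + q • (E₁ * E₁) = E₀ := by
    ext i l : 1
    have h1 := congrArg (QuadraticAlgebra.reₗ q 0) (congrFun (congrFun hE i) l)
    rw [Matrix.mul_apply, map_sum] at h1
    simpa [h₀, h₁, Matrix.mul_apply, Finset.sum_add_distrib, Finset.mul_sum, mul_assoc] using h1
  have r₁ : E₀ * E₁ + E₁ * E₀ = E₁ := by
    ext i l : 1
    have h1 := congrArg (QuadraticAlgebra.imₗ q 0) (congrFun (congrFun hE i) l)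
    rw [Matrix.mul_apply, map_sum] at h1
    simpa [h₀, h₁, Matrix.mul_apply, Finset.sum_add_distrib] using h1
  refine ⟨r₁, ?_⟩
  rw [fromBlocks_multiply]
  simp only [Matrix.smul_mul, Matrix.mul_smul]
  rw [← smul_add, r₀, r₁, add_comm (E₁ * E₀), r₁, add_comm, r₀]

omit [DecidableEq ι] in
theorem quad_alg₁ {R T : Type} [CommRing R] [CommRing T] [Algebra ℂ R] [Algebra ℂ T]
    (γ : R →ₐ[ℂ] T) {q : R} {t : T} (htq : t * t = γ q) {E₀ E₁ : Matrix ι ι R}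
    (r₁ : E₀ * E₁ + E₁ * E₀ = E₁) {A B C : Matrix ι ι T} (hA : A * A = A) (hB : B * B = B)
    (m : C = E₁.map γ) (m₀ : B = E₀.map γ + t • C) (m₁ : A = E₀.map γ + -t • C)
    {a₁ a₂ : Matrix (ι ⊕ ι) ι T} {b₁ b₂ : Matrix ι (ι ⊕ ι) T}
    (ha₁ : a₁ = fromRows (A + t • (C * A)) (C * A)) (hb₁ : b₁ = fromCols A (-t • A))
    (ha₂ : a₂ = fromRows (t • B) B) (hb₂ : b₂ = fromCols (B * C) (B + -t • (B * C))) :
    b₁ * a₁ = A ∧ b₂ * a₂ = B ∧ a₁ * b₁ + a₂ * b₂ = (fromBlocks E₀ (q • E₁) E₁ E₀).map γ ∧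
      a₁ * A = a₁ ∧ a₂ * B = a₂ ∧ b₁ * a₂ = 0 ∧ b₂ * a₁ = 0 := by
  have hq' : (q • E₁).map γ = (t * t) • C := by
    ext i j : 1
    rw [htq, m]
    exact map_mul γ _ _
  have hC : C * A + B * C = C := by
    have h1 := congrArg (fun m => m.map γ) r₁
    simp only [Matrix.map_add _ (map_add γ), Matrix.map_mul, ← m] at h1
    rw [m₀, m₁, Matrix.mul_add, Matrix.add_mul, Matrix.mul_smul, Matrix.smul_mul]
    linear_combination (norm := module) h1
  rw [fromBlocks_map, hq', ← m]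
  generalize E₀.map γ = D at m₀ m₁
  have hz : B * (C * A) = 0 := by
    have h1 := congrArg (fun m => B * m) hC
    simp only [Matrix.mul_add, ← Matrix.mul_assoc B B, hB] at h1
    exact add_eq_right.1 h1
  have hA' : C * A * A = C * A := by rw [Matrix.mul_assoc, hA]
  have hB' : B * (B * C) = B * C := by rw [← Matrix.mul_assoc, hB]
  subst ha₁ ha₂ hb₁ hb₂
  refine ⟨?_, ?_, ?_, ?_, ?_, ?_, ?_⟩
  · rw [fromCols_mul_fromRows, Matrix.mul_add, Matrix.mul_smul, Matrix.smul_mul, hA]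
    module
  · rw [fromCols_mul_fromRows, Matrix.add_mul, Matrix.mul_smul, Matrix.smul_mul, hB]
    module
  · rw [fromRows_mul_fromCols, fromRows_mul_fromCols, fromBlocks_add]
    simp only [Matrix.add_mul, Matrix.mul_add, Matrix.mul_smul, Matrix.smul_mul, hA, hB, hA', hB']
    congr 1
    · linear_combination (norm := module) m₁ + t • hC
    · linear_combination (norm := module) t • m₀ - t • m₁ - (t * t) • hC
    · linear_combination (norm := module) m₀ - t • hC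
  · rw [fromRows_mul, Matrix.add_mul, Matrix.smul_mul, hA, hA']
  · rw [fromRows_mul, Matrix.smul_mul, hB]
  · rw [fromCols_mul_fromRows, Matrix.mul_smul, Matrix.smul_mul]
    module
  · rw [fromCols_mul_fromRows, Matrix.mul_add, Matrix.add_mul, Matrix.mul_smul, Matrix.smul_mul,
      Matrix.mul_assoc B C A, hz]
    simp only [Matrix.mul_assoc]
    module

theorem quad_core (hN : 0 < N) (hN' : 0 < N') (hF0 : F' ≠ 0) {d : ℕ} (hF : F'.IsHomogeneous d)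
    (hd : 1 ≤ d) {γ : DR.TT (0 : Pol N ℂ) →ₐ[ℂ] DR.TT F'} {ρ : Jou (0 : Pol N ℂ) →ₐ[ℂ] Jou F'}
    (h : Sb 0 F' γ ρ) {q : DR.TT (0 : Pol N ℂ)} (hq : Wt 0 2 q) {t : DR.TT F'} (ht : Wt F' 1 t)
    (htq : t * t = γ q) {E : Matrix ι ι (QuadraticAlgebra (DR.TT (0 : Pol N ℂ)) q 0)}
    (hE : E * E = E) (w₀ : quad_W 0 0 (E.map QuadraticAlgebra.re))
    (w₁ : quad_W 0 (-1) (E.map QuadraticAlgebra.im))
    {e₀ e₁ : Matrix ι ι (Jou F')} (he₀ : e₀ * e₀ = e₀) (he₁ : e₁ * e₁ = e₁)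
    (m₀ : e₀.map (inc F') =
      (E.map QuadraticAlgebra.re).map γ + t • (E.map QuadraticAlgebra.im).map γ)
    (m₁ : e₁.map (inc F') =
      (E.map QuadraticAlgebra.re).map γ + -t • (E.map QuadraticAlgebra.im).map γ) (k : ℕ) :
    ∃ r : ℚ, ExB F' (phiB F' (chw k e₀) + phiB F' (chw k e₁) - (r : ℂ) • hh F' ^ k) := by
  obtain ⟨κ₁, _, _, U₁, V₁, hf₁⟩ := exists_frame F' fun _ : ι => (0 : ℤ) + 1
  obtain ⟨κ₂, _, _, U, V, hf⟩ :=
    exists_frame F' (Sum.elim (fun _ : ι => (0 : ℤ)) fun _ : ι => (0 : ℤ) + 1)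
  obtain ⟨r₁, hP⟩ := quad_alg₀ hE rfl rfl
  obtain ⟨n, hn⟩ := quad_pull hN h hf hP (typ_blocks w₀ (fun i j => hq.mul (w₁ i j)) w₁ w₀) k
  obtain ⟨r, hr⟩ := quad_shift hN' hF0 hF hd hf₁ he₀ k
  have hA : e₁.map (inc F') * e₁.map (inc F') = e₁.map (inc F') := by rw [← Matrix.map_mul, he₁]
  have hB : e₀.map (inc F') * e₀.map (inc F') = e₀.map (inc F') := by rw [← Matrix.map_mul, he₀]
  have wA : quad_W F' 0 (e₁.map (inc F')) := fun i j => wt_inc _
  have wB : quad_W F' 0 (e₀.map (inc F')) := fun i j => wt_inc _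
  have wC : quad_W F' (-1) ((E.map QuadraticAlgebra.im).map γ) := fun i j => h.wt _ _ (w₁ i j)
  obtain ⟨c₁, c₂, c₃, c₄, c₅, c₆, c₇⟩ := quad_alg₁ γ htq r₁ hA hB rfl m₀ m₁ rfl rfl rfl rfl
  have s := quad_split hf (frame_one (κ := ι)) hf₁
    (by rintro (i | i) j; exacts [(wA i j).add (ht.mul (wC.mul wA i j)), wC.mul wA i j])
    (by rintro i (j | j); exacts [wA i j, (wt_neg ht).mul (wA i j)])
    (by rintro (i | i) j; exacts [ht.mul (wB i j), wB i j])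
    (by rintro i (j | j); exacts [wB.mul wC i j, (wB i j).add ((wt_neg ht).mul (wB.mul wC i j))])
    ((congrArg _ c₁).trans c₄) ((congrArg _ c₂).trans c₅) c₆ c₇ k
  rw [c₁, c₂, c₃, ← cc_one k e₁] at s
  refine ⟨n - r, ?_⟩
  convert (hn.sub s).sub hr using 1
  push_cast
  module

/-- Evaluation of a quadratic algebra at a root. -/
def quad_psi {R T : Type} [CommRing R] [CommRing T] [Algebra ℂ R] [Algebra ℂ T] (γ : R →ₐ[ℂ] T)
    {q : R} {t : T} (h : t * t = γ q) : QuadraticAlgebra R q 0 →ₐ[ℂ] T where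
  toFun z := γ z.re + t * γ z.im
  map_zero' := by simp
  map_one' := by simp [QuadraticAlgebra.re_one, QuadraticAlgebra.im_one]
  map_add' z z' := by
    simp only [QuadraticAlgebra.re_add, QuadraticAlgebra.im_add, map_add]
    ring
  map_mul' z z' := by
    simp only [QuadraticAlgebra.re_mul, QuadraticAlgebra.im_mul, map_add, map_mul, map_zero, ← h]
    ring
  commutes' c := by
    change γ (algebraMap ℂ R c) + t * γ 0 = _
    simp

end Aux

theorem test_quad {N k : ℕ} {F : Pol N ℂ} {w : Fin N → ℂ} {L : Matrix (Fin N) (Fin (k + 1)) ℂ}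
    {L' : Matrix (Fin (k + 1)) (Fin N) ℂ} (h : L' * L = 1) (hw : L' *ᵥ w = 0) {p : Pol (k + 1) ℂ}
    (hp : p.IsHomogeneous 2) {I : Ideal (Pol N ℂ)} (hF : F ∈ I)
    (hI : ∀ P ∈ I, aeval (fun i => w i • (X 0 : Pol (k + 2) ℂ) + ∑ b, L i b • X b.succ) P ∈
      Ideal.span {(X 0 : Pol (k + 2) ℂ) ^ 2 - rename Fin.succ p}) : Test k F I := by
  generalize hF' : (X 0 : Pol (k + 2) ℂ) ^ 2 - rename Fin.succ p = F' at hI
  have hh2 : F'.IsHomogeneous 2 := hF' ▸ (isHomogeneous_X_pow 0 2).sub hp.rename_isHomogeneous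
  have hF0 : F' ≠ 0 := fun h0 => by
    have h1 := fun c : ℂ => congrArg (aeval (Fin.cons c 0 : Fin (k + 2) → ℂ)) (hF'.trans h0)
    simp only [map_sub, map_pow, aeval_X, aeval_rename, Fin.cons_zero, map_zero,
      Fin.cons_comp_succ] at h1
    exact one_ne_zero (by linear_combination h1 1 - h1 0 : (1 : ℂ) = 0)
  let t : DR.TT F' := Ideal.Quotient.mk _ (X (inl 0))
  let s : DR.TT F' := Ideal.Quotient.mk _ (X (inr 0))
  let u : Fin (k + 1) → DR.TT F' := fun b => Ideal.Quotient.mk _ (X (inl b.succ))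
  let v : Fin (k + 1) → DR.TT F' := fun b => Ideal.Quotient.mk _ (X (inr b.succ))
  have wt : Wt F' 1 t := wt_x 0
  have ws : Wt F' (-1) s := wt_y 0
  have wu : ∀ b, Wt F' 1 (u b) := fun b => wt_x b.succ
  have wv : ∀ b, Wt F' (-1) (v b) := fun b => wt_y b.succ
  have R1 : t * s + ∑ b, u b * v b = 1 := (Fin.sum_univ_succ _).symm.trans (fr_xy F')
  have R2 : t * t = aeval u p := by
    have h1 := congrArg (aeval fun i => (Ideal.Quotient.mk _ (X (inl i)) : DR.TT F')) hF'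
    rw [quad_kill, map_sub, map_pow, aeval_X, aeval_rename, sub_eq_zero, sq] at h1
    exact h1
  let m : Fin (k + 1) → DR.TT F' := fun b => (1 / 2 : ℂ) • aeval u (pderiv b p)
  have wm : ∀ b, Wt F' 1 (m b) := fun b => wt_smul (quad_wt wu hp.pderiv) _
  have R3 : ∑ b, u b * m b = t * t := by
    have h1 := congrArg (aeval u) hp.sum_X_mul_pderiv
    simp only [map_sum, map_mul, aeval_X, map_nsmul] at h1
    simp only [m, mul_smul_comm]
    rw [← Finset.smul_sum, h1, R2]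
    module
  let y : Fin (k + 1) → DR.TT F' := fun b =>
    v b * (∑ c, u c * v c + t * s + t * s) + s * s * m b
  have wy : ∀ b, Wt F' (-1) (y b) := fun b =>
    ((wv b).mul (((wt_sum _ fun c _ => (wu c).mul (wv c)).add (wt.mul ws)).add (wt.mul ws))).add
      ((ws.mul ws).mul (wm b))
  have R4 : ∑ b, u b * y b = 1 := by
    have h1 : ∀ b, u b * y b =
        u b * v b * (∑ c, u c * v c + t * s + t * s) + s * s * (u b * m b) := fun b => by
      simp only [y]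
      ring
    simp only [h1]
    rw [Finset.sum_add_distrib, ← Finset.sum_mul, ← Finset.mul_sum, R3]
    linear_combination (t * s + ∑ b, u b * v b + 1) * R1
  clear_value y
  obtain ⟨γ, ρ, hγ, eγ⟩ := exists_sub (F := (0 : Pol (k + 1) ℂ)) u y wu wy R4 (map_zero _)
  let u₀ : Fin (k + 1) → DR.TT (0 : Pol (k + 1) ℂ) := fun b => Ideal.Quotient.mk _ (X (inl b))
  let y₀ : Fin (k + 1) → DR.TT (0 : Pol (k + 1) ℂ) := fun b => Ideal.Quotient.mk _ (X (inr b))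
  obtain ⟨q, hq⟩ : ∃ q, q = aeval u₀ p := ⟨_, rfl⟩
  have wq : Wt 0 2 q := hq ▸ quad_wt wt_x hp
  have R5 : t * t = γ q := by
    rw [R2, hq, ← AlgHom.comp_apply, comp_aeval]
    congr 2
    funext b
    exact ((eγ (X (inl b))).trans (aeval_X _ _)).symm
  let Q := QuadraticAlgebra (DR.TT (0 : Pol (k + 1) ℂ)) q 0
  let j : DR.TT (0 : Pol (k + 1) ℂ) →ₐ[ℂ] Q := IsScalarTower.toAlgHom ℂ _ _
  let o : Q := QuadraticAlgebra.omega
  let x' : Fin N → Q := fun i => w i • o + ∑ b, L i b • j (u₀ b)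
  let y' : Fin N → Q := fun i => ∑ b, L' b i • j (y₀ b)
  have k1 : ∀ P ∈ I, aeval x' P = 0 := fun P hP => by
    obtain ⟨c, hc⟩ := Ideal.mem_span_singleton'.1 (hI P hP)
    have h1 := congrArg (aeval (Fin.cons o (fun b => j (u₀ b)) : Fin (k + 2) → Q)) hc
    have h2 : aeval (Fin.cons o (fun b => j (u₀ b)) : Fin (k + 2) → Q) F' = 0 := by
      rw [← hF', map_sub, map_pow, aeval_X, aeval_rename, Fin.cons_zero, Fin.cons_comp_succ,
        ← comp_aeval, AlgHom.comp_apply, ← hq, sq, sub_eq_zero]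
      exact QuadraticAlgebra.omega_mul_omega_eq_mk
    rw [map_mul, h2, mul_zero, ← AlgHom.comp_apply, comp_aeval] at h1
    simpa using h1.symm
  have k2 : ∑ i, x' i * y' i = 1 := quad_xy h hw o (by
    simp only [← map_mul, ← map_sum]
    rw [fr_xy, map_one])
  let Φ : DR.TT F →ₐ[ℂ] Q := Ideal.Quotient.liftₐ (relJ F) (aeval (Sum.elim x' y')) fun r hr => by
    obtain ⟨a, b, rfl⟩ := Ideal.mem_span_pair.1 hr
    simp [aeval_rename, k1 F hF, k2]
  let W : ℤ → Q → Prop := fun n z => Wt 0 n z.re ∧ Wt 0 (n - 1) z.im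
  have W0 : ∀ n, W n 0 := fun n => ⟨wt_zero _, wt_zero _⟩
  have Wa : ∀ n a b, W n a → W n b → W n (a + b) := fun n a b ha hb =>
    ⟨ha.1.add hb.1, ha.2.add hb.2⟩
  have Ws : ∀ n (c : ℂ) a, W n a → W n (c • a) := fun n c a ha => ⟨wt_smul ha.1 c, wt_smul ha.2 c⟩
  have Wm : ∀ m n a b, W m a → W n b → W (m + n) (a * b) := fun m n a b ha hb => by
    constructor
    · have h1 := (wq.mul ha.2).mul hb.2
      rw [show 2 + (m - 1) + (n - 1) = m + n by ring] at h1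
      exact (ha.1.mul hb.1).add h1
    · have h1 := ha.1.mul hb.2
      have h2 := ha.2.mul hb.1
      rw [show m + (n - 1) = m + n - 1 by ring] at h1
      rw [show m - 1 + n = m + n - 1 by ring] at h2
      rw [QuadraticAlgebra.im_mul, zero_mul, zero_mul, add_zero]
      exact h1.add h2
  have Wj : ∀ n a, Wt 0 n a → W n (j a) := fun n a ha => ⟨ha, wt_zero _⟩
  have Wx : ∀ i, W 1 (x' i) := fun i => Wa _ _ _ (Ws _ _ _ ⟨wt_zero _, wt_one⟩)
    (Finset.sum_induction _ (W 1) (Wa 1) (W0 1) fun b _ => Ws _ _ _ (Wj _ _ (wt_x b)))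
  have Wy : ∀ i, W (-1) (y' i) := fun i =>
    Finset.sum_induction _ (W (-1)) (Wa _) (W0 _) fun b _ => Ws _ _ _ (Wj _ _ (wt_y b))
  have WΦ : ∀ z, Wt F 0 z → W 0 (Φ z) := by
    rintro _ ⟨r, hr, rfl⟩
    exact quad_aeval W W0 ⟨wt_one, wt_zero _⟩ Wa Wm Ws (x := Sum.elim x' y')
      (by rintro (i | i); exacts [Wx i, Wy i]) hr
  have key : ∀ τ, Wt F' 1 τ → τ * τ = γ q → ∃ φ ρ, Sb F F' φ ρ ∧
      ∀ z, φ z = γ (Φ z).re + τ * γ (Φ z).im := fun τ wτ hτ => by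
    have h1 : ∀ n z, W n z → Wt F' n (quad_psi γ hτ z) := fun n z hz => by
      have h2 := wτ.mul (hγ.wt _ _ hz.2)
      rw [add_sub_cancel] at h2
      exact (hγ.wt _ _ hz.1).add h2
    obtain ⟨φ, ρ, h2, h3⟩ := exists_sub (F := F) (fun i => quad_psi γ hτ (x' i))
      (fun i => quad_psi γ hτ (y' i)) (fun i => h1 _ _ (Wx i)) (fun i => h1 _ _ (Wy i))
      (by simp only [← map_mul, ← map_sum, k2, map_one])
      (by rw [← comp_aeval, AlgHom.comp_apply, k1 F hF, map_zero])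
    refine ⟨φ, ρ, h2, fun z => ?_⟩
    obtain ⟨r, rfl⟩ := Ideal.Quotient.mk_surjective z
    rw [h3]
    change _ = (quad_psi γ hτ).comp (aeval (Sum.elim x' y')) r
    rw [comp_aeval]
    congr 2
    funext i
    rcases i with i | i <;> rfl
  obtain ⟨φ₀, ρ₀, s₀, e₀⟩ := key t wt R5
  obtain ⟨φ₁, ρ₁, s₁, e₁⟩ := key (-t) (wt_neg wt) (by linear_combination R5)
  have k3 : ∀ P ∈ I, Φ (Ideal.Quotient.mk _ (rename inl P)) = 0 := fun P hP =>
    (aeval_rename _ _ _).trans (k1 P hP)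
  refine ⟨k + 2, F', ![φ₀, φ₁], ![ρ₀, ρ₁], Fin.forall_fin_two.2 ⟨s₀, s₁⟩,
    Fin.forall_fin_two.2 ⟨fun P hP => (e₀ _).trans ?_, fun P hP => (e₁ _).trans ?_⟩,
    fun g hg => np_hyp hF0 hh2 one_le_two le_rfl hg, fun n e he => ?_⟩
  · simp [k3 P hP]
  · simp [k3 P hP]
  have hE : (e.map (inc F)).map Φ * (e.map (inc F)).map Φ = (e.map (inc F)).map Φ := by
    rw [← Matrix.map_mul, ← Matrix.map_mul, he]
  have wE : ∀ i j, W 0 (((e.map (inc F)).map Φ) i j) := fun i j => WΦ _ (wt_inc _)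
  exact quad_core (Nat.succ_pos k) (Nat.succ_pos _) hF0 hh2 one_le_two hγ wq wt R5 hE
    (fun i j => (wE i j).1) (fun i j => (wE i j).2) (e₀ := e.map ρ₀) (e₁ := e.map ρ₁)
    (by rw [← Matrix.map_mul, he]) (by rw [← Matrix.map_mul, he])
    ((s₀.map_inc e).trans (Matrix.ext fun i j => e₀ _))
    ((s₁.map_inc e).trans (Matrix.ext fun i j => e₁ _)) k

end Pool.Agent.Lib.MP_e9c0f3_ag.LF
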