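import Pool.Agent.Lib.MP_e9c0f3_ag.LF.Deg
import Pool.Agent.Lib.MP_e9c0f3_ag.DR.Fin2

/-! Maps of torsors and test cycles. -/

open MvPolynomial Sum Matrix

namespace Pool.Agent.Lib.MP_e9c0f3_ag.LF

open DR Om

variable {N N' : ℕ} {F : Pol N ℂ} {F' : Pol N' ℂ}

/-- A map of cones that preserves the weights, and the induced map of torsors. -/
structure Sb (F : Pol N ℂ) (F' : Pol N' ℂ) (φ : DR.TT F →ₐ[ℂ] DR.TT F') (ρ : Jou F →ₐ[ℂ] Jou F') :
    Prop where
  wt : ∀ n t, Wt F n t → Wt F' n (φ t)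
  comm : ∀ b, inc F' (ρ b) = φ (inc F b)

theorem wt_algebraMap (c : ℂ) : Wt F 0 (algebraMap ℂ (DR.TT F) c) :=
  ⟨C c, isWeightedHomogeneous_C _ _, rfl⟩

theorem wt_smul {n : ℤ} {t : DR.TT F} (h : Wt F n t) (c : ℂ) : Wt F n (c • t) := by
  have := (wt_algebraMap c).mul h
  rwa [zero_add, ← Algebra.smul_def] at this

theorem wt_pow {n : ℤ} {t : DR.TT F} (h : Wt F n t) (m : ℕ) : Wt F (m * n) (t ^ m) := by
  induction m with
  | zero => simpa using wt_one
  | succ m ih =>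
    have := ih.mul h
    rwa [← pow_succ, show (m : ℤ) * n + n = (m + 1 : ℕ) * n by push_cast; ring] at this

theorem wt_x (i : Fin N) : Wt F 1 (Ideal.Quotient.mk _ (X (inl i))) :=
  ⟨_, isWeightedHomogeneous_X ℂ (vw N) (inl i), rfl⟩

theorem wt_y (i : Fin N) : Wt F (-1) (Ideal.Quotient.mk _ (X (inr i))) :=
  ⟨_, isWeightedHomogeneous_X ℂ (vw N) (inr i), rfl⟩

theorem wt_aeval {x : Fin N ⊕ Fin N → DR.TT F'} (hx : ∀ s, Wt F' (vw N s) (x s)) {r : RR N ℂ} {n : ℤ}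
    (hr : IsWeightedHomogeneous (vw N) r n) : Wt F' n (aeval x r) := by
  have h1 : ∀ m : Fin N ⊕ Fin N →₀ ℕ,
      Wt F' (Finsupp.weight (vw N) m) (aeval x (monomial m (1 : ℂ))) := fun m => by
    induction m using Finsupp.induction_linear with
    | zero => simpa using wt_one
    | add m m' h h' =>
      rw [← one_mul (1 : ℂ), ← monomial_mul, map_mul, map_add]
      exact h.mul h'
    | single s n =>
      rw [← X_pow_eq_monomial, map_pow, aeval_X, Finsupp.weight_single, nsmul_eq_mul]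
      exact wt_pow (hx s) n
  rw [r.as_sum, map_sum]
  refine wt_sum _ fun m hm => ?_
  rw [← mul_one (coeff m r), ← smul_eq_mul, ← smul_monomial, map_smul,
    ← hr (mem_support_iff.1 hm)]
  exact wt_smul (h1 m) _

theorem exists_sub (x y : Fin N → DR.TT F') (hx : ∀ i, Wt F' 1 (x i)) (hy : ∀ i, Wt F' (-1) (y i))
    (h1 : ∑ i, x i * y i = 1) (hF : aeval x F = 0) : ∃ φ ρ, Sb F F' φ ρ ∧
      ∀ r, φ (Ideal.Quotient.mk _ r) = aeval (Sum.elim x y) r := by
  let φ : DR.TT F →ₐ[ℂ] DR.TT F' := Ideal.Quotient.liftₐ (relJ F) (aeval (Sum.elim x y)) fun r hr => by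
    obtain ⟨a, b, rfl⟩ := Ideal.mem_span_pair.1 hr
    simp [aeval_rename, hF, h1]
  have hw : ∀ n t, Wt F n t → Wt F' n (φ t) := by
    rintro n _ ⟨r, hr, rfl⟩
    exact wt_aeval (x := Sum.elim x y) (by rintro (i | i); exacts [hx i, hy i]) hr
  refine ⟨φ, (φ.comp (inc F)).codRestrict _ fun b => ?_, ⟨hw, fun _ => rfl⟩, fun _ => rfl⟩
  obtain ⟨b', hb'⟩ := (hw 0 _ (wt_inc b)).jou
  rw [AlgHom.comp_apply, ← hb']
  exact b'.2

variable {φ : DR.TT F →ₐ[ℂ] DR.TT F'} {ρ : Jou F →ₐ[ℂ] Jou F'}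

theorem Sb.typ (h : Sb F F' φ ρ) {α β : Type} {a : α → ℤ} {b : β → ℤ} {m : Matrix α β (DR.TT F)}
    (hm : Typ F a b m) : Typ F' a b (m.map φ) := fun i j => h.wt _ _ (hm i j)

theorem Sb.map_inc (h : Sb F F' φ ρ) {α β : Type} (m : Matrix α β (Jou F)) :
    (m.map ρ).map (inc F') = (m.map (inc F)).map φ := Matrix.ext fun _ _ => h.comm _

theorem exact_pull {B : Type} [CommRing B] [Algebra ℂ B] (g : B →ₐ[ℂ] Jou F') {ω : Form B}
    (h : IsExact ω) : ExB F' (phiB F' (pull g ω)) := by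
  obtain ⟨μ, hμ⟩ := h
  exact ⟨pull g μ, ((isDG_B F').pull g).isD hμ⟩

theorem exB_exact {d : ℕ} (hF : F.IsHomogeneous d) {ω : Form (Jou F)} (h : ExB F (phiB F ω)) :
    IsExact ω := by
  obtain ⟨μ, hμ⟩ := h
  exact (isDG_B F).exact_of (phiB_injective hF) hμ

variable {ι κ κ' : Type} [Fintype ι] [DecidableEq ι] [Fintype κ] [DecidableEq κ] [Fintype κ']
  [DecidableEq κ']

theorem cc_weak {ν : ι → ℤ} {U : Matrix κ ι (DR.TT F)} {V : Matrix ι κ (DR.TT F)} (hf : Frame F ν U V)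
    {U' : Matrix κ' ι (DR.TT F)} {V' : Matrix ι κ' (DR.TT F)} (tU : Typ F (fun _ => 0) ν U')
    (tV : Typ F ν (fun _ => 0) V') (h1 : V' * U' = 1) {e : Matrix ι ι (DR.TT F)} (he : e * e = e)
    (te : Typ F ν ν e) {u : Matrix κ' κ' (Jou F)} (hu : u.map (inc F) = U' * e * V') (k : ℕ) :
    ExB F (phiB F (chw k u) - cc F k U e V) := by
  have e1 : U' * e * (e * V') = U' * e * V' := by
    rw [← Matrix.mul_assoc, Matrix.mul_assoc U', he]
  have e2 : e * V' * (U' * e) = e := by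
    rw [Matrix.mul_assoc, ← Matrix.mul_assoc V', h1, Matrix.one_mul, he]
  have h := frame_one.uv hf (tU.mul te) (te.mul tV) (by
    rw [e1]
    conv_rhs => rw [← e2]
    simp only [Matrix.mul_assoc]) (by rw [e2, he]) k
  rwa [e1, e2, ← hu, ← cc_one] at h

/-- Restriction of the descended idempotent. -/
theorem Sb.cc (h : Sb F F' φ ρ) {ν : ι → ℤ} {U : Matrix κ ι (DR.TT F)} {V : Matrix ι κ (DR.TT F)}
    (hf : Frame F ν U V) {U' : Matrix κ' ι (DR.TT F')} {V' : Matrix ι κ' (DR.TT F')}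
    (hf' : Frame F' ν U' V') {e : Matrix ι ι (DR.TT F)} (he : e * e = e) (te : Typ F ν ν e)
    {u : Matrix κ κ (Jou F)} (hu : u.map (inc F) = U * e * V) (k : ℕ) :
    ExB F' (phiB F' (chw k (u.map ρ)) - cc F' k U' (e.map φ) V') := by
  refine cc_weak hf' (U' := U.map φ) (V' := V.map φ) (h.typ fun a i => by simpa using hf.wU a i)
    (h.typ fun i a => by simpa using hf.wV i a) ?_ ?_ (h.typ te) ?_ k
  · rw [← Matrix.map_mul, hf.one, Matrix.map_one _ (map_zero _) (map_one _)]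
  · rw [← Matrix.map_mul, he]
  · rw [h.map_inc, hu, Matrix.map_mul, Matrix.map_mul]

/-- The hyperplane class restricts to the hyperplane class. -/
theorem Sb.prj (h : Sb F F' φ ρ) (k : ℕ) :
    ExB F' (phiB F' (chw k ((prj F).map ρ)) - hh F' ^ k) := by
  let x : Fin N → DR.TT F' := fun i => φ (Ideal.Quotient.mk _ (X (inl i)))
  let y : Fin N → DR.TT F' := fun i => φ (Ideal.Quotient.mk _ (X (inr i)))
  let x' : Fin N' → DR.TT F' := fun i => Ideal.Quotient.mk _ (X (inl i))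
  let y' : Fin N' → DR.TT F' := fun i => Ideal.Quotient.mk _ (X (inr i))
  have h1 : y ⬝ᵥ x = 1 := by
    rw [dotProduct_comm, ← map_one φ, ← fr_xy F, map_sum]
    exact Finset.sum_congr rfl fun i _ => (map_mul φ _ _).symm
  have h2 : y' ⬝ᵥ x' = 1 := (dotProduct_comm _ _).trans (fr_xy F')
  have e1 : vecMulVec x y' * vecMulVec x' y = vecMulVec x y := by
    rw [vecMulVec_mul_vecMulVec, h2, one_smul]
  have e2 : vecMulVec x' y * vecMulVec x y' = vecMulVec x' y' := by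
    rw [vecMulVec_mul_vecMulVec, h1, one_smul]
  have h3 := (frame_one (F := F') (κ := Fin N)).uv (frame_one (κ := Fin N'))
    (a := vecMulVec x y') (b := vecMulVec x' y)
    (fun i j => (h.wt _ _ (wt_x i)).mul (wt_y j))
    (fun i j => (wt_x i).mul (h.wt _ _ (wt_y j)))
    (by rw [e1, vecMulVec_mul_vecMulVec, h1, one_smul])
    (by rw [e2, vecMulVec_mul_vecMulVec, h2, one_smul]) k
  have e3 : vecMulVec x y = ((DR.prj F).map ρ).map (inc F') := by
    ext i j : 1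
    exact (map_mul φ _ _).symm.trans (h.comm (DR.prj F i j)).symm
  have e4 : vecMulVec x' y' = (DR.prj F').map (inc F') := rfl
  rwa [e1, e2, e3, e4, ← cc_one, ← cc_one, phiB_prj'] at h3

theorem np_zero {k : ℕ} (hk : k + 1 ≤ N) {g : ℂ}
    (h : ExB (0 : Pol N ℂ) (g • hh (0 : Pol N ℂ) ^ k)) : g = 0 := by
  obtain ⟨μ, hμ⟩ := h
  obtain ⟨η, -, h2, h3⟩ := lift_hor μ
  rw [← h3, ST_d, hh, ← map_pow, ← mk_smul', Ideal.Quotient.eq] at hμ
  obtain ⟨a, b, h4⟩ := mem_JJ.1 hμ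
  refine np hk (y := η) (h2 ▸ zero_mem _) ?_
  have e : (of (C g) : OO N ℂ) = algebraMap ℂ _ g := (of : RR N ℂ →ₐ[ℂ] OO N ℂ).commutes g
  rw [e, ← Algebra.smul_def]
  simpa [xo] using h4

theorem np_hyp {k d : ℕ} (hF0 : F ≠ 0) (hF : F.IsHomogeneous d) (hd : 1 ≤ d) (hk : k + 2 ≤ N)
    {g : ℂ} (h : ExB F (g • hh F ^ k)) : g = 0 := by
  obtain ⟨μ, hμ⟩ := h
  obtain ⟨η, h1, h2, h3⟩ := lift_hor μ
  rw [← h3, ST_d, hh, ← map_pow, ← mk_smul', Ideal.Quotient.eq] at hμ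
  have h4 := ((gy_pow F d k).smul g).eq_zero hF0 hF hk ((hor_pow _).smul g) (η := η)
    ⟨h1, h2 ▸ zero_mem _⟩ hμ
  exact (mul_eq_zero.1 h4).resolve_right (Nat.cast_ne_zero.2 (by omega))

/-- Two maps to a variety of dimension `k` contained in the zero set of `I`, such that the sum of
the two restrictions of any algebraic class has rational degree. -/
def Test (k : ℕ) (F : Pol N ℂ) (I : Ideal (Pol N ℂ)) : Prop :=
  ∃ (N' : ℕ) (F' : Pol N' ℂ) (φ : Fin 2 → DR.TT F →ₐ[ℂ] DR.TT F') (ρ : Fin 2 → Jou F →ₐ[ℂ] Jou F'),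
    (∀ s, Sb F F' (φ s) (ρ s)) ∧
    (∀ s, ∀ P ∈ I, φ s (Ideal.Quotient.mk _ (rename inl P)) = 0) ∧
    (∀ g : ℂ, ExB F' (g • hh F' ^ k) → g = 0) ∧
    ∀ (n : ℕ) (e : Matrix (Fin n) (Fin n) (Jou F)), e * e = e → ∃ r : ℚ,
      ExB F' (phiB F' (chw k (e.map (ρ 0))) + phiB F' (chw k (e.map (ρ 1))) - (r : ℂ) • hh F' ^ k)

/-- A linear space is a test cycle. -/
theorem test_plane {k : ℕ} {L : Matrix (Fin N) (Fin (k + 1)) ℂ} {L' : Matrix (Fin (k + 1)) (Fin N) ℂ}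
    (h : L' * L = 1) {I : Ideal (Pol N ℂ)} (hF : F ∈ I)
    (hI : ∀ P ∈ I, aeval (fun i => ∑ b, L i b • (X b : Pol (k + 1) ℂ)) P = 0) : Test k F I := by
  let x' : Fin (k + 1) → DR.TT (0 : Pol (k + 1) ℂ) := fun i => Ideal.Quotient.mk _ (X (inl i))
  let y' : Fin (k + 1) → DR.TT (0 : Pol (k + 1) ℂ) := fun i => Ideal.Quotient.mk _ (X (inr i))
  have h0 : ∀ P ∈ I, aeval (fun i => ∑ b, L i b • x' b) P = 0 := fun P hP => by
    have h1 := congrArg (aeval x') (hI P hP)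
    rw [map_zero, ← AlgHom.comp_apply, comp_aeval] at h1
    simpa using h1
  obtain ⟨φ, ρ, h1, h2⟩ := exists_sub (F := F) (fun i => ∑ b, L i b • x' b)
    (fun i => ∑ b, L' b i • y' b) (fun i => wt_sum _ fun b _ => wt_smul (wt_x b) _)
    (fun i => wt_sum _ fun b _ => wt_smul (wt_y b) _) (by
      rw [← fr_xy (0 : Pol (k + 1) ℂ)]
      simp only [Finset.sum_mul_sum, smul_mul_smul_comm]
      rw [Finset.sum_comm]
      refine Finset.sum_congr rfl fun b _ => ?_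
      rw [Finset.sum_comm, Finset.sum_eq_single b]
      · have h3 : ∑ i, L i b * L' b i = 1 := by
          simpa [Matrix.mul_apply, mul_comm] using congrFun (congrFun h b) b
        rw [← Finset.sum_smul, h3, one_smul]
      · intro c _ hc
        have h3 : ∑ i, L i b * L' c i = 0 := by
          simpa [Matrix.mul_apply, mul_comm, hc] using congrFun (congrFun h c) b
        rw [← Finset.sum_smul, h3, zero_smul]
      · simp) (h0 F hF)
  refine ⟨k + 1, 0, fun _ => φ, fun _ => ρ, fun _ => h1, fun _ P hP => ?_,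
    fun g hg => np_zero le_rfl hg, fun n e he => ?_⟩
  · rw [h2, aeval_rename]
    exact h0 P hP
  · obtain ⟨m, hm⟩ := rat_zero (Nat.succ_pos k) (e := e.map ρ) (by rw [← Matrix.map_mul, he]) k
    refine ⟨2 * m, ?_⟩
    convert hm.add hm using 1
    push_cast
    module

end Pool.Agent.Lib.MP_e9c0f3_ag.LF
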