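import Pool.Agent.Lib.MP_e9c0f3_ag.Free2

/-! Hilbert's syzygy theorem for a positive grading by an abelian group. -/

open MvPolynomial Matrix

namespace Pool.Agent.Lib.MP_e9c0f3_ag.LF

/-- Homogeneous matrices: the variables have degrees `w`, the rows `a`, the columns `b`. -/
def WHom {σ G α β : Type} [AddCommGroup G] (w : σ → G) (a : α → G) (b : β → G)
    (z : Matrix α β (MvPolynomial σ ℂ)) : Prop :=
  ∀ i j, IsWeightedHomogeneous w (z i j) (b j - a i)

section

variable {G : Type} [AddCommGroup G] {N : ℕ} {w : Fin N → G} {α β : Type}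

/-- The homogeneous component of a vector. -/
noncomputable def syz_pr (w : Fin N → G) (γ : β → G) (g : G) (v : β → Pol N ℂ) : β → Pol N ℂ :=
  fun i => weightedHomogeneousComponent w (g - γ i) (v i)

/-- Graded submodules. -/
def syz_Gr (w : Fin N → G) (γ : β → G) (Z : Submodule (Pol N ℂ) (β → Pol N ℂ)) : Prop :=
  ∀ g, ∀ v ∈ Z, syz_pr w γ g v ∈ Z

theorem syz_comp_mul {p : Pol N ℂ} {c : G} (hp : IsWeightedHomogeneous w p c) (d : G)
    (q : Pol N ℂ) :
    weightedHomogeneousComponent w (c + d) (p * q) = p * weightedHomogeneousComponent w d q := by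
  classical
  ext m
  have h : ∀ x ∈ Finset.HasAntidiagonal.antidiagonal m,
      coeff x.1 p * coeff x.2 (weightedHomogeneousComponent w d q) =
        if Finsupp.weight w m = c + d then coeff x.1 p * coeff x.2 q else 0 := by
    intro x hx
    by_cases h0 : coeff x.1 p = 0
    · simp [h0]
    · rw [coeff_weightedHomogeneousComponent, ← Finset.HasAntidiagonal.mem_antidiagonal.1 hx,
        map_add, hp h0, mul_ite, mul_zero]
      exact if_congr (add_right_inj c).symm rfl rfl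
  rw [coeff_weightedHomogeneousComponent, coeff_mul, coeff_mul, Finset.sum_congr rfl h]
  split_ifs <;> simp

theorem syz_pr_mulVec [Fintype α] {γ : β → G} {γ' : α → G} {z : Matrix β α (Pol N ℂ)}
    (hz : WHom w γ γ' z) (g : G) (v : α → Pol N ℂ) :
    syz_pr w γ g (z *ᵥ v) = z *ᵥ syz_pr w γ' g v := by
  funext i
  simp only [syz_pr, mulVec, dotProduct, map_sum]
  refine Finset.sum_congr rfl fun j _ => ?_
  rw [← syz_comp_mul (hz i j)]
  congr 2
  abel

theorem syz_gr_ker [Fintype α] {γ : β → G} {γ' : α → G} {z : Matrix β α (Pol N ℂ)}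
    (hz : WHom w γ γ' z) : syz_Gr w γ' (LinearMap.ker z.mulVecLin) := by
  intro g v hv
  rw [LinearMap.mem_ker, mulVecLin_apply] at hv ⊢
  rw [← syz_pr_mulVec hz, hv]
  funext i
  exact map_zero _

theorem syz_sum_pr [Fintype β] (γ : β → G) (v : β → Pol N ℂ) :
    ∃ s : Finset G, v = ∑ g ∈ s, syz_pr w γ g v := by
  classical
  refine ⟨Finset.univ.biUnion fun i => (v i).support.image fun m => Finsupp.weight w m + γ i,
    funext fun i => ?_⟩
  ext m
  rw [Finset.sum_apply, coeff_sum]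
  simp only [syz_pr, coeff_weightedHomogeneousComponent, eq_sub_iff_add_eq, Finset.sum_ite_eq]
  split_ifs with h
  · rfl
  · by_contra h0
    exact h (Finset.mem_biUnion.2
      ⟨i, Finset.mem_univ _, Finset.mem_image.2 ⟨m, mem_support_iff.2 h0, rfl⟩⟩)

theorem syz_gen [Fintype β] {γ : β → G} {Z : Submodule (Pol N ℂ) (β → Pol N ℂ)}
    (hg : syz_Gr w γ Z) : ∃ (α : Type) (_ : Fintype α) (_ : DecidableEq α) (g : α → G)
      (z : Matrix β α (Pol N ℂ)), WHom w γ g z ∧ LinearMap.range z.mulVecLin = Z := by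
  classical
  let T : Set (β → Pol N ℂ) := {v | v ∈ Z ∧ ∃ g, ∀ i, IsWeightedHomogeneous w (v i) (g - γ i)}
  obtain ⟨t, ht, hspan⟩ := (Submodule.fg_span_iff_fg_span_finset_subset (R := Pol N ℂ) T).1
    (IsNoetherian.noetherian _)
  choose g hgt using fun j : t => (ht j.2).2
  refine ⟨t, inferInstance, inferInstance, g, of fun i j => j.1 i, fun i j => hgt j i, ?_⟩
  have e : Set.range (of fun i (j : t) => j.1 i).col = (t : Set (β → Pol N ℂ)) := by
    ext v
    exact ⟨fun ⟨j, hj⟩ => hj ▸ j.2, fun hv => ⟨⟨v, hv⟩, rfl⟩⟩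
  rw [Matrix.range_mulVecLin, e, ← hspan]
  refine le_antisymm (Submodule.span_le.2 fun v hv => hv.1) fun v hv => ?_
  obtain ⟨s, hs⟩ := syz_sum_pr (w := w) γ v
  rw [hs]
  exact Submodule.sum_mem _ fun d _ => Submodule.subset_span
    ⟨hg d v hv, d, fun i => weightedHomogeneousComponent_isWeightedHomogeneous _ _⟩

theorem syz_basis [Fintype β] (hw : ∀ m : Fin N →₀ ℕ, Finsupp.weight w m = 0 → m = 0) {γ : β → G}
    {Z : Submodule (Pol N ℂ) (β → Pol N ℂ)} (hg : syz_Gr w γ Z) (hr : Reg N ℂ (N + 1) Z) :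
    ∃ (α : Type) (_ : Fintype α) (_ : DecidableEq α) (g : α → G) (z : Matrix β α (Pol N ℂ)),
      WHom w γ g z ∧ LinearMap.range z.mulVecLin = Z ∧ ∀ v, z *ᵥ v = 0 → v = 0 := by
  classical
  have hex : ∃ n, ∃ (α : Type) (_ : Fintype α) (_ : DecidableEq α) (g : α → G)
      (z : Matrix β α (Pol N ℂ)), Fintype.card α = n ∧ WHom w γ g z ∧
      LinearMap.range z.mulVecLin = Z := by
    obtain ⟨α, i1, i2, g, z, h1, h2⟩ := syz_gen hg
    exact ⟨_, α, i1, i2, g, z, rfl, h1, h2⟩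
  obtain ⟨α, i1, i2, g, z, hn, hz, hZ⟩ := Nat.find_spec hex
  refine ⟨α, i1, i2, g, z, hz, hZ, ?_⟩
  have hconst : ∀ y ∈ LinearMap.ker z.mulVecLin, ∀ j, coeff 0 (y j) = 0 := by
    intro y hy j
    by_contra hu
    have h1 : syz_pr w g (g j) y j = C (coeff 0 (y j)) := by
      ext m
      rw [syz_pr, coeff_weightedHomogeneousComponent, coeff_C, sub_self]
      by_cases hm : 0 = m
      · subst hm
        simp
      · rw [if_neg hm, if_neg fun h => hm (hw m h).symm]
    have h2 := free2_drop z j (y := syz_pr w g (g j) y) (syz_gr_ker hz (g j) y hy)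
      (h1 ▸ (isUnit_iff_ne_zero.2 hu).map C)
    refine Nat.find_min hex (m := Fintype.card {i // i ≠ j}) ?_
      ⟨{i // i ≠ j}, inferInstance, inferInstance, fun i => g i.1, z.submatrix id Subtype.val, rfl,
        fun a b => hz a b.1, h2.trans hZ⟩
    rw [← hn]
    exact Fintype.card_subtype_lt (x := j) (by simp)
  let f : (α → Pol N ℂ) →ₗ[Pol N ℂ] Z := z.mulVecLin.codRestrict Z fun c => hZ ▸ ⟨c, rfl⟩
  have hf : Function.Surjective f := by
    rintro ⟨v, hv⟩
    rw [← hZ] at hv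
    obtain ⟨c, rfl⟩ := hv
    exact ⟨c, rfl⟩
  have hk : LinearMap.ker f = LinearMap.ker z.mulVecLin := LinearMap.ker_codRestrict _ _ _
  have hle : LinearMap.ker f ≤ xs N ℂ N • LinearMap.ker f := by
    intro y hy
    have hx : y ∈ xs N ℂ N • (⊤ : Submodule (Pol N ℂ) (α → Pol N ℂ)) := by
      refine free2_mem_smul_top fun j => mem_ideal_span_X_image.2 fun m hm => ?_
      by_contra h
      have h0 : m = 0 := by
        ext i
        by_contra h'
        exact h ⟨i, i.2, h'⟩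
      rw [h0, mem_support_iff] at hm
      exact hm (hconst y (hk ▸ hy) j)
    have h1 := Reg.inter hf hr (Nat.le_succ N) (z := ⟨y, hy⟩) hx
    have h2 := Submodule.mem_map_of_mem (f := (LinearMap.ker f).subtype) h1
    rwa [Submodule.map_smul'', Submodule.map_top, Submodule.range_subtype] at h2
  obtain ⟨r, hr1, hr2⟩ := Submodule.exists_sub_one_mem_and_smul_eq_zero_of_fg_of_le_smul _ _
    (IsNoetherian.noetherian _) hle
  intro v hv
  refine (smul_eq_zero.1 (hr2 v (hk ▸ hv))).resolve_left fun h0 => ?_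
  rw [h0, zero_sub, Ideal.neg_mem_iff] at hr1
  obtain ⟨i, -, hi⟩ := mem_ideal_span_X_image.1 hr1 0 (by simp)
  exact hi rfl

theorem syz_aux (hw : ∀ m : Fin N →₀ ℕ, Finsupp.weight w m = 0 → m = 0) (n : ℕ) :
    ∀ (j : ℕ), j + n = N + 1 → ∀ (β : Type) [Fintype β] (γ : β → G)
    (Z : Submodule (Pol N ℂ) (β → Pol N ℂ)), syz_Gr w γ Z → Reg N ℂ j Z →
    ∃ (ι : Type) (_ : Fintype ι) (_ : DecidableEq ι) (par : ι → ℕ) (g : ι → G)
      (z : Matrix β ι (Pol N ℂ)) (L : Matrix ι ι (Pol N ℂ)), WHom w γ g z ∧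
      WHom w g g L ∧ (∀ b j, z b j ≠ 0 → par j = 0) ∧
      (∀ i j, L i j ≠ 0 → par i + 1 = par j) ∧ z * L = 0 ∧ L * L = 0 ∧ (∀ v, z *ᵥ v ∈ Z) ∧
      ∀ a ∈ Z, ∀ w, z *ᵥ w = 0 → L *ᵥ w = 0 → ∃ u, z *ᵥ u = a ∧ L *ᵥ u = w := by
  induction n with
  | zero =>
    intro j hj β _ γ Z hg hr
    obtain rfl : j = N + 1 := hj
    obtain ⟨α, _, _, g, z, h1, h2, h3⟩ := syz_basis hw hg hr
    refine ⟨α, inferInstance, inferInstance, fun _ => 0, g, z, 0, h1,
      fun _ _ => isWeightedHomogeneous_zero _ _ _,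
      fun _ _ _ => rfl, fun _ _ h => absurd rfl h, Matrix.mul_zero _, Matrix.mul_zero _,
      fun v => h2 ▸ ⟨v, rfl⟩, fun a ha w hw _ => ?_⟩
    rw [← h2] at ha
    obtain ⟨u, hu⟩ := ha
    exact ⟨u, hu, by rw [h3 w hw, zero_mulVec]⟩
  | succ n ih =>
    intro j hj β _ γ Z hg hr
    obtain ⟨α, _, _, g, z, h1, h2⟩ := syz_gen hg
    subst h2
    have hr' : Reg N ℂ (j + 1) (LinearMap.ker z.mulVecLin) := by
      have := Reg.ker (LinearMap.surjective_rangeRestrict z.mulVecLin) hr Reg.free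
      rwa [LinearMap.ker_rangeRestrict] at this
    obtain ⟨ι, _, _, par, g', z', L, k1, k2, k3, k4, k5, k6, k7, k8⟩ :=
      ih (j + 1) (by omega) α g _ (syz_gr_ker h1) hr'
    have hv : ∀ v : α ⊕ ι → Pol N ℂ,
        fromCols z (0 : Matrix β ι (Pol N ℂ)) *ᵥ v = z *ᵥ (v ∘ Sum.inl) := by
      intro v
      rw [fromCols_mulVec, zero_mulVec, add_zero]
    have hb : ∀ v : α ⊕ ι → Pol N ℂ, fromBlocks (0 : Matrix α α (Pol N ℂ)) z' 0 L *ᵥ v =
        Sum.elim (z' *ᵥ (v ∘ Sum.inr)) (L *ᵥ (v ∘ Sum.inr)) := by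
      intro v
      rw [fromBlocks_mulVec]
      simp
    refine ⟨α ⊕ ι, inferInstance, inferInstance, Sum.elim (fun _ => 0) fun j => par j + 1,
      Sum.elim g g', fromCols z 0, fromBlocks 0 z' 0 L, ?_, ?_, ?_, ?_, ?_, ?_,
      fun v => ⟨_, (hv v).symm⟩, ?_⟩
    · rintro i (j | j)
      · exact h1 i j
      · exact isWeightedHomogeneous_zero _ _ _
    · rintro (i | i) (j | j)
      · exact isWeightedHomogeneous_zero _ _ _
      · exact k1 i j
      · exact isWeightedHomogeneous_zero _ _ _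
      · exact k2 i j
    · rintro b (j | j) h
      · rfl
      · exact absurd rfl h
    · rintro (i | i) (j | j) h
      · exact absurd rfl h
      · simp only [Sum.elim_inl, Sum.elim_inr, k3 i j h]
      · exact absurd rfl h
      · simp only [Sum.elim_inr, k4 i j h]
    · have e : z * z' = 0 := by
        apply Matrix.mulVec_injective
        funext v
        rw [← mulVec_mulVec, zero_mulVec]
        exact k7 v
      rw [fromCols_mul_fromBlocks]
      simp [e]
    · rw [fromBlocks_multiply]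
      simp [k5, k6]
    · rintro a ⟨t, rfl⟩ w hw1 hw2
      rw [hv] at hw1
      rw [hb] at hw2
      obtain ⟨u, hu1, hu2⟩ := k8 (w ∘ Sum.inl) hw1 _ (funext fun i => congrFun hw2 (Sum.inl i))
        (funext fun i => congrFun hw2 (Sum.inr i))
      refine ⟨Sum.elim t u, hv _, ?_⟩
      rw [hb, Sum.elim_comp_inr, hu1, hu2, Sum.elim_comp_inl_inr]

end

theorem syz_weight {σ τ G : Type} [AddCommGroup G] (f : σ → τ) (w : τ → G) (m : σ →₀ ℕ) :
    Finsupp.weight w (m.mapDomain f) = Finsupp.weight (w ∘ f) m := by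
  rw [Finsupp.weight_apply, Finsupp.weight_apply]
  exact Finsupp.sum_mapDomain_index (h := fun i (c : ℕ) => c • w i) (fun _ => zero_smul _ _)
    fun _ _ _ => add_smul _ _ _

theorem syz_rename {σ τ G α β : Type} [AddCommGroup G] (f : σ → τ) {w : τ → G} {a : α → G}
    {b : β → G} {z : Matrix α β (MvPolynomial σ ℂ)} (hz : WHom (w ∘ f) a b z) :
    WHom w a b (z.map (rename f)) := by
  intro i j d hd
  obtain ⟨u, rfl, hu⟩ := coeff_rename_ne_zero f _ d hd
  rw [syz_weight, hz i j hu]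

theorem syz_map_mulVec {R S α β : Type} [CommRing R] [CommRing S] [Fintype β] (f : R ≃+* S)
    (z : Matrix α β R) (v : β → S) : z.map f *ᵥ v = f ∘ (z *ᵥ (f.symm ∘ v)) := by
  funext i
  simp [mulVec, dotProduct]

/-- The kernel of a homogeneous matrix has a finite graded free resolution. -/
theorem syz {σ G α β : Type} [Fintype σ] [AddCommGroup G] [Fintype α] [Fintype β] (w : σ → G)
    (hw : ∀ m : σ →₀ ℕ, Finsupp.weight w m = 0 → m = 0) {a : α → G} {b : β → G}
    {z : Matrix α β (MvPolynomial σ ℂ)} (hz : WHom w a b z) :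
    ∃ (ι : Type) (_ : Fintype ι) (_ : DecidableEq ι) (par : ι → ℕ) (g : ι → G)
      (y : Matrix β ι (MvPolynomial σ ℂ)) (L : Matrix ι ι (MvPolynomial σ ℂ)),
      WHom w b g y ∧ WHom w g g L ∧ (∀ i j, y i j ≠ 0 → par j = 0) ∧
      (∀ i j, L i j ≠ 0 → par i + 1 = par j) ∧ z * y = 0 ∧ y * L = 0 ∧ L * L = 0 ∧
      ∀ v u, z *ᵥ v = 0 → y *ᵥ u = 0 → L *ᵥ u = 0 → ∃ t, y *ᵥ t = v ∧ L *ᵥ t = u := by
  let e := Fintype.equivFin σ
  let φ : Pol (Fintype.card σ) ℂ ≃+* MvPolynomial σ ℂ := (renameEquiv ℂ e.symm).toRingEquiv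
  have hw' : ∀ m : Fin (Fintype.card σ) →₀ ℕ, Finsupp.weight (w ∘ e.symm) m = 0 → m = 0 := by
    intro m hm
    rw [← syz_weight] at hm
    exact Finsupp.mapDomain_injective e.symm.injective ((hw _ hm).trans Finsupp.mapDomain_zero.symm)
  have hz' : WHom (w ∘ e.symm) a b (z.map φ.symm) :=
    syz_rename e (by rwa [Function.comp_assoc, e.symm_comp_self, Function.comp_id])
  obtain ⟨ι, _, _, par, g, y, L, k1, k2, k3, k4, k5, k6, k7, k8⟩ :=
    syz_aux hw' (Fintype.card σ + 1) 0 (zero_add _) β b _ (syz_gr_ker hz') Reg.zero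
  have c0 : ∀ {κ : Type} {v : κ → Pol (Fintype.card σ) ℂ}, φ ∘ v = 0 → v = 0 := fun h =>
    funext fun i => φ.injective ((congrFun h i).trans (map_zero φ).symm)
  have c1 : ∀ {κ : Type} (v : κ → MvPolynomial σ ℂ), φ ∘ φ.symm ∘ v = v := fun v =>
    funext fun i => φ.apply_symm_apply _
  have c2 : ∀ {κ : Type} (v : κ → Pol (Fintype.card σ) ℂ), φ.symm ∘ φ ∘ v = v := fun v =>
    funext fun i => φ.symm_apply_apply _
  have ez : z = (z.map φ.symm).map φ := by
    ext1 i j
    exact (φ.apply_symm_apply _).symm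
  have m0 : ∀ {κ κ' : Type}, (0 : Matrix κ κ' (Pol (Fintype.card σ) ℂ)).map φ = 0 :=
    Matrix.map_zero _ (map_zero φ)
  refine ⟨ι, inferInstance, inferInstance, par, g, y.map φ, L.map φ, syz_rename e.symm k1,
    syz_rename e.symm k2, fun i j h => k3 i j fun h0 => h ?_, fun i j h => k4 i j fun h0 => h ?_,
    ?_, ?_, ?_, fun v u h1 h2 h3 => ?_⟩
  · rw [map_apply, h0, map_zero]
  · rw [map_apply, h0, map_zero]
  · have h : z.map φ.symm * y = 0 := by
      apply Matrix.mulVec_injective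
      funext v
      rw [← mulVec_mulVec, zero_mulVec]
      exact k7 v
    rw [ez, ← Matrix.map_mul, h, m0]
  · rw [← Matrix.map_mul, k5, m0]
  · rw [← Matrix.map_mul, k6, m0]
  · rw [ez, syz_map_mulVec] at h1
    rw [syz_map_mulVec] at h2 h3
    obtain ⟨t, t1, t2⟩ := k8 (φ.symm ∘ v) (c0 h1) (φ.symm ∘ u) (c0 h2) (c0 h3)
    exact ⟨φ ∘ t, by rw [syz_map_mulVec, c2, t1, c1], by rw [syz_map_mulVec, c2, t2, c1]⟩

end Pool.Agent.Lib.MP_e9c0f3_ag.LF
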