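import Pool.Agent.Lib.MP_e9c0f3_ag.LF.Deh

/-! Finite resolutions by sums of line bundles. -/

open MvPolynomial Sum Matrix

namespace Pool.Agent.Lib.MP_e9c0f3_ag.LF

open DR

variable {N : ℕ} {F : Pol N ℂ} {d : ℕ}

theorem tail (hF : F.IsHomogeneous d) (k : ℕ) {β ι : Type} [Fintype ι] [DecidableEq ι]
    {μ : β → ℤ} {ν : ι → ℤ} {par : ι → ℕ} {y : Matrix β ι (TT F)} {L : Matrix ι ι (TT F)}
    (ty : Typ F μ ν y) (tL : Typ F ν ν L) (hy : ∀ i j, y i j ≠ 0 → par j = 0)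
    (hL : ∀ i j, L i j ≠ 0 → par i + 1 = par j) (yL : y * L = 0) (LL : L * L = 0)
    (ex : ∀ u, y *ᵥ u = 0 → L *ᵥ u = 0 → ∃ t, L *ᵥ t = u) (Y : Submodule (TT F) (β → TT F))
    (hY : ∀ v, v ∈ Y ↔ ∃ t, y *ᵥ t = v) :
    ∃ (γ : Form (Jou F)) (b : ℤ), HasCh k (ModuleCat.of (Jou F) (typ F μ Y)) γ ∧
      phiB F γ = (b : ℂ) • hh F ^ k := by
  let W : ℕ → Submodule (TT F) (ι → TT F) := fun n =>
    ⨅ i : {i // ¬ par i = n}, LinearMap.ker (LinearMap.proj i.1)
  have hW : ∀ n v, v ∈ W n ↔ ∀ i, ¬ par i = n → v i = 0 := fun n v => by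
    simp [W]
  let Z : ℕ → Submodule (TT F) (ι → TT F) := fun n =>
    W n ⊓ LinearMap.ker L.mulVecLin ⊓ LinearMap.ker y.mulVecLin
  have hZ : ∀ n v, v ∈ Z n ↔ (v ∈ W n ∧ L *ᵥ v = 0) ∧ y *ᵥ v = 0 := fun n v => Iff.rfl
  have cut : ∀ {γ : Type} (M : Matrix γ ι (TT F)) (n : ℕ) (t : ι → TT F) (i : γ),
      (∀ j, M i j ≠ 0 → par j = n) →
        (M *ᵥ fun j => if par j = n then t j else 0) i = (M *ᵥ t) i := fun M n t i h => by
    refine Finset.sum_congr rfl fun j _ => ?_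
    by_cases h0 : M i j = 0
    · simp [h0]
    · simp [h j h0]
  have van : ∀ {γ : Type} (M : Matrix γ ι (TT F)) (n : ℕ) (t : ι → TT F) (i : γ), t ∈ W n →
      (∀ j, M i j ≠ 0 → par j ≠ n) → (M *ᵥ t) i = 0 := fun M n t i ht h => by
    refine Finset.sum_eq_zero fun j _ => ?_
    by_cases h0 : M i j = 0
    · simp [h0]
    · simp [(hW n t).1 ht j (h j h0)]
  have down : ∀ m n, (∀ i, par i < n + m) → ∃ (γ : Form (Jou F)) (b : ℤ),
      HasCh k (ModuleCat.of (Jou F) (typ F ν (Z n))) γ ∧ phiB F γ = (b : ℂ) • hh F ^ k := by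
    intro m
    induction m with
    | zero =>
      intro n hn
      have : Subsingleton (typ F ν (Z n)) := ⟨fun v w => Subtype.ext (funext fun i => by
        rw [(hW n _).1 v.2.1.1.1 i (hn i).ne, (hW n _).1 w.2.1.1.1 i (hn i).ne])⟩
      exact ⟨0, 0, HasCh.zero _, by simp⟩
    | succ m ih =>
      intro n hn
      obtain ⟨γ₀, b₀, h0, e0⟩ := ih (n + 1) fun i => by have := hn i; omega
      obtain ⟨p, hp⟩ := shb2_map tL (W := W (n + 1)) (Z := Z n) fun w hw =>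
        (hZ _ _).2 ⟨⟨(hW _ _).2 fun i hi => van L _ w i hw fun j hj => by
          have := hL i j hj
          omega, by rw [mulVec_mulVec, LL, zero_mulVec]⟩, by rw [mulVec_mulVec, yL, zero_mulVec]⟩
      obtain ⟨γ₁, b₁, h1, h2⟩ := typ_step ν (fun i => par i = n + 1)
        (ModuleCat.of (Jou F) (typ F ν (Z n))) (Z (n + 1)) (W (n + 1)) (hW (n + 1)) p
        (fun ⟨v, hv, hv'⟩ => by
          obtain ⟨t, ht⟩ := ex v hv.2 hv.1.2
          have h3 : (L *ᵥ fun j => if par j = n + 1 then t j else 0) = v := by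
            funext i
            by_cases hi : par i = n
            · rw [cut L _ t i fun j hj => by have := hL i j hj; omega, ht]
            · rw [(hW _ _).1 hv.1.1 i hi]
              exact van L (n + 1) _ i ((hW _ _).2 fun j hj => if_neg hj) fun j hj => by
                have := hL i j hj
                omega
          obtain ⟨w', k1, k2, k3⟩ := typ_lift hF tL (h3 ▸ hv')
          exact ⟨⟨w', (hW _ _).2 fun i hi => k2 i (if_neg hi), k1⟩,
            Subtype.ext ((hp _).trans (k3.trans h3))⟩)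
        (fun v hv => hv.1.1)
        (fun w => ⟨fun h3 => (hZ _ _).2 ⟨⟨w.2.1, (hp w).symm.trans (congrArg Subtype.val h3)⟩,
          funext fun i => van y _ _ i w.2.1 fun j hj => by have := hy i j hj; omega⟩,
          fun h3 => Subtype.ext ((hp w).trans h3.1.2)⟩) h0
      refine ⟨γ₁, b₁ - b₀, h1, ?_⟩
      rw [h2, e0, Int.cast_sub, sub_smul]
  obtain ⟨γ₀, b₀, h0, e0⟩ := down (Finset.univ.sup par + 1) 0 fun i => by
    have := Finset.le_sup (f := par) (Finset.mem_univ i)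
    omega
  obtain ⟨p, hp⟩ := shb2_map ty (W := W 0) (Z := Y) fun w _ => (hY _).2 ⟨w, rfl⟩
  obtain ⟨γ₁, b₁, h1, h2⟩ := typ_step ν (fun i => par i = 0)
    (ModuleCat.of (Jou F) (typ F μ Y)) (Z 0) (W 0) (hW 0) p
    (fun ⟨v, hv, hv'⟩ => by
      obtain ⟨t, ht⟩ := (hY v).1 hv
      have h3 : (y *ᵥ fun j => if par j = 0 then t j else 0) = v := by
        funext i
        rw [cut y _ t i (hy i), ht]
      obtain ⟨w', k1, k2, k3⟩ := typ_lift hF ty (h3 ▸ hv')
      exact ⟨⟨w', (hW _ _).2 fun i hi => k2 i (if_neg hi), k1⟩,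
        Subtype.ext ((hp _).trans (k3.trans h3))⟩)
    (fun v hv => hv.1.1)
    (fun w => ⟨fun h3 => (hZ _ _).2 ⟨⟨w.2.1, funext fun i => van L _ _ i w.2.1 fun j hj => by
      have := hL i j hj
      omega⟩, (hp w).symm.trans (congrArg Subtype.val h3)⟩,
      fun h3 => Subtype.ext ((hp w).trans h3.2)⟩) h0
  refine ⟨γ₁, b₁ - b₀, h1, ?_⟩
  rw [h2, e0, Int.cast_sub, sub_smul]

/-- The quotient map to the cone. -/
noncomputable def tau (F : Pol N ℂ) : R0 N →+* TT F :=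
  Ideal.Quotient.factor (Ideal.span_mono (Set.singleton_subset_iff.2 (Or.inr rfl)) :
    Ideal.span {ff N ℂ - 1} ≤ relJ F)

theorem tau_q0 (r : RR N ℂ) : tau F (q0 N r) = Ideal.Quotient.mk (relJ F) r := rfl

theorem tau_surj : Function.Surjective (tau F) := Ideal.Quotient.factor_surjective _

theorem tau_ker (r : R0 N) : tau F r = 0 ↔ q0 N (rename inl F) ∣ r := by
  obtain ⟨r, rfl⟩ := Ideal.Quotient.mk_surjective r
  change Ideal.Quotient.mk (relJ F) r = 0 ↔ q0 N _ ∣ q0 N r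
  rw [Ideal.Quotient.eq_zero_iff_mem, relJ, ← ff, Ideal.mem_span_pair]
  constructor
  · rintro ⟨a, b, rfl⟩
    refine ⟨q0 N a, ?_⟩
    rw [map_add, Ideal.Quotient.eq_zero_iff_mem.2 (Ideal.mem_span_singleton'.2 ⟨b, rfl⟩), add_zero,
      map_mul, mul_comm]
  · rintro ⟨a, ha⟩
    obtain ⟨a, rfl⟩ := Ideal.Quotient.mk_surjective a
    rw [← map_mul, Ideal.Quotient.eq] at ha
    obtain ⟨b, hb⟩ := Ideal.mem_span_singleton'.1 ha
    exact ⟨a, b, by rw [hb]; ring⟩

theorem tau_reg (hN : 0 < N) (hF : F ≠ 0) : q0 N (rename inl F) ∈ nonZeroDivisors (R0 N) := by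
  refine mem_nonZeroDivisors_iff_left.2 fun r hr => ?_
  obtain ⟨r, rfl⟩ := Ideal.Quotient.mk_surjective r
  rw [← map_mul, Ideal.Quotient.eq_zero_iff_mem] at hr
  exact Ideal.Quotient.eq_zero_iff_mem.2 (reg_ff hN hF hr)

theorem whom_typ {α β : Type} {a : α → ℤ × ℤ} {b : β → ℤ × ℤ} {z : Matrix α β (RR N ℂ)}
    (h : WHom (bw N) a b z) : Typ F (fun i => (a i).1) (fun j => (b j).1)
      ((z.map (q0 N)).map (tau F)) := fun i j => ⟨z i j, bw_fst (h i j), rfl⟩

/-- The image on the cone of the kernel of a bihomogeneous matrix has a finite resolution by sums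
of line bundles. -/
theorem res_ker (hN : 0 < N) (hF : F.IsHomogeneous d) (k : ℕ) {α β : Type} [Fintype α] [Fintype β]
    {a : α → ℤ × ℤ} {b : β → ℤ × ℤ} {z : Matrix α β (RR N ℂ)} (hz : WHom (bw N) a b z)
    (Y : Submodule (TT F) (β → TT F))
    (hY : ∀ v, v ∈ Y ↔ ∃ w, z.map (q0 N) *ᵥ w = 0 ∧ tau F ∘ w = v) :
    ∃ (γ : Form (Jou F)) (n : ℤ),
      HasCh k (ModuleCat.of (Jou F) (typ F (fun j => (b j).1) Y)) γ ∧
      phiB F γ = (n : ℂ) • hh F ^ k := by
  obtain ⟨ι, _, _, par, g, y, L, h1, h2, h3, h4, h5, h6, h7, h8⟩ := syz (bw N) bw_pos hz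
  have h9 := deh_exact hN hz h1 h2 h8
  have e5 : z.map (q0 N) * y.map (q0 N) = 0 := by
    rw [← Matrix.map_mul, h5, Matrix.map_zero _ (map_zero _)]
  have e6 : y.map (q0 N) * L.map (q0 N) = 0 := by
    rw [← Matrix.map_mul, h6, Matrix.map_zero _ (map_zero _)]
  have e7 : L.map (q0 N) * L.map (q0 N) = 0 := by
    rw [← Matrix.map_mul, h7, Matrix.map_zero _ (map_zero _)]
  have hφ : q0 N (rename inl F) = 0 ∨ q0 N (rename inl F) ∈ nonZeroDivisors (R0 N) := by
    by_cases h : F = 0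
    · exact Or.inl (by rw [h, map_zero, map_zero])
    · exact Or.inr (tau_reg hN h)
  refine tail hF k (par := par) (whom_typ h1) (whom_typ h2)
    (fun i j h => h3 i j fun e => h (by simp [e])) (fun i j h => h4 i j fun e => h (by simp [e]))
    (by rw [← Matrix.map_mul, e6, Matrix.map_zero _ (map_zero _)])
    (by rw [← Matrix.map_mul, e7, Matrix.map_zero _ (map_zero _)])
    (mod_exact (tau F) tau_surj hφ tau_ker e5 e6 e7 h9) Y fun v => (hY v).trans ⟨?_, ?_⟩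
  · rintro ⟨w, hw, rfl⟩
    obtain ⟨t, rfl, -⟩ := h9 w 0 hw (mulVec_zero _) (mulVec_zero _)
    exact ⟨tau F ∘ t, funext fun i => (RingHom.map_mulVec _ _ _ i).symm⟩
  · rintro ⟨t, rfl⟩
    choose s hs using fun j => tau_surj (t j)
    obtain rfl : tau F ∘ s = t := funext hs
    exact ⟨_, by rw [mulVec_mulVec, e5, zero_mulVec], funext fun i => RingHom.map_mulVec _ _ _ i⟩

/-- The module of fixed vectors of an idempotent. -/
theorem idem_ch {k : ℕ} {ι κ : Type} [Fintype ι] [DecidableEq ι] [Fintype κ] [DecidableEq κ]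
    {ν : ι → ℤ} {U : Matrix κ ι (TT F)} {V : Matrix ι κ (TT F)} (hf : Frame F ν U V)
    {e : Matrix ι ι (TT F)} (he : e * e = e) (t : Typ F ν ν e) {Z : Submodule (TT F) (ι → TT F)}
    (hZ : ∀ v, v ∈ Z ↔ e *ᵥ v = v) {γ : Form (Jou F)}
    (h : HasCh k (ModuleCat.of (Jou F) (typ F ν Z)) γ) : ExB F (cc F k U e V - phiB F γ) := by
  obtain ⟨e', he'⟩ := hf.desc hf t
  obtain ⟨q⟩ := typ_equiv hf he t he' hZ
  have start := HasCh.step (k := k) (ModuleCat.of (Jou F) (typ F ν Z))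
    (ModuleCat.of (Jou F) PUnit.{1}) 0 κ e' (hf.idem he he') 0 q.symm.toLinearMap
    (Function.injective_of_subsingleton _)
    (fun y => ⟨fun hy => ⟨0, (q.symm.map_eq_zero_iff.1 hy).symm⟩,
      fun ⟨_, hy⟩ => by rw [← hy]; exact map_zero _⟩) q.symm.surjective (HasCh.zero _)
  rw [sub_zero] at start
  rw [← phiB_cc he']
  exact start.uniqueB h

end Pool.Agent.Lib.MP_e9c0f3_ag.LF
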